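import Mathlib

-- part Pool.Agent.P.MP_5a7e2f_gt.Frag
section

namespace Pool.Agent.P.MP_5a7e2f_gt

open MeasureTheory Set Filter Topology

section Limsup

variable {S : Type} [MeasurableSpace S] {μ : Measure S} [IsFiniteMeasure μ]

lemma le_measure_limsup {A : ℕ → Set S} (hA : ∀ n, MeasurableSet (A n)) {c : ℝ}
    (hc : ∀ n, c ≤ μ.real (A n)) : c ≤ μ.real (⋂ N, ⋃ n, ⋃ (_ : N ≤ n), A n) := by
  have h1 : Tendsto (μ ∘ fun N => ⋃ n, ⋃ (_ : N ≤ n), A n) atTop
      (𝓝 (μ (⋂ N, ⋃ n, ⋃ (_ : N ≤ n), A n))) := by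
    refine tendsto_measure_iInter_atTop (fun N => ?_) ?_ ⟨0, measure_ne_top _ _⟩
    · exact (MeasurableSet.iUnion fun n => MeasurableSet.iUnion fun _ => hA n).nullMeasurableSet
    · intro N N' h s hs
      simp only [mem_iUnion] at hs ⊢
      obtain ⟨n, hn, hs⟩ := hs
      exact ⟨n, h.trans hn, hs⟩
  have h2 := (ENNReal.tendsto_toReal (measure_ne_top _ _)).comp h1
  refine ge_of_tendsto' h2 fun N => (hc N).trans ?_
  exact measureReal_mono (subset_iUnion₂ (s := fun n (_ : N ≤ n) => A n) N le_rfl)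
    (measure_ne_top _ _)

end Limsup

section W

variable {S : Type} [MeasurableSpace S] (μ : Measure S) [IsProbabilityMeasure μ]
variable {J : Type} [Countable J] (cl : J → J → ℕ → Prop) (E : J → J → Set S) (θ : ℝ)

/-- the derivative of a family of events -/
def der (W : J → Set S) (j : J) : Set S :=
  ⋂ n, ⋃ i, ⋃ i', ⋃ (_ : cl i j n ∧ cl i' j n), E i i' ∩ W i ∩ W i'

/-- admissible families of events -/
structure Adm (W : J → Set S) : Prop where
  meas : ∀ j, MeasurableSet (W j)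
  pre : ∀ j, der cl E W j ⊆ W j
  big : ∀ j n, ∀ η > 0, ∃ i i', cl i j n ∧ cl i' j n ∧ θ ≤ μ.real (E i i') ∧
    μ.real (E i i' \ (W i ∩ W i')) < η

variable {μ cl E θ}

omit [MeasurableSpace S] [Countable J] in
lemma mem_der {W : J → Set S} {j : J} {s : S} : s ∈ der cl E W j ↔
    ∀ n, ∃ i i', cl i j n ∧ cl i' j n ∧ s ∈ E i i' ∧ s ∈ W i ∧ s ∈ W i' := by
  simp only [der, mem_iInter, mem_iUnion, mem_inter_iff, exists_prop, and_assoc]

omit [MeasurableSpace S] [Countable J] in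
lemma der_mono {W W' : J → Set S} (h : ∀ j, W j ⊆ W' j) (j : J) :
    der cl E W j ⊆ der cl E W' j := by
  intro s hs
  rw [mem_der] at hs ⊢
  intro n
  obtain ⟨i, i', h1, h2, h3, h4, h5⟩ := hs n
  exact ⟨i, i', h1, h2, h3, h i h4, h i' h5⟩

lemma der_meas (hE : ∀ i i', MeasurableSet (E i i')) {W : J → Set S}
    (hW : ∀ j, MeasurableSet (W j)) (j : J) : MeasurableSet (der cl E W j) :=
  MeasurableSet.iInter fun _ => MeasurableSet.iUnion fun i => MeasurableSet.iUnion fun i' =>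
    MeasurableSet.iUnion fun _ => ((hE i i').inter (hW i)).inter (hW i')

lemma adm_step (hE : ∀ i i', MeasurableSet (E i i'))
    (hrefl : ∀ j n, cl j j n) (hmono : ∀ i j n m, n ≤ m → cl i j m → cl i j n)
    (htr : ∀ i j k n, cl i j (n + 1) → cl j k (n + 1) → cl i k n)
    (hopen : ∀ j k n, cl j k n → ∃ N, ∀ i, cl i j N → cl i k n)
    (W : ℕ → J → Set S) (hW : ∀ n, Adm μ cl E θ (W n))
    (hanti : ∀ n j, W (n + 1) j ⊆ W n j) :
    Adm μ cl E θ (fun j => ⋂ n, der cl E (W n) j) := by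
  have hanti' : ∀ n m, n ≤ m → ∀ j, W m j ⊆ W n j := fun n m h j =>
    antitone_nat_of_succ_le (f := fun n => W n j) (fun n => hanti n j) h
  set W' : J → Set S := fun j => ⋂ n, der cl E (W n) j with hW'
  have hsub : ∀ n j, W' j ⊆ W n j := fun n j => (iInter_subset _ n).trans ((hW n).pre j)
  have hmeas : ∀ j, MeasurableSet (W' j) := fun j =>
    MeasurableSet.iInter fun n => der_meas hE (hW n).meas j
  refine ⟨hmeas, fun j => subset_iInter fun n => der_mono (hsub n) j, ?_⟩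
  intro j₀ n₀ η hη
  by_contra hcon
  push Not at hcon
  have key : ∀ k : ℕ, ∀ z, cl z j₀ n₀ → k * (η / 3) ≤ μ.real (W' z) := by
    intro k
    induction k with
    | zero => intro z _; simp
    | succ k ih =>
      intro z hz
      obtain ⟨N, hN⟩ := hopen z j₀ n₀ hz
      have h1 : ∀ n, ∃ u A, cl u z n ∧ MeasurableSet A ∧
          ((k + 1 : ℕ) : ℝ) * (η / 3) ≤ μ.real (A ∪ W' u) ∧
          ∃ i i', cl i z n ∧ cl i' z n ∧ A = E i i' ∩ W n i ∩ W n i' := by
        intro n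
        obtain ⟨i, i', a1, a2, a3, a4⟩ := (hW n).big z (n + N) (η / 3) (by positivity)
        have b1 := hN i (hmono _ _ _ _ (by omega) a1)
        have b2 := hN i' (hmono _ _ _ _ (by omega) a2)
        have c1 := hmono _ _ n _ (by omega) a1
        have c2 := hmono _ _ n _ (by omega) a2
        have a5 := hcon i i' b1 b2 a3
        set A := E i i' ∩ W n i ∩ W n i' with hA
        have hAm : MeasurableSet A := ((hE i i').inter ((hW n).meas i)).inter ((hW n).meas i')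
        have a6 : μ.real (E i i' \ (W' i ∩ W' i')) ≤
            μ.real (E i i' \ (W n i ∩ W n i')) + (μ.real (A \ W' i) + μ.real (A \ W' i')) := by
          refine le_trans (measureReal_mono ?_) ((measureReal_union_le _ _).trans
            (add_le_add le_rfl (measureReal_union_le _ _)))
          intro s hs
          simp only [hA, mem_union, Set.mem_sdiff, mem_inter_iff] at hs ⊢
          tauto
        have a7 : ∀ u, cl u j₀ n₀ → η / 3 ≤ μ.real (A \ W' u) →
            ((k + 1 : ℕ) : ℝ) * (η / 3) ≤ μ.real (A ∪ W' u) := by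
          intro u hu h
          have := measureReal_add_sdiff (μ := μ) (s := W' u) (t := A) (hmeas u)
          rw [union_comm, ← this]
          have := ih u hu
          push_cast; linarith
        by_cases h : η / 3 ≤ μ.real (A \ W' i)
        · exact ⟨i, A, c1, hAm, a7 i b1 h, i, i', c1, c2, rfl⟩
        · exact ⟨i', A, c2, hAm, a7 i' b2 (by linarith), i, i', c1, c2, rfl⟩
      choose u A hu hA hμ i i' hi hi' hAe using h1
      refine (le_measure_limsup (fun n => (hA n).union (hmeas _)) hμ).trans (measureReal_mono ?_)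
      intro s hs
      simp only [mem_iInter, mem_iUnion, exists_prop] at hs
      refine mem_iInter.2 fun m => mem_der.2 fun n => ?_
      obtain ⟨p, hp, hs⟩ := hs (m + n + 1)
      rcases hs with hs | hs
      · rw [hAe] at hs
        exact ⟨i p, i' p, hmono _ _ _ _ (by omega) (hi p), hmono _ _ _ _ (by omega) (hi' p),
          hs.1.1, hanti' m p (by omega) _ hs.1.2, hanti' m p (by omega) _ hs.2⟩
      · obtain ⟨a, a', h1, h2, h3⟩ := mem_der.1 (mem_iInter.1 hs m) (n + 1)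
        have h4 := hmono _ _ (n + 1) _ (by omega) (hu p)
        exact ⟨a, a', htr _ _ _ _ h1 h4, htr _ _ _ _ h2 h4, h3⟩
  obtain ⟨k, hk⟩ := exists_nat_gt (3 / η)
  have h1 := key k j₀ (hrefl _ _)
  have h2 : μ.real (W' j₀) ≤ 1 := measureReal_le_one
  rw [div_lt_iff₀ hη] at hk
  linarith

lemma exists_fixed [Nonempty J] (hE : ∀ i i', MeasurableSet (E i i'))
    (hrefl : ∀ j n, cl j j n) (hmono : ∀ i j n m, n ≤ m → cl i j m → cl i j n)
    (htr : ∀ i j k n, cl i j (n + 1) → cl j k (n + 1) → cl i k n)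
    (hopen : ∀ j k n, cl j k n → ∃ N, ∀ i, cl i j N → cl i k n) (hθ : 0 < θ)
    (hbig : ∀ j n, ∃ i i', cl i j n ∧ cl i' j n ∧ θ ≤ μ.real (E i i'))
    {Z : Set S} (hZ : μ Z = 0) :
    ∃ s ∉ Z, ∃ J' : Set J, J'.Nonempty ∧
      ∀ j ∈ J', ∀ n, ∃ i ∈ J', ∃ i' ∈ J', cl i j n ∧ cl i' j n ∧ s ∈ E i i' := by
  obtain ⟨en, hen⟩ := exists_surjective_nat J
  have h0 : Adm μ cl E θ (fun _ => univ) := by
    refine ⟨fun _ => MeasurableSet.univ, fun _ => subset_univ _, fun j n η hη => ?_⟩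
    obtain ⟨i, i', h1, h2, h3⟩ := hbig j n
    exact ⟨i, i', h1, h2, h3, by simpa using hη⟩
  have step : ∀ (n : ℕ) (W : {W : J → Set S // Adm μ cl E θ W}),
      ∃ W' : {W : J → Set S // Adm μ cl E θ W}, (∀ j, W'.1 j ⊆ W.1 j) ∧
        ∀ W'' : J → Set S, Adm μ cl E θ W'' → (∀ j, W'' j ⊆ W.1 j) →
          μ.real (W'.1 (en (Nat.unpair n).1)) ≤
            μ.real (W'' (en (Nat.unpair n).1)) + 1 / (n + 1) := by
    intro n W
    set T : Set ℝ := {r | ∃ W'' : J → Set S, Adm μ cl E θ W'' ∧ (∀ j, W'' j ⊆ W.1 j) ∧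
      r = μ.real (W'' (en (Nat.unpair n).1))} with hT
    have hne : T.Nonempty := ⟨_, W.1, W.2, fun _ => Subset.rfl, rfl⟩
    have hbd : BddBelow T := ⟨0, by rintro r ⟨W'', _, _, rfl⟩; exact measureReal_nonneg⟩
    obtain ⟨r, ⟨W', h1, h2, rfl⟩, hr⟩ := Real.lt_sInf_add_pos hne
      (show (0 : ℝ) < 1 / (n + 1) by positivity)
    refine ⟨⟨W', h1⟩, h2, fun W'' h3 h4 => ?_⟩
    have := csInf_le hbd (show _ ∈ T from ⟨W'', h3, h4, rfl⟩)
    exact hr.le.trans (by linarith)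
  choose F hF1 hF2 using step
  let W : ℕ → {W : J → Set S // Adm μ cl E θ W} := fun n => Nat.rec ⟨_, h0⟩ (fun n w => F n w) n
  have hWs : ∀ n, W (n + 1) = F n (W n) := fun n => rfl
  have a1 := adm_step hE hrefl hmono htr hopen (fun n => (W n).1) (fun n => (W n).2)
    (fun n j => by rw [hWs]; exact hF1 n (W n) j)
  set W' : J → Set S := fun j => ⋂ n, der cl E (W n).1 j with hW'
  have hsub : ∀ n j, W' j ⊆ (W n).1 j := fun n j => (iInter_subset _ n).trans ((W n).2.pre j)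
  have a2 : Adm μ cl E θ (der cl E W') := by
    have := adm_step hE hrefl hmono htr hopen (fun _ => W') (fun _ => a1) (fun _ _ => Subset.rfl)
    simpa only [iInter_const] using this
  have null : ∀ j, μ (W' j \ der cl E W' j) = 0 := by
    intro j
    have h1 : μ.real (W' j) ≤ μ.real (der cl E W' j) := by
      refine le_of_forall_pos_le_add fun ε hε => ?_
      obtain ⟨a, rfl⟩ := hen j
      obtain ⟨b, hb⟩ := exists_nat_one_div_lt hε
      have h2 := hF2 (Nat.pair a b) (W (Nat.pair a b)) _ a2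
        (fun j => (a1.pre j).trans (hsub _ j))
      rw [← hWs, Nat.unpair_pair] at h2
      have h3 : μ.real (W' (en a)) ≤ μ.real ((W (Nat.pair a b + 1)).1 (en a)) :=
        measureReal_mono (hsub (Nat.pair a b + 1) (en a))
      have h4 : (1 : ℝ) / ((Nat.pair a b : ℕ) + 1) ≤ 1 / (b + 1) := by
        have : (b : ℝ) ≤ (Nat.pair a b : ℕ) := by exact_mod_cast Nat.right_le_pair a b
        gcongr
      simp only at h2
      linarith
    rw [← measureReal_eq_zero_iff, measureReal_sdiff (a1.pre j) (a2.meas j)]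
    have := measureReal_mono (μ := μ) (a1.pre j)
    linarith
  obtain ⟨j₀⟩ := ‹Nonempty J›
  obtain ⟨i, i', _, _, h3, h4⟩ := a1.big j₀ 0 θ hθ
  have hpos : μ (W' i) ≠ 0 := by
    intro h
    have h5 : μ.real (E i i') ≤ μ.real (E i i' \ (W' i ∩ W' i')) + μ.real (W' i) := by
      refine le_trans (measureReal_mono ?_) (measureReal_union_le _ _)
      intro s hs
      simp only [mem_union, Set.mem_sdiff, mem_inter_iff]
      tauto
    rw [(measureReal_eq_zero_iff (μ := μ) (s := W' i)).2 h] at h5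
    linarith
  have hN : μ (Z ∪ ⋃ j, W' j \ der cl E W' j) = 0 :=
    measure_union_null hZ (measure_iUnion_null null)
  obtain ⟨s, hs1, hs2⟩ : ∃ s ∈ W' i, s ∉ Z ∪ ⋃ j, W' j \ der cl E W' j := by
    by_contra h
    push Not at h
    exact hpos (measure_mono_null h hN)
  simp only [mem_union, mem_iUnion, not_or, not_exists, Set.mem_sdiff, not_and, not_not] at hs2
  refine ⟨s, hs2.1, {j | s ∈ W' j}, ⟨i, hs1⟩, fun j hj n => ?_⟩
  obtain ⟨a, a', h1, h2, h3, h4, h5⟩ := mem_der.1 (hs2.2 j hj) n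
  exact ⟨a, h4, a', h5, h1, h2, h3⟩

end W

/-- `f` has small oscillation somewhere on every nonempty set -/
def Frag {X : Type} [MetricSpace X] (f : X → ℝ) : Prop :=
  ∀ D : Set X, D.Nonempty → ∀ m > 0, ∃ z ∈ D, ∃ r > 0,
    ∀ x ∈ D, ∀ y ∈ D, dist x z < r → dist y z < r → |f x - f y| < m

/-- points of the tree of witnesses -/
def treePt {X : Type} (z : X) (f : Bool → X → ℕ → X) : List (Bool × ℕ) → X
  | [] => z
  | p :: l => f p.1 (treePt z f l) p.2

/-- Fragmentability in measure. -/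
lemma frag_measure {S X : Type} [MeasurableSpace S] [MetricSpace X] (μ : Measure S)
    [IsProbabilityMeasure μ] (e : S → X → ℝ) (he : ∀ x, Measurable fun s => e s x)
    {Z : Set S} (hZ : μ Z = 0) (hF : ∀ s ∉ Z, Frag (e s)) (P : Set X) (hP : P.Nonempty)
    {m θ : ℝ} (hm : 0 < m) (hθ : 0 < θ) :
    ∃ z ∈ P, ∃ r > 0, ∀ x ∈ P, ∀ y ∈ P, dist x z < r → dist y z < r →
      μ.real {s | m ≤ |e s x - e s y|} < θ := by
  by_contra hcon
  push Not at hcon
  choose! fx hfx fy hfy h1 h2 h3 using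
    fun z (hz : z ∈ P) (n : ℕ) => hcon z hz ((1 / 2) ^ n) (by positivity)
  obtain ⟨z₀, hz₀⟩ := hP
  set pt := treePt z₀ (fun b => if b then fx else fy) with hpt
  have hptP : ∀ l, pt l ∈ P := by
    intro l
    induction l with
    | nil => exact hz₀
    | cons p l ih =>
      obtain ⟨b, n⟩ := p
      cases b
      · exact hfy _ ih n
      · exact hfx _ ih n
  obtain ⟨s, hs, J', hJ', H⟩ := exists_fixed (μ := μ) (J := List (Bool × ℕ))
    (cl := fun i j n => dist (pt i) (pt j) < (1 / 2) ^ n)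
    (E := fun i i' => {s | m ≤ |e s (pt i) - e s (pt i')|}) (θ := θ)
    (fun i i' => measurableSet_le measurable_const (((he _).sub (he _)).abs))
    (fun j n => by simp)
    (fun i j n k hnk h => h.trans_le (pow_le_pow_of_le_one (by norm_num) (by norm_num) hnk))
    (fun i j k n h h' => by
      have := dist_triangle (pt i) (pt j) (pt k)
      rw [pow_succ] at h h'
      linarith)
    (fun j k n h => by
      obtain ⟨N, hN⟩ := exists_pow_lt_of_lt_one (sub_pos.2 h) (show (1 / 2 : ℝ) < 1 by norm_num)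
      refine ⟨N, fun i hi => ?_⟩
      have := dist_triangle (pt i) (pt j) (pt k)
      linarith)
    hθ
    (fun j n => ⟨(true, n) :: j, (false, n) :: j, h1 _ (hptP j) n, h2 _ (hptP j) n,
      h3 _ (hptP j) n⟩) hZ
  obtain ⟨z, ⟨j, hj, rfl⟩, r, hr, H'⟩ := hF s hs (pt '' J') (hJ'.image _) m hm
  obtain ⟨n, hn⟩ := exists_pow_lt_of_lt_one hr (show (1 / 2 : ℝ) < 1 by norm_num)
  obtain ⟨i, hi, i', hi', a1, a2, a3⟩ := H j hj n
  exact absurd (H' _ ⟨i, hi, rfl⟩ _ ⟨i', hi', rfl⟩ (a1.trans hn) (a2.trans hn)) (not_lt.2 a3)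

/-- Baire's theorem: a pointwise limit of continuous functions on a complete space. -/
lemma frag_of_baire_one {X : Type} [MetricSpace X] [CompleteSpace X] (g : X → ℝ)
    (f : ℕ → C(X, ℝ)) (hf : ∀ x, Tendsto (fun n => f n x) atTop (𝓝 (g x))) : Frag g := by
  intro D hD m hm
  have : CompleteSpace (closure D) := isClosed_closure.completeSpace_coe
  have : Nonempty (closure D) := hD.closure.to_subtype
  obtain ⟨N, w, hw⟩ := nonempty_interior_of_iUnion_of_closed
    (f := fun N : ℕ => {x : closure D | ∀ j ≥ N, |f j x - f N x| ≤ m / 4})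
    (fun N => by
      simp only [ofPred_forall]
      exact isClosed_iInter fun j => isClosed_iInter fun _ =>
        isClosed_le (by fun_prop) continuous_const)
    (by
      refine eq_univ_of_forall fun x => mem_iUnion.2 ?_
      obtain ⟨N, hN⟩ := Metric.cauchySeq_iff'.1 (hf x).cauchySeq (m / 4) (by positivity)
      exact ⟨N, fun j hj => (hN j hj).le⟩)
  obtain ⟨ρ, hρ, hb⟩ := Metric.mem_nhds_iff.1 (mem_interior_iff_mem_nhds.1 hw)
  obtain ⟨δ, hδ, hc⟩ := Metric.continuousAt_iff.1 ((f N).continuous.continuousAt (x := w.1))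
    (m / 4) (by positivity)
  obtain ⟨z, hz, hzw⟩ := Metric.mem_closure_iff.1 w.2 (min ρ δ / 2) (by positivity)
  have key : ∀ x ∈ D, dist x z < min ρ δ / 2 → |g x - f N w| < m / 2 := by
    intro x hx hxz
    have h1 : dist x w < min ρ δ := by
      have := dist_triangle x z w
      rw [dist_comm] at hzw
      linarith
    have h2 := hb (show (⟨x, subset_closure hx⟩ : closure D) ∈ Metric.ball w ρ from
      h1.trans_le (min_le_left _ _))
    have h3 : |g x - f N x| ≤ m / 4 :=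
      le_of_tendsto (((hf x).sub_const _).abs) (eventually_atTop.2 ⟨N, h2⟩)
    have h4 := hc (h1.trans_le (min_le_right _ _))
    rw [Real.dist_eq] at h4
    have := abs_sub_le (g x) (f N x) (f N w)
    linarith
  refine ⟨z, hz, min ρ δ / 2, by positivity, fun x hx y hy hxz hyz => ?_⟩
  have h1 := key x hx hxz
  have h2 := key y hy hyz
  rw [abs_sub_comm] at h2
  have := abs_sub_le (g x) (f N w) (g y)
  linarith

end Pool.Agent.P.MP_5a7e2f_gt
end

-- part Pool.Agent.P.MP_5a7e2f_gt.Scheme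
section

namespace Pool.Agent.P.MP_5a7e2f_gt

open MeasureTheory Set Filter Topology

/-- signed distance to the two levels -/
def gap (α β : ℝ) (b : Bool) (t : ℝ) : ℝ := if b then t - β else α - t

lemma gap_lip (α β : ℝ) (b : Bool) (t t' : ℝ) : gap α β b t - |t' - t| ≤ gap α β b t' := by
  have := le_abs_self (t' - t)
  have := neg_abs_le (t' - t)
  cases b <;> simp only [gap, if_true, Bool.false_eq_true, if_false] <;> linarith

lemma gap_cont (α β : ℝ) (b : Bool) : Continuous (gap α β b) := by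
  cases b <;> unfold gap <;> simp only [if_true, Bool.false_eq_true, if_false] <;> fun_prop

section

variable {S X : Type} [TopologicalSpace S] [MeasurableSpace S] [BorelSpace S]
  [MetricSpace X] (μ : Measure S) (e : S → X → ℝ) (α β ε : ℝ)

/-- the set of functions oscillating on `Y` -/
def osc (Y : Set X) : Set S := {s | ∀ b, ∃ x ∈ Y, 0 < gap α β b (e s x)}

/-- the sigma-ideal generated by sets with small oscillation -/
def Tiny (Y : Set X) : Prop :=
  ∃ 𝒴 : Set (Set X), 𝒴.Countable ∧ Y ⊆ ⋃₀ 𝒴 ∧ ∀ Z ∈ 𝒴, μ.real (osc e α β Z) ≤ ε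

/-- closed and not tiny -/
def Big (F : Set X) : Prop := IsClosed F ∧ ¬ Tiny μ e α β ε F

/-- condensation points for convergence in measure -/
def core (F : Set X) : Set X :=
  {d ∈ F | ∀ m > 0, ∀ θ > 0, ∃ F' ⊆ F, Big μ e α β ε F' ∧
    ∀ x ∈ F', μ.real {s | m ≤ |e s x - e s d|} < θ}

variable {μ e α β ε}

omit [TopologicalSpace S] [MeasurableSpace S] [BorelSpace S] [MetricSpace X] in
lemma osc_mono {Y Y' : Set X} (h : Y ⊆ Y') : osc e α β Y ⊆ osc e α β Y' := fun _ hs b =>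
  let ⟨x, hx, h'⟩ := hs b; ⟨x, h hx, h'⟩

omit [MeasurableSpace S] [BorelSpace S] [MetricSpace X] in
lemma osc_open (he : Continuous e) (Y : Set X) : IsOpen (osc e α β Y) := by
  have : osc e α β Y = ⋂ b, ⋃ x ∈ Y, {s | 0 < gap α β b (e s x)} := by
    ext s; simp [osc]
  rw [this]
  exact isOpen_iInter_of_finite fun b => isOpen_biUnion fun x _ =>
    isOpen_lt continuous_const ((gap_cont α β b).comp ((continuous_apply x).comp he))

omit [TopologicalSpace S] [BorelSpace S] [MetricSpace X] in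
lemma Tiny.mono {Y Y' : Set X} (h : Tiny μ e α β ε Y') (h' : Y ⊆ Y') : Tiny μ e α β ε Y :=
  let ⟨𝒴, h1, h2, h3⟩ := h; ⟨𝒴, h1, h'.trans h2, h3⟩

omit [TopologicalSpace S] [BorelSpace S] [MetricSpace X] in
lemma Tiny.biUnion {ι : Type} {T : Set ι} (hT : T.Countable) {Y : ι → Set X}
    (h : ∀ i ∈ T, Tiny μ e α β ε (Y i)) : Tiny μ e α β ε (⋃ i ∈ T, Y i) := by
  choose! 𝒴 h1 h2 h3 using h
  refine ⟨⋃ i ∈ T, 𝒴 i, hT.biUnion h1, ?_, ?_⟩
  · refine iUnion₂_subset fun i hi => (h2 i hi).trans (sUnion_mono ?_)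
    exact subset_biUnion_of_mem (u := 𝒴) hi
  · intro Z hZ
    obtain ⟨i, hi, hZ⟩ := mem_iUnion₂.1 hZ
    exact h3 i hi Z hZ

omit [TopologicalSpace S] [BorelSpace S] [MetricSpace X] in
lemma Tiny.union {Y Y' : Set X} (h : Tiny μ e α β ε Y) (h' : Tiny μ e α β ε Y') :
    Tiny μ e α β ε (Y ∪ Y') := by
  obtain ⟨𝒴, h1, h2, h3⟩ := h
  obtain ⟨𝒴', h1', h2', h3'⟩ := h'
  refine ⟨𝒴 ∪ 𝒴', h1.union h1', ?_, fun Z hZ => hZ.elim (h3 Z) (h3' Z)⟩
  rw [sUnion_union]
  exact union_subset_union h2 h2'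

omit [TopologicalSpace S] [BorelSpace S] [MetricSpace X] in
lemma lt_of_not_tiny {Y : Set X} (h : ¬ Tiny μ e α β ε Y) : ε < μ.real (osc e α β Y) := by
  by_contra h'
  exact h ⟨{Y}, countable_singleton _, by simp, by simpa using h'⟩

variable [SecondCountableTopology X]

omit [TopologicalSpace S] [BorelSpace S] in
lemma exists_kernel {Y : Set X} (h : ¬ Tiny μ e α β ε Y) :
    ∃ Y' ⊆ Y, Y'.Nonempty ∧ ∀ z ∈ Y', ∀ r > 0, ¬ Tiny μ e α β ε (Y' ∩ Metric.ball z r) := by
  set T := {B ∈ TopologicalSpace.countableBasis X | Tiny μ e α β ε (Y ∩ B)} with hT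
  have hTc : T.Countable := (TopologicalSpace.countable_countableBasis X).mono (sep_subset _ _)
  have hU : Tiny μ e α β ε (⋃ B ∈ T, Y ∩ B) := Tiny.biUnion hTc fun B hB => hB.2
  refine ⟨Y \ ⋃ B ∈ T, Y ∩ B, sdiff_subset, ?_, ?_⟩
  · by_contra hne
    rw [not_nonempty_iff_eq_empty, sdiff_eq_empty] at hne
    exact h (hU.mono hne)
  · intro z hz r hr hs
    obtain ⟨B, hB, hzB, hBr⟩ := (TopologicalSpace.isBasis_countableBasis X).exists_subset_of_mem_open
      (Metric.mem_ball_self hr) Metric.isOpen_ball (a := z)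
    refine hz.2 (mem_iUnion₂.2 ⟨B, ⟨hB, (hs.union hU).mono fun x hx => ?_⟩, hz.1, hzB⟩)
    by_cases hx' : x ∈ ⋃ B ∈ T, Y ∩ B
    · exact Or.inr hx'
    · exact Or.inl ⟨⟨hx.1, hx'⟩, hBr hx.2⟩

omit [TopologicalSpace S] [BorelSpace S] in
lemma Big.shrink {F : Set X} (h : Big μ e α β ε F) {δ : ℝ} (hδ : 0 < δ) :
    ∃ F' ⊆ F, Big μ e α β ε F' ∧ ∃ z, F' ⊆ Metric.closedBall z δ := by
  obtain ⟨Y, hY, ⟨z, hz⟩, H⟩ := exists_kernel h.2
  refine ⟨F ∩ Metric.closedBall z δ, inter_subset_left,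
    ⟨h.1.inter Metric.isClosed_closedBall, fun h' => H z hz δ hδ (h'.mono ?_)⟩, z,
    inter_subset_right⟩
  exact inter_subset_inter hY Metric.ball_subset_closedBall

omit [TopologicalSpace S] [BorelSpace S] [SecondCountableTopology X] in
lemma core_mono {F F' : Set X} (h : F ⊆ F') : core μ e α β ε F ⊆ core μ e α β ε F' := by
  intro d hd
  refine ⟨h hd.1, fun m hm θ hθ => ?_⟩
  obtain ⟨F'', h1, h2⟩ := hd.2 m hm θ hθ
  exact ⟨F'', h1.trans h, h2⟩

variable [IsProbabilityMeasure μ]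

lemma Big.not_tiny_core (he : Continuous e) {Z : Set S} (hZ : μ Z = 0) (hF : ∀ s ∉ Z, Frag (e s))
    {F : Set X} (h : Big μ e α β ε F) : ¬ Tiny μ e α β ε (core μ e α β ε F) := by
  intro hc
  set B : ℕ → Set X := fun n => {d ∈ F | ¬ ∃ F' ⊆ F, Big μ e α β ε F' ∧
    ∀ x ∈ F', μ.real {s | 1 / ((n : ℝ) + 1) ≤ |e s x - e s d|} < 1 / ((n : ℝ) + 1)} with hB
  have hBt : ∀ n, Tiny μ e α β ε (B n) := by
    intro n
    by_contra hn
    obtain ⟨Y, hY, hne, H⟩ := exists_kernel hn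
    obtain ⟨z, hz, r, hr, H'⟩ := frag_measure μ e
      (fun x => ((continuous_apply x).comp he).measurable) hZ hF (closure Y) hne.closure
      (m := 1 / ((n : ℝ) + 1)) (θ := 1 / ((n : ℝ) + 1)) (by positivity) (by positivity)
    obtain ⟨d, hd, hzd⟩ := Metric.mem_closure_iff.1 hz (r / 2) (by positivity)
    rw [dist_comm] at hzd
    refine (hY hd).2 ⟨closure Y ∩ Metric.closedBall d (r / 2), ?_,
      ⟨isClosed_closure.inter Metric.isClosed_closedBall,
        fun h' => H d hd (r / 2) (by positivity) (h'.mono ?_)⟩, fun x hx => ?_⟩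
    · exact inter_subset_left.trans (closure_minimal (fun y hy => (hY hy).1) h.1)
    · exact inter_subset_inter subset_closure Metric.ball_subset_closedBall
    · refine H' x hx.1 d (subset_closure hd) ?_ (by linarith)
      have := dist_triangle x d z
      have := Metric.mem_closedBall.1 hx.2
      linarith
  refine h.2 ((hc.union (Tiny.biUnion countable_univ fun n _ => hBt n)).mono fun d hd => ?_)
  by_cases hd' : d ∈ ⋃ n ∈ (univ : Set ℕ), B n
  · exact Or.inr hd'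
  · left
    refine ⟨hd, fun m hm θ hθ => ?_⟩
    obtain ⟨n, hn⟩ := exists_nat_one_div_lt (lt_min hm hθ)
    have h0 : d ∉ B n := fun h => hd' (mem_iUnion₂.2 ⟨n, mem_univ _, h⟩)
    obtain ⟨F', h1, h2, h3⟩ := not_not.1 fun h => h0 ⟨hd, h⟩
    refine ⟨F', h1, h2, fun x hx => ?_⟩
    refine lt_of_le_of_lt (measureReal_mono fun s hs => ?_)
      ((h3 x hx).trans (hn.trans_le (min_le_right _ _)))
    exact (hn.le.trans (min_le_left _ _)).trans hs

variable (μ e α β ε) in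
/-- families whose oscillation sets keep a common part under shrinking -/
def Robust {ι : Type} (I : Finset ι) (F : ι → Set X) : Prop :=
  (∀ i ∈ I, Big μ e α β ε (F i)) ∧ ∃ η > 0, ∀ F' : ι → Set X,
    (∀ i ∈ I, F' i ⊆ F i ∧ Big μ e α β ε (F' i)) →
    η ≤ μ.real (⋂ i ∈ I, osc e α β (core μ e α β ε (F' i)))

omit [TopologicalSpace S] [BorelSpace S] [SecondCountableTopology X] [IsProbabilityMeasure μ] in
lemma Robust.sub {ι : Type} {I : Finset ι} {F F' : ι → Set X} (h : Robust μ e α β ε I F)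
    (h' : ∀ i ∈ I, F' i ⊆ F i ∧ Big μ e α β ε (F' i)) : Robust μ e α β ε I F' := by
  obtain ⟨_, η, hη, H⟩ := h
  exact ⟨fun i hi => (h' i hi).2, η, hη, fun F'' h'' =>
    H F'' fun i hi => ⟨(h'' i hi).1.trans (h' i hi).1, (h'' i hi).2⟩⟩

omit [SecondCountableTopology X] in
lemma Big.stab (he : Continuous e) {F : Set X} (h : Big μ e α β ε F) {η : ℝ} (hη : 0 < η) :
    ∃ F' ⊆ F, Big μ e α β ε F' ∧ ∀ F'' ⊆ F', Big μ e α β ε F'' →
      μ.real (osc e α β (core μ e α β ε F') \ osc e α β (core μ e α β ε F'')) ≤ η := by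
  set T : Set ℝ := {r | ∃ F' ⊆ F, Big μ e α β ε F' ∧
    r = μ.real (osc e α β (core μ e α β ε F'))} with hT
  have hne : T.Nonempty := ⟨_, F, Subset.rfl, h, rfl⟩
  have hbd : BddBelow T := ⟨0, by rintro r ⟨F', _, _, rfl⟩; exact measureReal_nonneg⟩
  obtain ⟨r, ⟨F', h1, h2, rfl⟩, hr⟩ := Real.lt_sInf_add_pos hne hη
  refine ⟨F', h1, h2, fun F'' h3 h4 => ?_⟩
  have := csInf_le hbd (show _ ∈ T from ⟨F'', h3.trans h1, h4, rfl⟩)
  rw [measureReal_sdiff (osc_mono (core_mono h3)) (osc_open he _).measurableSet]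
  linarith

omit [SecondCountableTopology X] in
lemma Robust.double (he : Continuous e) {ι κ : Type} {I : Finset ι} {F : ι → Set X}
    (h : Robust μ e α β ε I F) (I' : Finset κ) (π : κ → ι) (hπ : ∀ j ∈ I', π j ∈ I) :
    ∃ F' : ι → Set X, (∀ i ∈ I, F' i ⊆ F i) ∧ Robust μ e α β ε I' (fun j => F' (π j)) := by
  obtain ⟨hb, η, hη, H⟩ := h
  choose! F' h1 h2 h3 using fun i (hi : i ∈ I) =>
    (hb i hi).stab he (η := η / 2 / (I'.card + 1)) (by positivity)
  refine ⟨F', h1, fun j hj => h2 _ (hπ j hj), η / 2, by positivity, fun F'' h'' => ?_⟩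
  have a1 := H F' fun i hi => ⟨h1 i hi, h2 i hi⟩
  have a2 : (⋂ i ∈ I, osc e α β (core μ e α β ε (F' i))) ⊆
      (⋂ j ∈ I', osc e α β (core μ e α β ε (F'' j))) ∪ ⋃ j ∈ I',
        (osc e α β (core μ e α β ε (F' (π j))) \ osc e α β (core μ e α β ε (F'' j))) := by
    intro s hs
    by_cases h : s ∈ ⋂ j ∈ I', osc e α β (core μ e α β ε (F'' j))
    · exact Or.inl h
    · right
      simp only [mem_iInter, not_forall] at h hs
      obtain ⟨j, hj, h⟩ := h
      exact mem_iUnion₂.2 ⟨j, hj, hs _ (hπ j hj), h⟩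
  have a3 := (measureReal_mono (μ := μ) a2).trans ((measureReal_union_le _ _).trans
    (add_le_add le_rfl (measureReal_biUnion_finset_le _ _)))
  have a4 : ∑ j ∈ I', μ.real (osc e α β (core μ e α β ε (F' (π j))) \
      osc e α β (core μ e α β ε (F'' j))) ≤ η / 2 := by
    refine (Finset.sum_le_card_nsmul _ _ _ fun j hj =>
      h3 _ (hπ j hj) _ (h'' j hj).1 (h'' j hj).2).trans ?_
    rw [nsmul_eq_mul, mul_div_assoc', div_le_iff₀ (by positivity)]
    nlinarith
  linarith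

lemma Robust.pattern [Nonempty X] (he : Continuous e) (hsupp : μ μ.supportᶜ = 0) {Z : Set S} (hZ : μ Z = 0)
    {ι : Type} {I : Finset ι} {F : ι → Set X} (h : Robust μ e α β ε I F) (σ : ι → Bool)
    {δ : ℝ} (hδ : 0 < δ) :
    ∃ F' : ι → Set X, (∀ i ∈ I, F' i ⊆ F i ∧ Big μ e α β ε (F' i) ∧
        ∃ z, F' i ⊆ Metric.closedBall z δ) ∧
      ∀ x : ι → X, (∀ i ∈ I, x i ∈ F' i) → ∃ s ∉ Z, ∀ i ∈ I, 0 ≤ gap α β (σ i) (e s (x i)) := by
  obtain ⟨hb, η, hη, H⟩ := h
  have a1 := H F fun i hi => ⟨Subset.rfl, hb i hi⟩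
  obtain ⟨s₀, hs₀, hs₀'⟩ : ∃ s ∈ ⋂ i ∈ I, osc e α β (core μ e α β ε (F i)), s ∈ μ.support := by
    by_contra hcon
    push Not at hcon
    rw [(measureReal_eq_zero_iff (μ := μ)).2 (measure_mono_null hcon hsupp)] at a1
    linarith
  choose! d hd hd' using fun i (hi : i ∈ I) => mem_iInter₂.1 hs₀ i hi (σ i)
  obtain ⟨m, hm, hm'⟩ : ∃ m > 0, ∀ i ∈ I, m < gap α β (σ i) (e s₀ (d i)) := by
    have : ∀ᶠ m in 𝓝[>] (0 : ℝ), ∀ i ∈ I, m < gap α β (σ i) (e s₀ (d i)) :=
      (eventually_all_finset I).2 fun i hi => nhdsWithin_le_nhds (eventually_lt_nhds (hd' i hi))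
    obtain ⟨m, h1, h2⟩ := (this.and self_mem_nhdsWithin).exists
    exact ⟨m, h2, h1⟩
  set O : Set S := ⋂ i ∈ I, {s | m < gap α β (σ i) (e s (d i))} with hO
  have hOo : IsOpen O := isOpen_biInter_finset fun i _ =>
    isOpen_lt continuous_const ((gap_cont α β _).comp ((continuous_apply _).comp he))
  have hOp : 0 < μ.real O :=
    ENNReal.toReal_pos ((Measure.mem_support_iff_forall s₀).1 hs₀' O
      (hOo.mem_nhds (mem_iInter₂.2 hm'))).ne' (measure_ne_top _ _)
  choose! F₁ h1 h2 h3 using fun i (hi : i ∈ I) =>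
    (hd i hi).2 m hm (μ.real O / (I.card + 1)) (by positivity)
  choose! F₂ h4 h5 h6 using fun i (hi : i ∈ I) => (h2 i hi).shrink hδ
  refine ⟨F₂, fun i hi => ⟨(h4 i hi).trans (h1 i hi), h5 i hi, h6 i hi⟩, fun x hx => ?_⟩
  by_contra hcon
  push Not at hcon
  have a2 : O ⊆ Z ∪ ⋃ i ∈ I, {s | m ≤ |e s (x i) - e s (d i)|} := by
    intro s hs
    by_cases hsZ : s ∈ Z
    · exact Or.inl hsZ
    · obtain ⟨i, hi, h⟩ := hcon s hsZ
      refine Or.inr (mem_iUnion₂.2 ⟨i, hi, ?_⟩)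
      have h7 : m < gap α β (σ i) (e s (d i)) := mem_iInter₂.1 hs i hi
      have := gap_lip α β (σ i) (e s (d i)) (e s (x i))
      show m ≤ _
      linarith
  have a3 := (measureReal_mono (μ := μ) a2).trans ((measureReal_union_le _ _).trans
    (add_le_add le_rfl (measureReal_biUnion_finset_le _ _)))
  rw [(measureReal_eq_zero_iff (μ := μ)).2 hZ] at a3
  have a4 : ∑ i ∈ I, μ.real {s | m ≤ |e s (x i) - e s (d i)|} ≤
      I.card • (μ.real O / (I.card + 1)) :=
    Finset.sum_le_card_nsmul _ _ _ fun i hi => (h3 i hi _ (h4 i hi (hx i hi))).le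
  rw [nsmul_eq_mul, mul_div_assoc', le_div_iff₀ (by positivity)] at a4
  have : (0 : ℝ) ≤ I.card := by positivity
  nlinarith

end

/-- sequences that are constant from position `k` on -/
def lev (k : ℕ) : Set (ℕ → Bool) := {z | ∀ i ≥ k, z i = z k}

/-- truncation -/
def trunc (k : ℕ) (z : ℕ → Bool) : ℕ → Bool := fun i => z (min i k)

lemma trunc_mem (k : ℕ) (z : ℕ → Bool) : trunc k z ∈ lev k := fun i hi => by
  simp [trunc, min_eq_right hi]

lemma trunc_eq {k : ℕ} {z : ℕ → Bool} (h : z ∈ lev k) : trunc k z = z := by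
  ext i
  rcases le_total i k with h' | h'
  · simp [trunc, min_eq_left h']
  · simp [trunc, min_eq_right h', h i h']

lemma lev_mono {k n : ℕ} (h : k ≤ n) : lev k ⊆ lev n := fun z hz i hi => by
  rw [hz i (h.trans hi), hz n h]

lemma lev_finite (k : ℕ) : (lev k).Finite := by
  refine (finite_range fun f : Fin (k + 1) → Bool =>
    fun i => f ⟨min i k, by omega⟩).subset fun z hz => ⟨fun i => z i, ?_⟩
  exact trunc_eq hz

theorem tiny_univ {S X : Type} [TopologicalSpace S] [CompactSpace S] [MeasurableSpace S]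
    [BorelSpace S] [MetricSpace X] [CompleteSpace X] [SecondCountableTopology X]
    (μ : Measure S) [IsProbabilityMeasure μ] (hsupp : μ μ.supportᶜ = 0)
    (e : S → X → ℝ) (he : Continuous e) (hF : ∀ s ∈ μ.support, Frag (e s))
    {α β ε : ℝ} (hαβ : α < β) (hε : 0 < ε) : Tiny μ e α β ε univ := by
  by_contra hcon
  have hF' : ∀ s ∉ μ.supportᶜ, Frag (e s) := fun s hs => hF s (not_not.1 hs)
  have : Nonempty X := by
    obtain ⟨_, _, ⟨y, _⟩, _⟩ := exists_kernel hcon
    exact ⟨y⟩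
  set I : ℕ → Finset (ℕ → Bool) := fun k => (lev_finite k).toFinset with hI
  have hIm : ∀ k z, z ∈ I k ↔ z ∈ lev k := fun k z => by simp [hI]
  have r0 : Robust μ e α β ε ({()} : Finset Unit) (fun _ => univ) := by
    refine ⟨fun _ _ => ⟨isClosed_univ, hcon⟩, ε, hε, fun F' h => ?_⟩
    rw [Finset.set_biInter_singleton]
    exact (lt_of_not_tiny ((h () (by simp)).2.not_tiny_core he hsupp hF')).le
  obtain ⟨F₀, _, r1⟩ := r0.double he (I 0) (fun _ => ()) (by simp)
  have step : ∀ (k : ℕ) (F : (ℕ → Bool) → Set X), Robust μ e α β ε (I k) F →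
      ∃ F' : (ℕ → Bool) → Set X, Robust μ e α β ε (I (k + 1)) F' ∧
        (∀ z ∈ lev (k + 1), F' z ⊆ F (trunc k z) ∧
          ∃ c, F' z ⊆ Metric.closedBall c ((1 / 2) ^ k)) ∧
        ∀ x : (ℕ → Bool) → X, (∀ z ∈ lev (k + 1), x z ∈ F' z) →
          ∃ s ∈ μ.support, ∀ z ∈ lev (k + 1), 0 ≤ gap α β (z (k + 1)) (e s (x z)) := by
    intro k F hr
    obtain ⟨F₁, h1, h2⟩ := hr.double he (I (k + 1)) (trunc k)
      (fun z _ => (hIm _ _).2 (trunc_mem k z))
    obtain ⟨F₂, h3, h4⟩ := h2.pattern he hsupp hsupp (fun z => z (k + 1))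
      (δ := (1 / 2) ^ k) (by positivity)
    refine ⟨F₂, h2.sub fun z hz => ⟨(h3 z hz).1, (h3 z hz).2.1⟩, fun z hz => ?_, fun x hx => ?_⟩
    · have := h3 z ((hIm _ _).2 hz)
      exact ⟨this.1.trans (h1 _ ((hIm _ _).2 (trunc_mem k z))), this.2.2⟩
    · obtain ⟨s, hs, hs'⟩ := h4 x fun z hz => hx z ((hIm _ _).1 hz)
      exact ⟨s, not_not.1 hs, fun z hz => hs' z ((hIm _ _).2 hz)⟩
  choose G hG1 hG2 hG3 using step
  let F : ∀ k : ℕ, {F : (ℕ → Bool) → Set X // Robust μ e α β ε (I k) F} := fun k =>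
    Nat.rec ⟨_, r1⟩ (fun k F => ⟨G k F.1 F.2, hG1 k F.1 F.2⟩) k
  have p1 : ∀ k, ∀ z ∈ lev k, Big μ e α β ε ((F k).1 z) := fun k z hz =>
    (F k).2.1 z ((hIm _ _).2 hz)
  have p2 : ∀ k, ∀ z ∈ lev (k + 1), (F (k + 1)).1 z ⊆ (F k).1 (trunc k z) ∧
      ∃ c, (F (k + 1)).1 z ⊆ Metric.closedBall c ((1 / 2) ^ k) := fun k => hG2 k (F k).1 (F k).2
  have p3 : ∀ k, ∀ x : (ℕ → Bool) → X, (∀ z ∈ lev (k + 1), x z ∈ (F (k + 1)).1 z) →
      ∃ s ∈ μ.support, ∀ z ∈ lev (k + 1), 0 ≤ gap α β (z (k + 1)) (e s (x z)) :=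
    fun k => hG3 k (F k).1 (F k).2
  have p4 : ∀ k, ∀ z ∈ lev k, ∀ n ≥ k, ∀ n' ≥ n, (F n').1 z ⊆ (F n).1 z := by
    intro k z hz n hn n' hn'
    induction n', hn' using Nat.le_induction with
    | base => exact Subset.rfl
    | succ n' hn' ih =>
      have := (p2 n' z (lev_mono (by omega) hz)).1
      rw [trunc_eq (lev_mono (by omega) hz)] at this
      exact this.trans ih
  have p5 : ∀ z : ℕ → Bool, (∃ k, z ∈ lev k) → ∃ y, ∀ n, z ∈ lev n → y ∈ (F n).1 z := by
    rintro z ⟨k, hz⟩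
    have hb : ∀ n, ∃ c, (F (k + n + 1)).1 z ⊆ Metric.closedBall c ((1 / 2) ^ (k + n)) :=
      fun n => (p2 (k + n) z (lev_mono (by omega) hz)).2
    obtain ⟨y, hy⟩ := Metric.nonempty_iInter_of_nonempty_biInter
      (s := fun n => (F (k + n + 1)).1 z) (fun n => (p1 _ z (lev_mono (by omega) hz)).1)
      (fun n => by
        obtain ⟨c, hc⟩ := hb n
        exact Metric.isBounded_closedBall.subset hc)
      (fun N => by
        obtain ⟨Y, hY, ⟨y, hy⟩, _⟩ := exists_kernel (p1 (k + N + 1) z (lev_mono (by omega) hz)).2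
        exact ⟨y, mem_iInter₂.2 fun n hn => p4 k z hz _ (by omega) _ (by omega) (hY hy)⟩)
      (by
        refine squeeze_zero (fun _ => Metric.diam_nonneg) (g := fun n => 2 * (1 / 2 : ℝ) ^ n)
          (fun n => ?_) ?_
        · obtain ⟨c, hc⟩ := hb n
          refine (Metric.diam_le_of_subset_closedBall (by positivity) hc).trans ?_
          have : (1 / 2 : ℝ) ^ (k + n) ≤ (1 / 2) ^ n :=
            pow_le_pow_of_le_one (by norm_num) (by norm_num) (by omega)
          linarith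
        · simpa using (tendsto_pow_atTop_nhds_zero_of_lt_one (r := (1 / 2 : ℝ)) (by norm_num)
            (by norm_num)).const_mul 2)
    exact ⟨y, fun n hn => p4 n z hn n le_rfl (k + n + 1) (by omega) (mem_iInter.1 hy n)⟩
  choose! y hy using p5
  obtain ⟨s, hs⟩ := IsCompact.nonempty_iInter_of_sequence_nonempty_isCompact_isClosed
    (fun k => μ.support ∩ ⋂ z ∈ lev (k + 1), {s | 0 ≤ gap α β (z (k + 1)) (e s (y z))})
    (fun k s hs => ⟨hs.1, mem_iInter₂.2 fun z hz => by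
      have := mem_iInter₂.1 hs.2 z (lev_mono (by omega) hz)
      rwa [hz (k + 1 + 1) (by omega)] at this⟩)
    (fun k => by
      obtain ⟨s, h1, h2⟩ := p3 k y fun z hz => hy z ⟨_, hz⟩ _ hz
      exact ⟨s, h1, mem_iInter₂.2 h2⟩)
    ((Measure.isClosed_support.inter (isClosed_biInter fun z _ => isClosed_le continuous_const
      ((gap_cont α β _).comp ((continuous_apply _).comp he)))).isCompact)
    (fun k => Measure.isClosed_support.inter (isClosed_biInter fun z _ =>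
      isClosed_le continuous_const ((gap_cont α β _).comp ((continuous_apply _).comp he))))
  obtain ⟨_, ⟨z, ⟨k, hz⟩, rfl⟩, r, hr, H⟩ := hF s (mem_iInter.1 hs 0).1
    (y '' {z | ∃ k, z ∈ lev k}) ⟨_, fun _ => true, ⟨0, fun _ _ => rfl⟩, rfl⟩ (β - α)
    (sub_pos.2 hαβ)
  obtain ⟨n, hn⟩ := exists_pow_lt_of_lt_one (half_pos hr) (show (1 / 2 : ℝ) < 1 by norm_num)
  set N := k + n with hN
  have key : ∀ b : Bool, ∃ x ∈ y '' {z | ∃ k, z ∈ lev k}, dist x (y z) < r ∧
      0 ≤ gap α β b (e s x) := by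
    intro b
    set w : ℕ → Bool := fun i => if i ≤ N + 1 then z i else b with hw
    have hwl : w ∈ lev (N + 2) := fun i hi => by
      simp only [hw]; rw [if_neg (by omega), if_neg (by omega)]
    have hwt : trunc (N + 1) w = z := by
      rw [← trunc_eq (lev_mono (show k ≤ N + 1 by omega) hz)]
      ext i
      simp [trunc, hw]
    refine ⟨y w, ⟨w, ⟨_, hwl⟩, rfl⟩, ?_, ?_⟩
    · have h1 := (p2 (N + 1) w hwl).1 (hy w ⟨_, hwl⟩ _ hwl)
      rw [hwt] at h1
      have h2 := hy z ⟨_, hz⟩ (N + 1) (lev_mono (by omega) hz)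
      obtain ⟨c, hc⟩ := (p2 N z (lev_mono (by omega) hz)).2
      have h3 := Metric.mem_closedBall.1 (hc h1)
      have h4 := Metric.mem_closedBall.1 (hc h2)
      have h5 := dist_triangle_right (y w) (y z) c
      have : (1 / 2 : ℝ) ^ N ≤ (1 / 2) ^ n :=
        pow_le_pow_of_le_one (by norm_num) (by norm_num) (by omega)
      linarith
    · have := mem_iInter₂.1 (mem_iInter.1 hs (N + 1)).2 w hwl
      have e1 : w (N + 1 + 1) = b := by simp only [hw]; rw [if_neg (by omega)]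
      rwa [e1] at this
  obtain ⟨x, hx, h1, h2⟩ := key true
  obtain ⟨x', hx', h1', h2'⟩ := key false
  have := (abs_lt.1 (H x hx x' hx' h1 h1')).2
  simp only [gap, if_true, Bool.false_eq_true, if_false] at h2 h2'
  linarith

end Pool.Agent.P.MP_5a7e2f_gt
end

-- part Pool.Agent.P.MP_5a7e2f_gt.Main
section

namespace Pool.Agent.P.MP_5a7e2f_gt

open MeasureTheory Set Filter Topology

lemma countable_latticeClosure {S : Type} {𝓕 : Set (Set S)} (h : 𝓕.Countable) :
    (latticeClosure 𝓕).Countable := by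
  have h1 : (infClosure 𝓕).Countable := by
    refine ((countable_ofPred_finite_subset h).image fun t => ⋂₀ t).mono ?_
    rintro _ ⟨t, ht, hts, rfl⟩
    refine ⟨t, ⟨t.finite_toSet, hts⟩, ?_⟩
    ext x
    simp [Finset.inf'_eq_inf, Finset.inf_set_eq_iInter]
  rw [← supClosure_infClosure]
  refine ((countable_ofPred_finite_subset h1).image fun t => ⋃₀ t).mono ?_
  rintro _ ⟨t, ht, hts, rfl⟩
  refine ⟨t, ⟨t.finite_toSet, hts⟩, ?_⟩
  ext x
  simp [Finset.sup'_eq_sup, Finset.sup_set_eq_biUnion]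

section

variable {S : Type} [TopologicalSpace S] [MeasurableSpace S] (μ : Measure S)
  [IsProbabilityMeasure μ] (𝓖 : Set (Set S))

/-- inner approximation by members of a family -/
def ApprR (U : Set S) : Prop := ∀ ε > 0, ∃ F ∈ 𝓖, F ⊆ U ∧ μ.real (U \ F) < ε

variable {μ 𝓖}

omit [TopologicalSpace S] in
lemma ApprR.inter (h𝓖 : IsSublattice 𝓖) {U V : Set S} (hU : ApprR μ 𝓖 U) (hV : ApprR μ 𝓖 V) :
    ApprR μ 𝓖 (U ∩ V) := by
  intro ε hε
  obtain ⟨F, h1, h2, h3⟩ := hU (ε / 2) (by positivity)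
  obtain ⟨G, h4, h5, h6⟩ := hV (ε / 2) (by positivity)
  refine ⟨F ∩ G, h𝓖.infClosed h1 h4, inter_subset_inter h2 h5, ?_⟩
  have : (U ∩ V) \ (F ∩ G) ⊆ (U \ F) ∪ (V \ G) := by
    intro s hs
    by_cases h : s ∈ F
    · exact Or.inr ⟨hs.1.2, fun h' => hs.2 ⟨h, h'⟩⟩
    · exact Or.inl ⟨hs.1.1, h⟩
  have := (measureReal_mono (μ := μ) this).trans (measureReal_union_le _ _)
  linarith

omit [TopologicalSpace S] in
lemma ApprR.union (h𝓖 : IsSublattice 𝓖) {U V : Set S} (hU : ApprR μ 𝓖 U) (hV : ApprR μ 𝓖 V) :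
    ApprR μ 𝓖 (U ∪ V) := by
  intro ε hε
  obtain ⟨F, h1, h2, h3⟩ := hU (ε / 2) (by positivity)
  obtain ⟨G, h4, h5, h6⟩ := hV (ε / 2) (by positivity)
  refine ⟨F ∪ G, h𝓖.supClosed h1 h4, union_subset_union h2 h5, ?_⟩
  have : (U ∪ V) \ (F ∪ G) ⊆ (U \ F) ∪ (V \ G) := by
    rintro s ⟨hs | hs, hs'⟩
    · exact Or.inl ⟨hs, fun h => hs' (Or.inl h)⟩
    · exact Or.inr ⟨hs, fun h => hs' (Or.inr h)⟩
  have := (measureReal_mono (μ := μ) this).trans (measureReal_union_le _ _)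
  linarith

omit [TopologicalSpace S] [IsProbabilityMeasure μ] in
lemma ApprR.of_mem {U : Set S} (h : U ∈ 𝓖) : ApprR μ 𝓖 U := fun ε hε =>
  ⟨U, h, Subset.rfl, by simpa using hε⟩

end

/-- approximation of one subbasic set -/
lemma appr_sub {S : Type} [TopologicalSpace S] [MeasurableSpace S] [BorelSpace S]
    (μ : Measure S) [IsProbabilityMeasure μ] {g : S → ℝ} (hg : Continuous g) (γ : ℝ) {ε : ℝ}
    (hε : 0 < ε) : ∃ α β : ℚ, γ < α ∧ α < β ∧ μ.real ({s | γ < g s} \ {s | β < g s}) < ε := by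
  have h1 : Tendsto (fun n : ℕ => μ ({s | γ < g s} \ {s | γ + 1 / ((n : ℝ) + 1) < g s})) atTop
      (𝓝 (μ (⋂ n : ℕ, {s | γ < g s} \ {s | γ + 1 / ((n : ℝ) + 1) < g s}))) := by
    refine tendsto_measure_iInter_atTop (fun n => ?_) (fun n m hnm s hs => ⟨hs.1, fun h => hs.2 ?_⟩)
      ⟨0, measure_ne_top _ _⟩
    · exact ((isOpen_lt continuous_const hg).measurableSet.diff
        (isOpen_lt continuous_const hg).measurableSet).nullMeasurableSet
    · have := Nat.one_div_le_one_div (α := ℝ) hnm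
      have h' : γ + 1 / ((n : ℝ) + 1) < g s := h
      show γ + 1 / ((m : ℝ) + 1) < g s
      linarith
  have h2 : (⋂ n : ℕ, {s | γ < g s} \ {s | γ + 1 / ((n : ℝ) + 1) < g s}) = ∅ := by
    refine eq_empty_of_forall_notMem fun s hs => ?_
    obtain ⟨n, hn⟩ := exists_nat_one_div_lt (sub_pos.2 (show γ < g s from (mem_iInter.1 hs 0).1))
    exact (mem_iInter.1 hs n).2 (show γ + 1 / ((n : ℝ) + 1) < g s by linarith)
  rw [h2, measure_empty] at h1
  obtain ⟨n, hn⟩ := (h1.eventually (gt_mem_nhds (ENNReal.ofReal_pos.2 hε))).exists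
  obtain ⟨β, h3, h4⟩ := exists_rat_btwn
    (show γ < γ + 1 / ((n : ℝ) + 1) from lt_add_of_pos_right _ (by positivity))
  obtain ⟨α, h5, h6⟩ := exists_rat_btwn h3
  refine ⟨α, β, h5, by exact_mod_cast h6, lt_of_le_of_lt (measureReal_mono
    (s₂ := {s | γ < g s} \ {s | γ + 1 / ((n : ℝ) + 1) < g s}) fun s hs =>
      ⟨hs.1, fun h => hs.2 (h4.trans h)⟩) ?_⟩
  exact ENNReal.toReal_lt_of_lt_ofReal hn

theorem exists_family {S X : Type} [TopologicalSpace S] [CompactSpace S] [T2Space S]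
    [MeasurableSpace S] [BorelSpace S] [MetricSpace X] [CompleteSpace X]
    [SecondCountableTopology X] (μ : Measure S) [IsProbabilityMeasure μ] [μ.Regular]
    (e : S → X → ℝ) (he : Continuous e) (hi : Function.Injective e)
    (hF : ∀ s ∈ μ.support, Frag (e s)) :
    ∃ 𝓖 : Set (Set S), 𝓖.Countable ∧ (∀ F ∈ 𝓖, IsClosed F) ∧ ∀ U, IsOpen U → ApprR μ 𝓖 U := by
  have hsupp : μ μ.supportᶜ = 0 := Measure.measure_compl_support_of_regular
  have hx : ∀ x, Continuous fun s => e s x := fun x => (continuous_apply x).comp he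
  have T : ∀ p : ℚ × ℚ × ℕ, p.1 < p.2.1 → Tiny μ e p.1 p.2.1 (1 / ((p.2.2 : ℝ) + 1)) univ :=
    fun p hp => tiny_univ μ hsupp e he hF (by exact_mod_cast hp) (by positivity)
  choose! 𝒴 h1 h2 h3 using T
  set 𝓕 : Set (Set S) := {∅, univ} ∪ ⋃ p ∈ {p : ℚ × ℚ × ℕ | p.1 < p.2.1},
    ((fun Z => {s | ∀ x ∈ Z, (p.1 : ℝ) ≤ e s x}) '' 𝒴 p ∪
      (fun Z => {s | ∀ x ∈ Z, e s x ≤ (p.2.1 : ℝ)}) '' 𝒴 p) with h𝓕
  have hc : 𝓕.Countable := (Set.toFinite _).countable.union
    ((to_countable _).biUnion fun p hp => ((h1 p hp).image _).union ((h1 p hp).image _))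
  have hcl : ∀ F ∈ 𝓕, IsClosed F := by
    rintro F (hF | hF)
    · rcases hF with rfl | rfl
      exacts [isClosed_empty, isClosed_univ]
    · obtain ⟨p, _, ⟨Z, _, rfl⟩ | ⟨Z, _, rfl⟩⟩ := mem_iUnion₂.1 hF
      · simp only [ofPred_forall]
        exact isClosed_biInter fun x _ => isClosed_le continuous_const (hx x)
      · simp only [ofPred_forall]
        exact isClosed_biInter fun x _ => isClosed_le (hx x) continuous_const
  have hL := isSublattice_latticeClosure (s := 𝓕)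
  have s1 : ∀ x γ, ApprR μ (latticeClosure 𝓕) {s | γ < e s x} := by
    intro x γ ε hε
    obtain ⟨α, β, a1, a2, a3⟩ := appr_sub μ (hx x) γ (half_pos hε)
    obtain ⟨n, hn⟩ := exists_nat_one_div_lt (half_pos hε)
    obtain ⟨Z, hZ, hxZ⟩ := h2 (α, β, n) a2 (mem_univ x)
    refine ⟨{s | ∀ x ∈ Z, (α : ℝ) ≤ e s x}, subset_latticeClosure (Or.inr
      (mem_iUnion₂.2 ⟨(α, β, n), a2, Or.inl ⟨Z, hZ, rfl⟩⟩)), fun s hs => a1.trans_le (hs x hxZ), ?_⟩
    have : {s | γ < e s x} \ {s | ∀ x ∈ Z, (α : ℝ) ≤ e s x} ⊆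
        ({s | γ < e s x} \ {s | β < e s x}) ∪ osc e α β Z := by
      intro s hs
      by_cases h : (β : ℝ) < e s x
      · right
        have h' := hs.2
        simp only [mem_ofPred_eq, not_forall, not_le] at h'
        obtain ⟨x', hx', h'⟩ := h'
        rintro (_ | _)
        · exact ⟨x', hx', by simpa [gap] using h'⟩
        · exact ⟨x, hxZ, by simpa [gap] using h⟩
      · exact Or.inl ⟨hs.1, h⟩
    have := (measureReal_mono (μ := μ) this).trans (measureReal_union_le _ _)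
    have := h3 (α, β, n) a2 Z hZ
    simp only at this
    linarith
  have s2 : ∀ x γ, ApprR μ (latticeClosure 𝓕) {s | e s x < γ} := by
    intro x γ ε hε
    obtain ⟨α, β, a1, a2, a3⟩ := appr_sub μ (g := fun s => -e s x) (hx x).neg (-γ) (half_pos hε)
    obtain ⟨n, hn⟩ := exists_nat_one_div_lt (half_pos hε)
    have a2' : -β < -α := neg_lt_neg a2
    obtain ⟨Z, hZ, hxZ⟩ := h2 (-β, -α, n) a2' (mem_univ x)
    refine ⟨{s | ∀ x ∈ Z, e s x ≤ ((-α : ℚ) : ℝ)}, subset_latticeClosure (Or.inr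
      (mem_iUnion₂.2 ⟨(-β, -α, n), a2', Or.inr ⟨Z, hZ, rfl⟩⟩)), fun s hs => ?_, ?_⟩
    · have := hs x hxZ
      push_cast at this
      show e s x < γ
      linarith
    have : {s | e s x < γ} \ {s | ∀ x ∈ Z, e s x ≤ ((-α : ℚ) : ℝ)} ⊆
        ({s | -γ < -e s x} \ {s | β < -e s x}) ∪ osc e ((-β : ℚ) : ℝ) ((-α : ℚ) : ℝ) Z := by
      intro s hs
      by_cases h : (β : ℝ) < -e s x
      · right
        have h' := hs.2
        simp only [mem_ofPred_eq, not_forall, not_le] at h'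
        obtain ⟨x', hx', h'⟩ := h'
        rintro (_ | _)
        · exact ⟨x, hxZ, by simp only [gap, Bool.false_eq_true, if_false]; push_cast; linarith⟩
        · exact ⟨x', hx', by simp only [gap, if_true]; linarith⟩
      · exact Or.inl ⟨neg_lt_neg (show e s x < γ from hs.1), h⟩
    have := (measureReal_mono (μ := μ) this).trans (measureReal_union_le _ _)
    have := h3 (-β, -α, n) a2' Z hZ
    simp only at this
    linarith
  have s3 : ∀ U, IsOpen U → ∀ s ∈ U, ∃ W, IsOpen W ∧ ApprR μ (latticeClosure 𝓕) W ∧ s ∈ W ∧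
      W ⊆ U := by
    intro U hU s hs
    have key : ∃ W, IsOpen W ∧ ApprR μ (latticeClosure 𝓕) W ∧ s ∈ W ∧ Disjoint W Uᶜ := by
      refine hU.isClosed_compl.isCompact.induction_on
        (p := fun K => ∃ W, IsOpen W ∧ ApprR μ (latticeClosure 𝓕) W ∧ s ∈ W ∧ Disjoint W K)
        ⟨univ, isOpen_univ, ApprR.of_mem (subset_latticeClosure (Or.inl (Or.inr rfl))), trivial,
          by simp⟩ ?_ ?_ ?_
      · rintro K K' hK ⟨W, a1, a2, a3, a4⟩
        exact ⟨W, a1, a2, a3, a4.mono_right hK⟩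
      · rintro K K' ⟨W, a1, a2, a3, a4⟩ ⟨W', b1, b2, b3, b4⟩
        exact ⟨W ∩ W', a1.inter b1, a2.inter hL b2, ⟨a3, b3⟩,
          (a4.mono_left inter_subset_left).union_right (b4.mono_left inter_subset_right)⟩
      · intro t ht
        have hne : e s ≠ e t := fun h => ht (hi h ▸ hs)
        obtain ⟨x, hx'⟩ := Function.ne_iff.1 hne
        rcases lt_or_gt_of_ne hx' with h | h
        · obtain ⟨γ, h1, h2⟩ := exists_between h
          exact ⟨{t | γ < e t x}, mem_nhdsWithin_of_mem_nhds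
            ((isOpen_lt continuous_const (hx x)).mem_nhds h2), {t | e t x < γ},
            isOpen_lt (hx x) continuous_const, s2 x γ, h1,
            disjoint_left.2 fun u hu hu' => lt_asymm (show e u x < γ from hu) hu'⟩
        · obtain ⟨γ, h1, h2⟩ := exists_between h
          exact ⟨{t | e t x < γ}, mem_nhdsWithin_of_mem_nhds
            ((isOpen_lt (hx x) continuous_const).mem_nhds h1), {t | γ < e t x},
            isOpen_lt continuous_const (hx x), s1 x γ, h2,
            disjoint_left.2 fun u hu hu' => lt_asymm (show γ < e u x from hu) hu'⟩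
    obtain ⟨W, a1, a2, a3, a4⟩ := key
    exact ⟨W, a1, a2, a3, disjoint_compl_right_iff_subset.1 a4⟩
  refine ⟨latticeClosure 𝓕, countable_latticeClosure hc, fun F hF => ?_, fun U hU ε hε => ?_⟩
  · exact latticeClosure_min (t := {F | IsClosed F}) hcl
      ⟨fun _ ha _ hb => IsClosed.union ha hb, fun _ ha _ hb => IsClosed.inter ha hb⟩ hF
  obtain ⟨K, k1, k2, k3⟩ := hU.measurableSet.exists_isCompact_sdiff_lt (μ := μ)
    (measure_ne_top _ _) (ENNReal.ofReal_pos.2 (half_pos hε)).ne'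
  have key : ∃ W, ApprR μ (latticeClosure 𝓕) W ∧ K ⊆ W ∧ W ⊆ U := by
    refine k2.induction_on (p := fun K => ∃ W, ApprR μ (latticeClosure 𝓕) W ∧ K ⊆ W ∧ W ⊆ U)
      ⟨∅, ApprR.of_mem (subset_latticeClosure (Or.inl (Or.inl rfl))), Subset.rfl,
        empty_subset _⟩ ?_ ?_ ?_
    · rintro K K' hK ⟨W, a1, a2, a3⟩
      exact ⟨W, a1, hK.trans a2, a3⟩
    · rintro K K' ⟨W, a1, a2, a3⟩ ⟨W', b1, b2, b3⟩
      exact ⟨W ∪ W', a1.union hL b1, union_subset_union a2 b2, union_subset a3 b3⟩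
    · intro s hs
      obtain ⟨W, a1, a2, a3, a4⟩ := s3 U hU s (k1 hs)
      exact ⟨W, mem_nhdsWithin_of_mem_nhds (a1.mem_nhds a3), W, a2, Subset.rfl, a4⟩
  obtain ⟨W, a1, a2, a3⟩ := key
  obtain ⟨F, f1, f2, f3⟩ := a1 (ε / 2) (half_pos hε)
  refine ⟨F, f1, f2.trans a3, ?_⟩
  have : U \ F ⊆ (U \ K) ∪ (W \ F) := by
    intro s hs
    by_cases h : s ∈ K
    · exact Or.inr ⟨a2 h, hs.2⟩
    · exact Or.inl ⟨hs.1, h⟩
  have := (measureReal_mono (μ := μ) this).trans (measureReal_union_le _ _)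
  have := ENNReal.toReal_lt_of_lt_ofReal k3
  rw [← measureReal_def] at this
  linarith

/-- from an inner approximating countable family to the sequence of finite families -/
theorem conclusion_of_family {S : Type} [TopologicalSpace S] [CompactSpace S]
    [MeasurableSpace S] [BorelSpace S] (μ : Measure S) [IsProbabilityMeasure μ]
    {𝓖 : Set (Set S)} (hc : 𝓖.Countable) (hcl : ∀ F ∈ 𝓖, IsClosed F)
    (hA : ∀ U, IsOpen U → ApprR μ 𝓖 U) :
    ∃ A : ℕ → Finset (Set S),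
      (∀ i, ∀ K ∈ A i, IsCompact K) ∧
      (∀ i, ((A i : Set (Set S))).PairwiseDisjoint id) ∧
      ∀ U : Set (Set S), (∀ u ∈ U, IsOpen u) → ⋃₀ U = Set.univ →
        ∀ ε : ENNReal, 0 < ε →
          ∃ i, (∀ K ∈ A i, ∃ u ∈ U, K ⊆ u) ∧
            μ (Set.univ \ ⋃₀ ((A i : Set (Set S)))) < ε := by
  classical
  have h1 : {t : Finset (Set S) | (t : Set (Set S)) ⊆ 𝓖 ∧
      (t : Set (Set S)).PairwiseDisjoint id}.Countable :=
    ((countable_ofPred_finite_subset hc).preimage Finset.coe_injective).mono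
      fun t ht => And.intro t.finite_toSet ht.1
  obtain ⟨A, hA'⟩ := h1.exists_eq_range ⟨∅, by simp⟩
  have h2 : ∀ i, (A i : Set (Set S)) ⊆ 𝓖 ∧ (A i : Set (Set S)).PairwiseDisjoint id := fun i =>
    (hA' ▸ mem_range_self i : A i ∈ {t : Finset (Set S) | (t : Set (Set S)) ⊆ 𝓖 ∧
      (t : Set (Set S)).PairwiseDisjoint id})
  refine ⟨A, fun i K hK => (hcl K ((h2 i).1 hK)).isCompact, fun i => (h2 i).2,
    fun U hU hcov ε hε => ?_⟩
  have key : ∀ V : Finset (Set S), (V : Set (Set S)) ⊆ U → ∀ δ > 0, ∃ t : Finset (Set S),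
      (t : Set (Set S)) ⊆ 𝓖 ∧ (t : Set (Set S)).PairwiseDisjoint id ∧
      (∀ K ∈ t, ∃ u ∈ U, K ⊆ u) ∧ μ.real (⋃₀ (V : Set (Set S)) \ ⋃₀ (t : Set (Set S))) < δ := by
    intro V
    induction V using Finset.induction_on with
    | empty => exact fun _ δ hδ => ⟨∅, by simp, by simp, by simp, by simpa using hδ⟩
    | insert u V hu ih =>
      intro hV δ hδ
      have huU : u ∈ U := hV (by simp)
      obtain ⟨t, t1, t2, t3, t4⟩ := ih (fun v hv => hV (by simp [Finset.mem_coe.1 hv])) (δ / 2)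
        (half_pos hδ)
      have hcl' : IsClosed (⋃₀ (t : Set (Set S))) := by
        rw [sUnion_eq_biUnion]
        exact t.finite_toSet.isClosed_biUnion fun F hF => hcl F (t1 hF)
      obtain ⟨F, f1, f2, f3⟩ := hA _ ((hU u huU).sdiff hcl') (δ / 2) (half_pos hδ)
      refine ⟨insert F t, ?_, ?_, ?_, ?_⟩
      · rw [Finset.coe_insert]
        exact insert_subset f1 t1
      · rw [Finset.coe_insert]
        exact t2.insert fun G hG _ => disjoint_left.2 fun s hs hs' => (f2 hs).2 ⟨G, hG, hs'⟩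
      · intro K hK
        rcases Finset.mem_insert.1 hK with rfl | hK
        · exact ⟨u, huU, f2.trans sdiff_subset⟩
        · exact t3 K hK
      · rw [Finset.coe_insert, Finset.coe_insert, sUnion_insert, sUnion_insert]
        have : (u ∪ ⋃₀ (V : Set (Set S))) \ (F ∪ ⋃₀ (t : Set (Set S))) ⊆
            ((u \ ⋃₀ (t : Set (Set S))) \ F) ∪ (⋃₀ (V : Set (Set S)) \ ⋃₀ (t : Set (Set S))) := by
          rintro s ⟨hs | hs, hs'⟩
          · exact Or.inl ⟨⟨hs, fun h => hs' (Or.inr h)⟩, fun h => hs' (Or.inl h)⟩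
          · exact Or.inr ⟨hs, fun h => hs' (Or.inr h)⟩
        have := (measureReal_mono (μ := μ) this).trans (measureReal_union_le _ _)
        linarith
  obtain ⟨V, hV, hVf, hV'⟩ := isCompact_univ.elim_finite_subcover_image (c := id) (b := U) hU
    (by rw [← hcov, sUnion_eq_biUnion]; exact Subset.rfl)
  lift V to Finset (Set S) using hVf
  obtain ⟨δ, _, hδ1, hδ2⟩ := ENNReal.lt_iff_exists_real_btwn.1 hε
  obtain ⟨t, t1, t2, t3, t4⟩ := key V hV δ (ENNReal.ofReal_pos.1 hδ1)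
  obtain ⟨i, rfl⟩ : t ∈ range A := hA' ▸ ⟨t1, t2⟩
  refine ⟨i, t3, lt_of_le_of_lt (measure_mono (t := ⋃₀ (V : Set (Set S)) \
    ⋃₀ (A i : Set (Set S))) (sdiff_subset_sdiff_left ?_)) (lt_trans ?_ hδ2)⟩
  · rw [sUnion_eq_biUnion]
    exact hV'
  · exact (ENNReal.lt_ofReal_iff_toReal_lt (measure_ne_top _ _)).2 t4

theorem main (S : Type) [TopologicalSpace S] [CompactSpace S] [T2Space S] [MeasurableSpace S]
    [BorelSpace S] (X : Type) [TopologicalSpace X] [PolishSpace X] (e : S → X → ℝ)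
    (he : Topology.IsEmbedding e)
    (hb : ∀ s, ∃ f : ℕ → C(X, ℝ), ∀ x, Tendsto (fun n => f n x) atTop (𝓝 (e s x)))
    (μ : Measure S) (hμ : IsProbabilityMeasure μ) (hr : μ.Regular) :
    ∃ A : ℕ → Finset (Set S),
      (∀ i, ∀ K ∈ A i, IsCompact K) ∧
      (∀ i, ((A i : Set (Set S))).PairwiseDisjoint id) ∧
      ∀ U : Set (Set S), (∀ u ∈ U, IsOpen u) → ⋃₀ U = Set.univ →
        ∀ ε : ENNReal, 0 < ε →
          ∃ i, (∀ K ∈ A i, ∃ u ∈ U, K ⊆ u) ∧
            μ (Set.univ \ ⋃₀ ((A i : Set (Set S)))) < ε := by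
  let _ := TopologicalSpace.upgradeIsCompletelyMetrizable X
  obtain ⟨𝓖, h1, h2, h3⟩ := exists_family μ e he.continuous he.injective fun s _ =>
    let ⟨f, hf⟩ := hb s; frag_of_baire_one _ f hf
  exact conclusion_of_family μ h1 h2 h3

end Pool.Agent.P.MP_5a7e2f_gt
end
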