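import Mathlib
import Pool.Agent.K.MP_5a7e2f_gt.C0

-- part Pool.Agent.P.MP_5a7e2f_gt.Rec
section

set_option autoImplicit false
set_option linter.unusedSectionVars false

open Set Filter Topology MeasureTheory TopologicalSpace
open scoped ENNReal BoundedContinuousFunction CompactlySupported

namespace Pool.Agent.P.MP_5a7e2f_gt

theorem rec_choice {I D : Type*} [LinearOrder I] [WellFoundedLT I] (d₀ : D)
    (R : I → (I → D) → D → Prop) (h : ∀ i g, ∃ d, R i g d) :
    ∃ f : I → D, ∀ i, R i (fun j => if j < i then f j else d₀) (f i) := by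
  classical
  let F : (i : I) → ((j : I) → j < i → D) → D :=
    fun i g => (h i (fun j => if hj : j < i then g j hj else d₀)).choose
  let f : I → D := (wellFounded_lt (α := I)).fix F
  refine ⟨f, fun i => ?_⟩
  have h1 : f i = F i (fun j _ => f j) := (wellFounded_lt (α := I)).fix_eq F i
  have h2 : (fun j => if j < i then f j else d₀) =
      (fun j => if _hj : j < i then f j else d₀) := by
    funext j; simp
  rw [h1, h2]
  exact (h i _).choose_spec

theorem clopen_induction {X : Type*} [TopologicalSpace X] [CompactSpace X] (P : Set X → Prop)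
    (h0 : P ∅) (hc : ∀ a, P a → P aᶜ) (hu : ∀ a b, P a → P b → P (a ∪ b))
    (hsep : ∀ x y : X, x ≠ y → ∃ a, IsClopen a ∧ P a ∧ x ∈ a ∧ y ∉ a) :
    ∀ b, IsClopen b → P b := by
  have hi : ∀ a b, P a → P b → P (a ∩ b) := fun a b ha hb => by
    have := hc _ (hu _ _ (hc _ ha) (hc _ hb))
    rwa [compl_union, compl_compl, compl_compl] at this
  have hU : ∀ (t : Finset X) (a : X → Set X), (∀ x ∈ t, P (a x)) → P (⋃ x ∈ t, a x) := by
    classical
    intro t a
    induction t using Finset.induction_on with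
    | empty => intro _; simpa using h0
    | insert x t hx ih =>
      intro h
      rw [Finset.set_biUnion_insert]
      exact hu _ _ (h x (Finset.mem_insert_self _ _))
        (ih fun y hy => h y (Finset.mem_insert_of_mem hy))
  have s1 : ∀ (x : X) (C : Set X), IsCompact C → x ∉ C →
      ∃ a, IsClopen a ∧ P a ∧ x ∉ a ∧ C ⊆ a := by
    intro x C hC hx
    have : ∀ y : X, ∃ a, IsClopen a ∧ P a ∧ x ∉ a ∧ (y ∈ C → y ∈ a) := by
      intro y
      by_cases hy : y ∈ C
      · obtain ⟨a, h1, h2, h3, h4⟩ := hsep y x (fun h => hx (h ▸ hy))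
        exact ⟨a, h1, h2, h4, fun _ => h3⟩
      · exact ⟨∅, isClopen_empty, h0, notMem_empty _, fun h => absurd h hy⟩
    choose a h1 h2 h3 h4 using this
    obtain ⟨t, ht⟩ := hC.elim_finite_subcover a (fun y => (h1 y).isOpen)
      (fun y hy => mem_iUnion.2 ⟨y, h4 y hy⟩)
    refine ⟨⋃ y ∈ t, a y, isClopen_biUnion_finset fun y _ => h1 y, hU t a fun y _ => h2 y, ?_, ht⟩
    simp only [mem_iUnion, not_exists]
    exact fun y _ => h3 y
  intro b hb
  have : ∀ x : X, ∃ a, IsClopen a ∧ P a ∧ a ⊆ b ∧ (x ∈ b → x ∈ a) := by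
    intro x
    by_cases hx : x ∈ b
    · obtain ⟨a, h1, h2, h3, h4⟩ := s1 x bᶜ hb.compl.isClosed.isCompact (fun h => h hx)
      exact ⟨aᶜ, h1.compl, hc _ h2, compl_subset_comm.1 h4, fun _ => h3⟩
    · exact ⟨∅, isClopen_empty, h0, empty_subset _, fun h => absurd h hx⟩
  choose a h1 h2 h3 h4 using this
  obtain ⟨t, ht⟩ := hb.isClosed.isCompact.elim_finite_subcover a (fun y => (h1 y).isOpen)
    (fun y hy => mem_iUnion.2 ⟨y, h4 y hy⟩)
  have : b = ⋃ y ∈ t, a y := subset_antisymm ht (iUnion₂_subset fun y _ => h3 y)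
  rw [this]
  exact hU t a fun y _ => h2 y

theorem totallyDisconnected_of_sep {X : Type*} [TopologicalSpace X]
    (hsep : ∀ x y : X, x ≠ y → ∃ a, IsClopen a ∧ x ∈ a ∧ y ∉ a) :
    TotallySeparatedSpace X :=
  totallySeparatedSpace_iff_exists_isClopen.2 fun x y hxy => hsep x y hxy

section profinite

variable {X : Type*} [TopologicalSpace X] [CompactSpace X] [T2Space X] [TotallyDisconnectedSpace X]

theorem exists_simple_approx (f : X → ℝ) (hf : Continuous f) {ε : ℝ} (hε : 0 < ε) :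
    ∃ (n : ℕ) (U : Fin n → Set X) (v : Fin n → ℝ), (∀ i, IsClopen (U i)) ∧
      ∀ x, |f x - ∑ i, (U i).indicator (fun _ => v i) x| < ε := by
  have hS : {p : ℝ × ℝ | |p.1 - p.2| < ε} ∈ nhdsSet (diagonal ℝ) := by
    apply IsOpen.mem_nhdsSet _ |>.2
    · rintro ⟨a, b⟩ (h : a = b)
      simp [h, hε]
    · exact isOpen_lt (by fun_prop) continuous_const
  obtain ⟨n, U, v, h⟩ :=
    ContinuousMap.exists_finite_sum_const_indicator_approximation_of_mem_nhds_diagonal
      (⟨f, hf⟩ : C(X, ℝ)) hS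
  exact ⟨n, fun i => U i, v, fun i => (U i).isClopen, h⟩

variable [MeasurableSpace X] [BorelSpace X]

theorem integral_simple_approx (σ : Measure X) [IsProbabilityMeasure σ] (f : X →ᵇ ℝ) {ε : ℝ}
    {n : ℕ} (U : Fin n → Set X) (v : Fin n → ℝ) (hU : ∀ i, IsClopen (U i))
    (h : ∀ x, |f x - ∑ i, (U i).indicator (fun _ => v i) x| < ε) :
    |∫ x, f x ∂σ - ∑ i, σ.real (U i) * v i| ≤ ε := by
  have hint : ∀ i, Integrable ((U i).indicator (fun _ => v i)) σ := fun i =>
    (integrable_const _).indicator (hU i).isOpen.measurableSet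
  have h1 : ∑ i, σ.real (U i) * v i = ∫ x, ∑ i, (U i).indicator (fun _ => v i) x ∂σ := by
    rw [integral_finsetSum _ fun i _ => hint i]
    refine Finset.sum_congr rfl fun i _ => ?_
    rw [integral_indicator (hU i).isOpen.measurableSet]
    simp
  rw [h1, ← integral_sub (f.integrable σ) (integrable_finsetSum _ fun i _ => hint i)]
  have := norm_integral_le_of_norm_le_const (μ := σ)
    (f := fun x => f x - ∑ i, (U i).indicator (fun _ => v i) x) (C := ε)
    (Eventually.of_forall fun x => (h x).le)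
  simpa using this

theorem continuous_real_clopen {b : Set X} (hb : IsClopen b) :
    Continuous fun σ : ProbabilityMeasure X => (σ : Measure X).real b := by
  have := ProbabilityMeasure.continuous_integral_boundedContinuousFunction
    (BoundedContinuousFunction.indicator b hb)
  convert this using 2 with σ
  simp only [BoundedContinuousFunction.indicator_apply]
  rw [integral_indicator_one hb.isOpen.measurableSet]

theorem approx_of_mem_closure {A : Set (ProbabilityMeasure X)} {ν : ProbabilityMeasure X}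
    (h : ν ∈ closure A) (s : Finset (Set X)) (hs : ∀ b ∈ s, IsClopen b) {ε : ℝ} (hε : 0 < ε) :
    ∃ σ ∈ A, ∀ b ∈ s, |(σ : Measure X).real b - (ν : Measure X).real b| < ε := by
  have ho : IsOpen (⋂ b ∈ s, {σ : ProbabilityMeasure X |
      |(σ : Measure X).real b - (ν : Measure X).real b| < ε}) := by
    refine isOpen_biInter_finset fun b hb => isOpen_lt ?_ continuous_const
    exact ((continuous_real_clopen (hs b hb)).sub continuous_const).abs
  obtain ⟨σ, h1, h2⟩ := mem_closure_iff.1 h _ ho (by simp [hε])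
  refine ⟨σ, h2, fun b hb => ?_⟩
  simpa using mem_iInter₂.1 h1 b hb

theorem mem_closure_of_approx {B : Set (ProbabilityMeasure X)} {ν : ProbabilityMeasure X}
    (h : ∀ (s : Finset (Set X)), (∀ b ∈ s, IsClopen b) → ∀ ε : ℝ, 0 < ε →
      ∃ σ ∈ B, ∀ b ∈ s, |(σ : Measure X).real b - (ν : Measure X).real b| < ε) :
    ν ∈ closure B := by
  classical
  let J := {s : Finset (Set X) // ∀ b ∈ s, IsClopen b} × {ε : ℝ // 0 < ε}
  let G : J → Set (ProbabilityMeasure X) := fun j =>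
    {σ | σ ∈ B ∧ ∀ b ∈ j.1.1, |(σ : Measure X).real b - (ν : Measure X).real b| < j.2.1}
  have : Nonempty J := ⟨(⟨∅, by simp⟩, ⟨1, one_pos⟩)⟩
  let F : Filter (ProbabilityMeasure X) := ⨅ j, 𝓟 (G j)
  have hdir : Directed (· ≥ ·) fun j => 𝓟 (G j) := by
    intro j k
    refine ⟨(⟨j.1.1 ∪ k.1.1, ?_⟩, ⟨min j.2.1 k.2.1, lt_min j.2.2 k.2.2⟩), ?_, ?_⟩
    · intro b hb
      rcases Finset.mem_union.1 hb with hb | hb
      exacts [j.1.2 b hb, k.1.2 b hb]
    · refine principal_mono.2 fun σ hσ => ⟨hσ.1, fun b hb => ?_⟩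
      exact (hσ.2 b (Finset.mem_union_left _ hb)).trans_le (min_le_left _ _)
    · refine principal_mono.2 fun σ hσ => ⟨hσ.1, fun b hb => ?_⟩
      exact (hσ.2 b (Finset.mem_union_right _ hb)).trans_le (min_le_right _ _)
  have hne : F.NeBot := by
    refine iInf_neBot_of_directed' hdir fun j => principal_neBot_iff.2 ?_
    obtain ⟨σ, h1, h2⟩ := h j.1.1 j.1.2 j.2.1 j.2.2
    exact ⟨σ, h1, h2⟩
  have hG : ∀ j, G j ∈ F := fun j => mem_iInf_of_mem j (mem_principal_self _)
  have hb : ∀ b, IsClopen b → Tendsto (fun σ : ProbabilityMeasure X => (σ : Measure X).real b) F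
      (𝓝 ((ν : Measure X).real b)) := by
    intro b hb
    refine Metric.tendsto_nhds.2 fun ε hε => ?_
    filter_upwards [hG (⟨{b}, by simpa using hb⟩, ⟨ε, hε⟩)] with σ hσ
    exact hσ.2 b (Finset.mem_singleton_self _)
  have ht : Tendsto (fun σ : ProbabilityMeasure X => σ) F (𝓝 ν) := by
    refine ProbabilityMeasure.tendsto_iff_forall_integral_tendsto.2 fun f => ?_
    refine Metric.tendsto_nhds.2 fun ε hε => ?_
    obtain ⟨n, U, v, hU, hv⟩ := exists_simple_approx f f.continuous (ε := ε / 3) (by positivity)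
    have h1 : Tendsto (fun σ : ProbabilityMeasure X => ∑ i, (σ : Measure X).real (U i) * v i) F
        (𝓝 (∑ i, (ν : Measure X).real (U i) * v i)) :=
      tendsto_finsetSum _ fun i _ => (hb _ (hU i)).mul_const _
    filter_upwards [Metric.tendsto_nhds.1 h1 (ε / 3) (by positivity)] with σ hσ
    have h2 := integral_simple_approx (σ : Measure X) f U v hU hv
    have h3 := integral_simple_approx (ν : Measure X) f U v hU hv
    rw [Real.dist_eq] at hσ ⊢
    rw [abs_le] at h2 h3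
    rw [abs_lt] at hσ ⊢
    constructor <;> linarith [h2.1, h2.2, h3.1, h3.2, hσ.1, hσ.2]
  refine mem_closure_of_tendsto ht ?_
  obtain ⟨j⟩ := this
  filter_upwards [hG j] with σ hσ using hσ.1

theorem exists_lift_measure {T : Type*} [MeasurableSpace T] (lam : Measure T)
    [IsProbabilityMeasure lam] (L : T → X) (hL : ∀ b, IsClopen b → MeasurableSet (L ⁻¹' b)) :
    ∃ μ : Measure X, IsProbabilityMeasure μ ∧ μ.Regular ∧
      ∀ b, IsClopen b → μ b = lam (L ⁻¹' b) := by
  have hm : ∀ f : X → ℝ, Continuous f → Measurable (fun t => f (L t)) := by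
    intro f hf
    choose n U v hU hv using fun k : ℕ =>
      exists_simple_approx f hf (ε := 1 / ((k : ℝ) + 1)) (by positivity)
    refine measurable_of_tendsto_metrizable
      (f := fun k t => ∑ i, (U k i).indicator (fun _ => v k i) (L t)) (fun k => ?_) ?_
    · refine Finset.measurable_sum _ fun i _ => ?_
      exact (measurable_const (a := v k i)).indicator (hL _ (hU k i))
    · refine tendsto_pi_nhds.2 fun t => ?_
      refine Metric.tendsto_atTop.2 fun ε hε => ?_
      obtain ⟨N, hN⟩ := exists_nat_one_div_lt hε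
      refine ⟨N, fun k hk => ?_⟩
      rw [dist_comm, Real.dist_eq]
      refine (hv k (L t)).trans_le (le_trans ?_ hN.le)
      gcongr
  have hi : ∀ g : C_c(X, ℝ), Integrable (fun t => g (L t)) lam := by
    intro g
    obtain ⟨C, hC⟩ := (isCompact_range g.continuous).isBounded.exists_norm_le
    exact Integrable.of_bound (hm g g.continuous).aestronglyMeasurable C
      (Eventually.of_forall fun t => hC _ (mem_range_self _))
  let Λ : C_c(X, ℝ) →ₚ[ℝ] ℝ :=
  { toFun g := ∫ t, g (L t) ∂lam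
    map_add' g g' := integral_add (hi g) (hi g')
    map_smul' c g := integral_smul c (fun t => g (L t))
    monotone' g g' hgg' := integral_mono (hi g) (hi g') fun t => hgg' (L t) }
  have key : ∀ b, IsClopen b → RealRMK.rieszMeasure Λ b = lam (L ⁻¹' b) := by
    intro b hb
    let g : C_c(X, ℝ) :=
    { toFun := BoundedContinuousFunction.indicator b hb
      hasCompactSupport' := HasCompactSupport.of_compactSpace _ }
    have h1 := RealRMK.integral_rieszMeasure Λ g
    have h2 : ∫ x, g x ∂(RealRMK.rieszMeasure Λ) = (RealRMK.rieszMeasure Λ).real b := by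
      rw [← integral_indicator_one hb.isOpen.measurableSet]; rfl
    have h3 : Λ g = lam.real (L ⁻¹' b) := by
      rw [← integral_indicator_one (hL b hb)]; rfl
    rw [h2, h3] at h1
    exact (ENNReal.toReal_eq_toReal_iff' (measure_ne_top _ _) (measure_ne_top _ _)).1 h1
  refine ⟨RealRMK.rieszMeasure Λ, ⟨?_⟩, inferInstance, key⟩
  rw [key _ isClopen_univ]; simp

end profinite

end Pool.Agent.P.MP_5a7e2f_gt
end

-- part Pool.Agent.P.MP_5a7e2f_gt.Step
section

set_option autoImplicit false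

open Set Filter Topology MeasureTheory TopologicalSpace
open scoped ENNReal

namespace Pool.Agent.P.MP_5a7e2f_gt

/-- the first uncountable ordinal as a type -/
abbrev II : Type := (Cardinal.aleph 1).ord.ToType

/-- Cantor space -/
abbrev TT : Type := ℕ → Bool

/-- the coin tossing measure -/
noncomputable def lam : Measure TT :=
  Measure.infinitePi fun _ => (PMF.uniformOfFintype Bool).toMeasure

instance : IsProbabilityMeasure lam := by unfold lam; infer_instance

theorem lam_singleton (t : TT) : lam {t} = 0 := by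
  have h : ∀ n : ℕ, lam {t} ≤ 2⁻¹ ^ n := by
    intro n
    have h1 : ({t} : Set TT) ⊆ Set.pi (Finset.range n) fun i => {t i} := by
      rintro _ rfl i _; rfl
    refine (measure_mono h1).trans ?_
    rw [lam, Measure.infinitePi_pi _ fun i _ => measurableSet_singleton _]
    simp [PMF.toMeasure_apply_singleton _ _ (measurableSet_singleton _)]
  exact le_antisymm (ge_of_tendsto' (ENNReal.tendsto_pow_atTop_nhds_zero_of_lt_one
    (by norm_num : (2⁻¹ : ℝ≥0∞) < 1)) h) zero_le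

theorem countable_Iio (x : II) : (Iio x).Countable := by
  rw [← Cardinal.le_aleph0_iff_set_countable, ← Order.lt_succ_iff, Cardinal.succ_aleph0]
  simpa using Cardinal.mk_Iio_lt x

instance : Uncountable II := by
  rw [← Cardinal.aleph0_lt_mk_iff, Cardinal.mk_ord_toType]
  exact Cardinal.aleph0_lt_aleph_one

theorem exists_bound {S : Set II} (hS : S.Countable) : ∃ δ, ∀ x ∈ S, x < δ := by
  have h1 : (⋃ x ∈ S, Iic x).Countable := hS.biUnion fun x _ => by
    rw [← Iio_insert]; exact (countable_Iio x).insert x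
  by_contra h
  push Not at h
  refine not_countable_univ (α := II) (h1.mono fun δ _ => ?_)
  obtain ⟨x, hx, h2⟩ := h δ
  exact mem_biUnion hx h2

theorem exists_ee : ∃ e : II → II → ℕ, ∀ γ, InjOn (e γ) (Iio γ) := by
  choose e he using fun γ : II => Set.countable_iff_exists_injOn.1 (countable_Iio γ)
  exact ⟨e, he⟩

/-- fixed injections of the countable ordinals into the natural numbers -/
noncomputable def ee : II → II → ℕ := exists_ee.choose

theorem ee_inj (γ : II) : InjOn (ee γ) (Iio γ) := exists_ee.choose_spec γ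

theorem finite_ee (γ : II) (k : ℕ) : {β | β < γ ∧ ee γ β ≤ k}.Finite :=
  Set.Finite.of_finite_image (f := ee γ) ((finite_Iic k).subset (by
    rintro _ ⟨β, h, rfl⟩; exact h.2)) ((ee_inj γ).mono fun _ h => h.1)

/-- sequences of pairwise disjoint small clopen sets -/
structure DD : Type where
  /-- the sets -/
  c : ℕ → Set TT
  clopen : ∀ k, IsClopen (c k)
  disj : ∀ i j, i ≠ j → Disjoint (c i) (c j)
  small : ∀ k, lam (c k) ≤ 2⁻¹ ^ (k + 4)

instance : Inhabited DD := ⟨⟨fun _ => ∅, fun _ => isClopen_empty, by simp, by simp⟩⟩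

theorem geo (m : ℕ) : ∑' i : ℕ, (2⁻¹ : ℝ≥0∞) ^ (i + m + 1) = 2⁻¹ ^ m := by
  have : ∀ i : ℕ, (2⁻¹ : ℝ≥0∞) ^ (i + m + 1) = 2⁻¹ ^ i * (2⁻¹ ^ m * 2⁻¹) := fun i => by ring
  simp_rw [this]
  rw [ENNReal.tsum_mul_right, ENNReal.tsum_geometric, ENNReal.one_sub_inv_two, inv_inv,
    mul_left_comm, ENNReal.mul_inv_cancel (by norm_num) (by norm_num), mul_one]

/-- the union of the sets with index at least `m` -/
def DD.tail (a : DD) (m : ℕ) : Set TT := ⋃ i, a.c (i + m)

theorem DD.mem_tail {a : DD} {m : ℕ} {t : TT} : t ∈ a.tail m ↔ ∃ i, m ≤ i ∧ t ∈ a.c i := by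
  simp only [DD.tail, mem_iUnion]
  exact ⟨fun ⟨i, h⟩ => ⟨i + m, by omega, h⟩, fun ⟨i, h1, h2⟩ => ⟨i - m, by
    rwa [Nat.sub_add_cancel h1]⟩⟩

theorem DD.lam_tail (a : DD) (m : ℕ) : lam (a.tail m) ≤ 2⁻¹ ^ (m + 3) := by
  refine (measure_iUnion_le _).trans ?_
  rw [← geo]
  exact ENNReal.tsum_le_tsum fun i => a.small (i + m)

/-- the union of the tails that have to be avoided at stage `γ` -/
def avoid (c : II → DD) (γ : II) : Set TT := ⋃ β : Iio γ, (c β).tail (ee γ β)

theorem lam_avoid (c : II → DD) (γ : II) : lam (avoid c γ) ≤ 2⁻¹ ^ 2 := by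
  have := (countable_Iio γ).to_subtype
  refine (measure_iUnion_le _).trans ?_
  rw [← geo]
  refine (ENNReal.tsum_le_tsum fun β : Iio γ => (c β).lam_tail (ee γ β)).trans ?_
  exact ENNReal.tsum_comp_le_tsum_of_injective (f := fun β : Iio γ => ee γ β)
    (fun a b h => Subtype.ext (ee_inj γ a.2 b.2 h)) fun m => (2⁻¹ : ℝ≥0∞) ^ (m + 3)

theorem select {R D : Set TT} (hD : IsClopen D) (hR : lam (R \ D) ≠ 0) {η : ℝ≥0∞} (hη : 0 < η) :
    ∃ c, IsClopen c ∧ lam c ≤ η ∧ Disjoint c D ∧ lam (R ∩ c) ≠ 0 := by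
  by_contra hcon
  push Not at hcon
  refine hR (measure_null_of_locally_null _ fun t ht => ?_)
  obtain ⟨W, h1, h2, h3⟩ := Set.exists_isOpen_lt_of_lt {t} η (μ := lam) (by rwa [lam_singleton])
  obtain ⟨c, h4, h5, h6⟩ := compact_exists_isClopen_in_isOpen (h2.inter hD.compl.isOpen)
    (⟨h1 rfl, ht.2⟩ : t ∈ W ∩ Dᶜ)
  refine ⟨(R \ D) ∩ c, inter_mem_nhdsWithin _ (h4.isOpen.mem_nhds h5), ?_⟩
  refine measure_mono_null (inter_subset_inter_left _ sdiff_subset) (hcon c h4 ?_ ?_)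
  · exact (measure_mono fun x hx => (h6 hx).1).trans h3.le
  · exact disjoint_left.2 fun x hx => (h6 hx).2

theorem step {O : Set TT} (hO : lam O ≤ 2⁻¹ ^ 2) (F : ℕ → Set TT) (hF : ∀ k, 2⁻¹ < lam (F k)) :
    ∃ a : DD, ∀ k, lam ((F k \ O) ∩ a.c k) ≠ 0 := by
  obtain ⟨c, hc⟩ := rec_choice (∅ : Set TT) (fun (k : ℕ) g c => IsClopen c ∧
      lam c ≤ 2⁻¹ ^ (k + 4) ∧ ((∀ i < k, IsClopen (g i) ∧ lam (g i) ≤ 2⁻¹ ^ (i + 4)) →
        (∀ i < k, Disjoint c (g i)) ∧ lam ((F k \ O) ∩ c) ≠ 0)) (by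
    intro k g
    by_cases h : ∀ i < k, IsClopen (g i) ∧ lam (g i) ≤ 2⁻¹ ^ (i + 4)
    · have hD : IsClopen (⋃ i ∈ Finset.range k, g i) :=
        isClopen_biUnion_finset fun i hi => (h i (Finset.mem_range.1 hi)).1
      have h1 : lam (⋃ i ∈ Finset.range k, g i) ≤ 2⁻¹ ^ 3 := by
        refine (measure_biUnion_finset_le _ _).trans ?_
        rw [← geo]
        refine (Finset.sum_le_sum fun i hi => (h i (Finset.mem_range.1 hi)).2).trans ?_
        exact ENNReal.sum_le_tsum _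
      obtain ⟨c, c1, c2, c3, c4⟩ := select (R := F k \ O) hD (η := 2⁻¹ ^ (k + 4)) (by
        intro h0
        have h2 : F k ⊆ ((F k \ O) \ ⋃ i ∈ Finset.range k, g i) ∪
            (O ∪ ⋃ i ∈ Finset.range k, g i) := fun x hx => by
          by_cases h3 : x ∈ O ∪ ⋃ i ∈ Finset.range k, g i
          · exact Or.inr h3
          · exact Or.inl ⟨⟨hx, fun h => h3 (Or.inl h)⟩, fun h => h3 (Or.inr h)⟩
        have h3 := (hF k).trans_le ((measure_mono h2).trans ((measure_union_le _ _).trans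
          (add_le_add h0.le ((measure_union_le _ _).trans (add_le_add hO h1)))))
        have h4 : (0 : ℝ≥0∞) + (2⁻¹ ^ 2 + 2⁻¹ ^ 3) ≤ 2⁻¹ := by
          rw [zero_add]
          calc (2⁻¹ ^ 2 + 2⁻¹ ^ 3 : ℝ≥0∞) ≤ 2⁻¹ ^ 2 + 2⁻¹ ^ 2 :=
                add_le_add le_rfl (pow_le_pow_of_le_one (by simp) (by simp) (by norm_num))
            _ = 2⁻¹ := by
                rw [pow_two, ← mul_add, ENNReal.inv_two_add_inv_two, mul_one]
        exact absurd h3 (not_lt.2 h4)) (ENNReal.pow_pos (by simp) _)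
      refine ⟨c, c1, c2, fun _ => ⟨fun i hi => c3.mono_right ?_, c4⟩⟩
      exact subset_biUnion_of_mem (u := g) (Finset.mem_coe.2 (Finset.mem_range.2 hi))
    · exact ⟨∅, isClopen_empty, by simp, fun h' => absurd h' h⟩)
  have h1 : ∀ k, (∀ i < k, Disjoint (c k) (c i)) ∧ lam ((F k \ O) ∩ c k) ≠ 0 := by
    intro k
    have := (hc k).2.2 fun i hi => by simpa [hi] using ⟨(hc i).1, (hc i).2.1⟩
    exact ⟨fun i hi => by simpa [hi] using this.1 i hi, this.2⟩
  refine ⟨⟨c, fun k => (hc k).1, fun i j hij => ?_, fun k => (hc k).2.1⟩, fun k => (h1 k).2⟩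
  rcases lt_or_gt_of_ne hij with h | h
  · exact ((h1 j).1 i h).symm
  · exact (h1 i).1 j h

end Pool.Agent.P.MP_5a7e2f_gt
end

-- part Pool.Agent.P.MP_5a7e2f_gt.Space
section

set_option autoImplicit false

open Set Filter Topology MeasureTheory TopologicalSpace
open scoped ENNReal

namespace Pool.Agent.P.MP_5a7e2f_gt

/-- the ambient cube -/
abbrev YY : Type := TT × (II → Bool)

/-- codes of points -/
abbrev XX : Type := TT × Option II

/-- cylinder over a subset of Cantor space -/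
abbrev cyl (a : Set TT) : Set YY := Prod.fst ⁻¹' a

/-- the generating clopen sets -/
def uu (β : II) : Set YY := {y | y.2 β = true}

theorem isClopen_cyl {a : Set TT} (h : IsClopen a) : IsClopen (cyl a) := h.preimage continuous_fst

theorem isClopen_uu (β : II) : IsClopen (uu β) :=
  (isClopen_discrete {true}).preimage ((continuous_apply β).comp continuous_snd)

theorem clopen_ind (P : Set YY → Prop) (h0 : P ∅) (hc : ∀ a, P a → P aᶜ)
    (hu : ∀ a b, P a → P b → P (a ∪ b)) (hT : ∀ a, IsClopen a → P (cyl a)) (hI : ∀ β, P (uu β)) :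
    ∀ d, IsClopen d → P d := by
  refine clopen_induction P h0 hc hu fun x y hxy => ?_
  by_cases h1 : x.1 = y.1
  · have h2 : x.2 ≠ y.2 := fun h => hxy (Prod.ext h1 h)
    obtain ⟨β, hβ⟩ := Function.ne_iff.1 h2
    by_cases h3 : x.2 β = true
    · exact ⟨uu β, isClopen_uu β, hI β, h3, fun h => hβ (h3.trans h.symm)⟩
    · refine ⟨(uu β)ᶜ, (isClopen_uu β).compl, hc _ (hI β), h3, fun h => hβ ?_⟩
      simp only [uu, mem_compl_iff, mem_ofPred_eq, Bool.not_eq_true] at h h3
      rw [h, h3]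
  · obtain ⟨a, h2, h3, h4⟩ := exists_isClopen_of_totally_separated h1
    exact ⟨cyl a, isClopen_cyl h2, hT a h2, h3, h4⟩

/-- `d` depends only on the coordinates below `δ` -/
def Dep (d : Set YY) (δ : II) : Prop :=
  ∀ y y' : YY, y.1 = y'.1 → (∀ β < δ, y.2 β = y'.2 β) → y ∈ d → y' ∈ d

theorem Dep.mono {d : Set YY} {δ δ' : II} (h : Dep d δ) (h' : δ ≤ δ') : Dep d δ' :=
  fun y y' h1 h2 => h y y' h1 fun β hβ => h2 β (hβ.trans_le h')

theorem Dep.compl {d : Set YY} {δ : II} (h : Dep d δ) : Dep dᶜ δ :=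
  fun y y' h1 h2 h3 h4 => h3 (h y' y h1.symm (fun β hβ => (h2 β hβ).symm) h4)

theorem Dep.union {d d' : Set YY} {δ : II} (h : Dep d δ) (h' : Dep d' δ) : Dep (d ∪ d') δ :=
  fun y y' h1 h2 h3 => h3.imp (h y y' h1 h2) (h' y y' h1 h2)

theorem Dep.inter {d d' : Set YY} {δ : II} (h : Dep d δ) (h' : Dep d' δ) : Dep (d ∩ d') δ :=
  fun y y' h1 h2 h3 => ⟨h y y' h1 h2 h3.1, h' y y' h1 h2 h3.2⟩

theorem dep_cyl (a : Set TT) (δ : II) : Dep (cyl a) δ :=
  fun y y' h1 _ h3 => by simpa [← h1] using h3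

theorem dep_uu {β δ : II} (h : β < δ) : Dep (uu β) δ :=
  fun _ _ _ h2 h3 => (h2 β h).symm.trans h3

theorem exists_gt' (a b : II) : ∃ δ, a < δ ∧ b < δ := by
  obtain ⟨δ, h⟩ := exists_bound ((countable_singleton b).insert a)
  exact ⟨δ, h a (by simp), h b (by simp)⟩

theorem exists_dep {d : Set YY} (h : IsClopen d) : ∃ δ, Dep d δ := by
  obtain ⟨x⟩ : Nonempty II := inferInstance
  refine clopen_ind (fun d => ∃ δ, Dep d δ) ⟨x, fun _ _ _ _ h => h⟩
    (fun a ⟨δ, h⟩ => ⟨δ, h.compl⟩) (fun a b ⟨δ, h⟩ ⟨δ', h'⟩ => ?_) (fun a _ => ⟨x, dep_cyl a x⟩)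
    (fun β => ?_) d h
  · exact ⟨max δ δ', (h.mono (le_max_left _ _)).union (h'.mono (le_max_right _ _))⟩
  · obtain ⟨δ, h, -⟩ := exists_gt' β β
    exact ⟨δ, dep_uu h⟩

theorem countable_dep (ρ : II) : {d : Set YY | IsClopen d ∧ Dep d ρ}.Countable := by
  classical
  have := (countable_Iio ρ).to_subtype
  have hc : Countable (Clopens (TT × (Iio ρ → Bool))) :=
    Clopens.countable_iff_secondCountable.2 inferInstance
  let r : TT × (Iio ρ → Bool) → YY := fun z => (z.1, fun β => if h : β < ρ then z.2 ⟨β, h⟩ else false)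
  have hr : Continuous r := by
    refine continuous_fst.prodMk (continuous_pi fun β => ?_)
    by_cases h : β < ρ
    · simp only [h, dif_pos]; fun_prop
    · simp only [h, dif_neg, not_false_eq_true]; fun_prop
  rw [← Set.countable_coe_iff]
  refine Function.Injective.countable (β := Clopens (TT × (Iio ρ → Bool)))
    (f := fun d => ⟨r ⁻¹' d.1, d.2.1.preimage hr⟩) fun d d' h => Subtype.ext ?_
  have h1 : r ⁻¹' d.1 = r ⁻¹' d'.1 := congrArg (fun z : Clopens _ => z.1) h
  have key : ∀ a : Set YY, Dep a ρ → ∀ y : YY, y ∈ a ↔ (y.1, fun β : Iio ρ => y.2 β) ∈ r ⁻¹' a :=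
    fun a ha y => ⟨ha _ _ rfl fun β hβ => by simp [r, hβ], ha _ _ rfl fun β hβ => by simp [r, hβ]⟩
  ext y
  rw [key _ d.2.2, key _ d'.2.2, h1]

variable (c : II → DD)

/-- the generator with its first pieces removed -/
def WW (β : II) (m : ℕ) : Set YY := {y | y.2 β = true ∧ ∀ i < m, y.1 ∉ (c β).c i}

theorem WW_eq (β : II) (m : ℕ) : WW c β m = uu β \ cyl (⋃ i ∈ Finset.range m, (c β).c i) := by
  ext y; simp [WW, uu]

theorem isClopen_WW (β : II) (m : ℕ) : IsClopen (WW c β m) := by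
  rw [WW_eq]
  exact (isClopen_uu β).diff (isClopen_cyl (isClopen_biUnion_finset fun i _ => (c β).clopen i))

/-- the compact space -/
def KK : Set YY := {y | ∀ γ,
  (∀ β < γ, y ∈ WW c β (ee γ β) → (∀ i < ee γ β, y.1 ∉ (c γ).c i) → y.2 γ = false) ∧
  ∀ k, y.1 ∈ (c γ).c k → (∀ β < γ, ee γ β ≤ k → y ∉ WW c β (ee γ β)) → y.2 γ = true}

theorem isClosed_KK : IsClosed (KK c) := by
  have : KK c = ⋂ γ, (⋂ β ∈ Iio γ, (WW c β (ee γ β) ∩ WW c γ (ee γ β))ᶜ) ∩
      ⋂ k, ((cyl ((c γ).c k))ᶜ ∪ (⋃ β ∈ {β | β < γ ∧ ee γ β ≤ k}, WW c β (ee γ β)) ∪ uu γ) := by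
    ext y
    simp only [KK, mem_ofPred_eq, mem_iInter, mem_inter_iff, mem_Iio, mem_compl_iff, mem_union,
      mem_preimage, mem_iUnion, uu]
    refine forall_congr' fun γ => and_congr (forall₂_congr fun β _ => ?_) (forall_congr' fun k => ?_)
    · simp only [WW, mem_ofPred_eq, ← Bool.not_eq_true]; tauto
    · by_cases h : ∃ β, ∃ _ : β < γ ∧ ee γ β ≤ k, y ∈ WW c β (ee γ β)
      · simp only [h, or_true, true_or, iff_true]
        obtain ⟨β, h1, h2⟩ := h
        exact fun _ h3 => absurd h2 (h3 β h1.1 h1.2)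
      · simp only [h, or_false]
        push Not at h
        exact ⟨fun h1 => or_iff_not_imp_left.2 fun h2 => h1 (not_not.1 h2)
          fun β h3 h4 => h β ⟨h3, h4⟩, fun h1 h2 _ => h1.resolve_left (not_not.2 h2)⟩
  rw [this]
  refine isClosed_iInter fun γ => IsClosed.inter (isClosed_biInter fun β _ => ?_)
    (isClosed_iInter fun k => ?_)
  · exact ((isClopen_WW c _ _).inter (isClopen_WW c _ _)).compl.isClosed
  · exact (((isClopen_cyl ((c γ).clopen k)).compl.union
      ((finite_ee γ k).isClopen_biUnion fun β _ => isClopen_WW c _ _)).union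
      (isClopen_uu γ)).isClosed

variable {c}

theorem KK_piece {y : YY} (hy : y ∈ KK c) {γ : II} {k : ℕ} (h : y.1 ∈ (c γ).c k) :
    y.2 γ = true ↔ ∀ β < γ, ee γ β ≤ k → y ∉ WW c β (ee γ β) := by
  refine ⟨fun h1 β hβ h2 h3 => ?_, (hy γ).2 k h⟩
  have := (hy γ).1 β hβ h3 fun i hi h4 =>
    disjoint_left.1 ((c γ).disj i k (by omega)) h4 h
  simp [h1] at this

theorem KK_disj {y : YY} (hy : y ∈ KK c) {β γ : II} (h : β < γ) {m : ℕ} (hm : ee γ β ≤ m)
    (h1 : y ∈ WW c β m) (h2 : y ∈ WW c γ m) : False := by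
  have := (hy γ).1 β h ⟨h1.1, fun i hi => h1.2 i (hi.trans_le hm)⟩
    fun i hi => h2.2 i (hi.trans_le hm)
  simp [h2.1] at this

open Classical in
/-- the coordinates of the point with code `x` -/
noncomputable def pat (c : II → DD) (x : XX) : II → Bool :=
  (wellFounded_lt (α := II)).fix fun γ ih => decide (x.2 = some γ ∨ ∃ k, x.1 ∈ (c γ).c k ∧
    ∀ β (h : β < γ), ee γ β ≤ k → ¬ (ih β h = true ∧ ∀ i < ee γ β, x.1 ∉ (c β).c i))

/-- the point with code `x` -/
noncomputable def emb (c : II → DD) (x : XX) : YY := (x.1, pat c x)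

theorem pat_iff (x : XX) (γ : II) : pat c x γ = true ↔ x.2 = some γ ∨ ∃ k, x.1 ∈ (c γ).c k ∧
    ∀ β < γ, ee γ β ≤ k → emb c x ∉ WW c β (ee γ β) := by
  rw [pat, WellFounded.fix_eq]
  exact @decide_eq_true_iff _ (_)

/-- admissible codes -/
def adm (c : II → DD) (x : XX) : Prop :=
  ∀ γ, x.2 = some γ → (∀ k, x.1 ∉ (c γ).c k) ∧ ∀ β < γ, emb c x ∉ WW c β (ee γ β)

theorem adm_none (t : TT) : adm c (t, none) := fun _ h => by simp at h

theorem emb_mem {x : XX} (h : adm c x) : emb c x ∈ KK c := by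
  intro γ
  refine ⟨fun β hβ h1 h2 => ?_, fun k h1 h2 => (pat_iff x γ).2 (Or.inr ⟨k, h1, h2⟩)⟩
  rw [← Bool.not_eq_true]
  intro h3
  rcases (pat_iff x γ).1 h3 with h4 | ⟨k, h4, h5⟩
  · exact (h γ h4).2 β hβ h1
  · exact h5 β hβ (not_lt.1 fun h6 => h2 k h6 h4) h1

theorem exists_emb {y : YY} (hy : y ∈ KK c) : ∃ x, adm c x ∧ emb c x = y := by
  obtain ⟨o, ho⟩ : ∃ o : Option II, ∀ γ, o = some γ ↔ y.2 γ = true ∧ ∀ k, y.1 ∉ (c γ).c k := by
    by_cases h : ∃ γ, y.2 γ = true ∧ ∀ k, y.1 ∉ (c γ).c k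
    · obtain ⟨γ, hγ⟩ := h
      refine ⟨some γ, fun β => ⟨fun h => Option.some.inj h ▸ hγ, fun h => ?_⟩⟩
      rcases lt_trichotomy β γ with h1 | h1 | h1
      · exact (KK_disj hy h1 le_rfl ⟨h.1, fun i _ => h.2 i⟩ ⟨hγ.1, fun i _ => hγ.2 i⟩).elim
      · rw [h1]
      · exact (KK_disj hy h1 le_rfl ⟨hγ.1, fun i _ => hγ.2 i⟩ ⟨h.1, fun i _ => h.2 i⟩).elim
    · exact ⟨none, fun γ => ⟨fun h => by simp at h, fun h' => absurd ⟨γ, h'⟩ h⟩⟩
  have key : ∀ γ, pat c (y.1, o) γ = y.2 γ := by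
    intro γ
    induction γ using WellFoundedLT.induction with
    | ind γ ih =>
      have e : ∀ β < γ, ∀ m, emb c (y.1, o) ∈ WW c β m ↔ y ∈ WW c β m := fun β hβ m => by
        simp only [WW, emb, mem_ofPred_eq, ih β hβ]
      rw [Bool.eq_iff_iff, pat_iff, ho]
      constructor
      · rintro (h | ⟨k, h1, h2⟩)
        · exact h.1
        · exact (KK_piece hy h1).2 fun β hβ h3 => (e β hβ _).not.1 (h2 β hβ h3)
      · intro h
        by_cases h1 : ∃ k, y.1 ∈ (c γ).c k
        · obtain ⟨k, h1⟩ := h1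
          exact Or.inr ⟨k, h1, fun β hβ h3 => (e β hβ _).not.2 ((KK_piece hy h1).1 h β hβ h3)⟩
        · exact Or.inl ⟨h, not_exists.1 h1⟩
  have e : emb c (y.1, o) = y := Prod.ext rfl (funext key)
  refine ⟨(y.1, o), fun γ h => ⟨((ho γ).1 h).2, fun β hβ h1 => ?_⟩, e⟩
  rw [e] at h1
  exact KK_disj hy hβ le_rfl h1 ⟨((ho γ).1 h).1, fun i _ => ((ho γ).1 h).2 i⟩

theorem pat_congr {c' : II → DD} {δ : II} (h : ∀ β < δ, c β = c' β) {x x' : XX} (h1 : x.1 = x'.1)
    (h2 : ∀ β < δ, (x.2 = some β ↔ x'.2 = some β)) : ∀ γ < δ, pat c x γ = pat c' x' γ := by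
  intro γ
  induction γ using WellFoundedLT.induction with
  | ind γ ih =>
    intro hγ
    rw [Bool.eq_iff_iff, pat_iff, pat_iff, h2 γ hγ, h γ hγ, h1]
    refine or_congr_right (exists_congr fun k => and_congr_right fun _ =>
      forall₃_congr fun β hβ _ => not_congr ?_)
    simp only [WW, emb, mem_ofPred_eq, ih β hβ (hβ.trans hγ), h β (hβ.trans hγ), h1]

theorem Dep.emb_congr {c' : II → DD} {δ : II} {d : Set YY} (hd : Dep d δ)
    (h : ∀ β < δ, c β = c' β) {x x' : XX} (h1 : x.1 = x'.1)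
    (h2 : ∀ β < δ, (x.2 = some β ↔ x'.2 = some β)) (h3 : emb c x ∈ d) : emb c' x' ∈ d :=
  hd (emb c x) (emb c' x') h1 (pat_congr h h1 h2) h3

theorem adm.congr {c' : II → DD} {δ : II} (h : ∀ β < δ, c β = c' β) {x : XX}
    (h1 : ∀ γ, x.2 = some γ → γ < δ) (h2 : adm c x) : adm c' x := by
  intro γ hγ
  refine ⟨h γ (h1 γ hγ) ▸ (h2 γ hγ).1, fun β hβ h3 => (h2 γ hγ).2 β hβ ?_⟩
  have hβ' := hβ.trans (h1 γ hγ)
  simpa only [WW, emb, mem_ofPred_eq, pat_congr h rfl (fun _ _ => Iff.rfl) β hβ', h β hβ'] using h3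

theorem finite_exc (t : TT) (β : II) : {γ | pat c (t, some γ) β ≠ pat c (t, none) β}.Finite := by
  induction β using WellFoundedLT.induction with
  | ind β ih =>
    by_cases h : ∃ k, t ∈ (c β).c k
    · obtain ⟨k, hk⟩ := h
      refine (((finite_ee β k).biUnion fun α hα => ih α hα.1).insert β).subset fun γ hγ => ?_
      by_contra hcon
      simp only [mem_insert_iff, mem_iUnion, not_or, not_exists, mem_ofPred_eq, not_not] at hcon
      refine hγ ?_
      rw [Bool.eq_iff_iff, pat_iff, pat_iff]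
      simp only [Option.some.injEq, hcon.1, false_or, reduceCtorEq]
      refine exists_congr fun j => and_congr_right fun hj => forall₃_congr fun α hα h2 => ?_
      obtain rfl : j = k := by
        by_contra hne
        exact disjoint_left.1 ((c β).disj j k hne) hj hk
      simp only [WW, emb, mem_ofPred_eq, hcon.2 α ⟨hα, h2⟩]
    · refine (finite_singleton β).subset fun γ hγ => ?_
      by_contra hcon
      refine hγ ?_
      rw [Bool.eq_iff_iff, pat_iff, pat_iff]
      have : γ ≠ β := hcon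
      simp [this, not_exists.1 h]

theorem finite_exc_clopen (t : TT) {d : Set YY} (hd : IsClopen d) :
    {γ | ¬ (emb c (t, some γ) ∈ d ↔ emb c (t, none) ∈ d)}.Finite := by
  refine clopen_ind (fun d => {γ | ¬ (emb c (t, some γ) ∈ d ↔ emb c (t, none) ∈ d)}.Finite)
    (by simp) (fun a h => by simpa [not_iff_not] using h)
    (fun a b ha hb => (ha.union hb).subset fun γ hγ => ?_) (fun a _ => by simp [emb])
    (fun β => (finite_exc (c := c) t β).subset fun γ hγ => ?_) d hd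
  · by_contra hcon
    simp only [mem_union, mem_ofPred_eq, not_or, not_not] at hcon
    exact hγ (or_congr hcon.1 hcon.2)
  · intro h
    exact hγ (by simp only [uu, emb, mem_ofPred_eq, h])

/-- the trace of a set on the generic points -/
def ell (c : II → DD) (d : Set YY) : Set TT := {t | emb c (t, none) ∈ d}

theorem measurableSet_ell {d : Set YY} (hd : IsClopen d) : MeasurableSet (ell c d) := by
  refine clopen_ind (fun d => MeasurableSet (ell c d)) MeasurableSet.empty (fun a h => h.compl)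
    (fun a b ha hb => ha.union hb) (fun a ha => ha.isOpen.measurableSet) (fun γ => ?_) d hd
  induction γ using WellFoundedLT.induction with
  | ind γ ih =>
    have : ell c (uu γ) = ⋃ k, (c γ).c k ∩ ⋂ β ∈ {β | β < γ ∧ ee γ β ≤ k},
        (ell c (uu β) \ ⋃ i ∈ Finset.range (ee γ β), (c β).c i)ᶜ := by
      ext t
      simp only [ell, uu, mem_ofPred_eq, mem_iUnion, mem_inter_iff, mem_iInter, mem_compl_iff]
      refine (pat_iff _ _).trans ?_
      simp [WW, emb]
    rw [this]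
    refine MeasurableSet.iUnion fun k => ((c γ).clopen k).isOpen.measurableSet.inter
      (MeasurableSet.biInter (finite_ee γ k).countable fun β hβ => ((ih β hβ.1).diff ?_).compl)
    exact Finset.measurableSet_biUnion _ fun i _ => ((c β).clopen i).isOpen.measurableSet

theorem ell_uu_subset (γ : II) : ell c (uu γ) ⊆ (c γ).tail 0 := fun t ht => by
  rcases (pat_iff _ _).1 ht with h | ⟨k, h, -⟩
  · simp at h
  · exact DD.mem_tail.2 ⟨k, k.zero_le, h⟩

theorem subset_ell_uu (γ : II) (k : ℕ) : (c γ).c k \ avoid c γ ⊆ ell c (uu γ) := fun t ht => by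
  refine (pat_iff _ _).2 (Or.inr ⟨k, ht.1, fun β hβ _ h => ht.2 (mem_iUnion.2 ⟨⟨β, hβ⟩, ?_⟩)⟩)
  obtain ⟨i, -, hi⟩ := DD.mem_tail.1 (ell_uu_subset β h.1)
  exact DD.mem_tail.2 ⟨i, not_lt.1 fun h1 => h.2 i h1 hi, hi⟩

theorem tube {t : TT} {W : Set YY} (hW : IsOpen W) (h : ∀ x : XX, adm c x → x.1 = t → emb c x ∈ W) :
    ∃ a, IsClopen a ∧ t ∈ a ∧ ∀ x : XX, adm c x → x.1 ∈ a → emb c x ∈ W := by
  have h1 : IsClosed (Prod.fst '' (KK c \ W)) :=
    (((isClosed_KK c).sdiff hW).isCompact.image continuous_fst).isClosed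
  obtain ⟨a, h2, h3, h4⟩ := compact_exists_isClopen_in_isOpen h1.isOpen_compl (x := t) (by
    rintro ⟨y, hy, rfl⟩
    obtain ⟨x, hx, rfl⟩ := exists_emb hy.1
    exact hy.2 (h x hx rfl))
  refine ⟨a, h2, h3, fun x hx h5 => ?_⟩
  by_contra h6
  exact h4 h5 ⟨emb c x, ⟨emb_mem hx, h6⟩, rfl⟩

end Pool.Agent.P.MP_5a7e2f_gt
end

-- part Pool.Agent.P.MP_5a7e2f_gt.Tight
section

set_option autoImplicit false

open Set Filter Topology MeasureTheory TopologicalSpace

namespace Pool.Agent.P.MP_5a7e2f_gt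

/-- finitely additive probabilities on the clopen sets that live on `KK c` -/
structure FA (c : II → DD) (m : Set YY → ℝ) : Prop where
  nonneg : ∀ d, IsClopen d → 0 ≤ m d
  total : m univ = 1
  add : ∀ d d', IsClopen d → IsClopen d' → Disjoint d d' → m (d ∪ d') = m d + m d'
  null : ∀ d, IsClopen d → Disjoint d (KK c) → m d = 0

variable {c : II → DD} {m : Set YY → ℝ}

theorem FA.mono (h : FA c m) {d d' : Set YY} (hd : IsClopen d) (hd' : IsClopen d')
    (hs : ∀ y ∈ KK c, y ∈ d → y ∈ d') : m d ≤ m d' := by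
  have h1 := h.add _ _ (hd.inter hd') (hd.diff hd') disjoint_inf_sdiff
  have h2 := h.add _ _ (hd'.inter hd) (hd'.diff hd) disjoint_inf_sdiff
  rw [inter_union_sdiff] at h1 h2
  have h3 := h.null _ (hd.diff hd') (disjoint_left.2 fun y hy hy' => hy.2 (hs y hy' hy.1))
  have h4 := h.nonneg _ (hd'.diff hd)
  rw [inter_comm] at h2
  linarith

theorem FA.empty (h : FA c m) : m ∅ = 0 := h.null _ isClopen_empty (by simp)

theorem FA.le_one (h : FA c m) {d : Set YY} (hd : IsClopen d) : m d ≤ 1 :=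
  h.total ▸ h.mono hd isClopen_univ fun _ _ _ => trivial

theorem FA.union_le (h : FA c m) {d d' : Set YY} (hd : IsClopen d) (hd' : IsClopen d') :
    m (d ∪ d') ≤ m d + m d' := by
  have h1 := h.add _ _ (hd.diff hd') hd' disjoint_sdiff_left
  rw [sdiff_union_self] at h1
  have h2 := h.mono (hd.diff hd') hd fun _ _ h => h.1
  linarith

theorem FA.biUnion_le (h : FA c m) {ι : Type*} (s : Finset ι) {d : ι → Set YY}
    (hd : ∀ i, IsClopen (d i)) : m (⋃ i ∈ s, d i) ≤ ∑ i ∈ s, m (d i) := by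
  classical
  induction s using Finset.induction_on with
  | empty => simp [h.empty]
  | insert a s ha ih =>
    rw [Finset.set_biUnion_insert, Finset.sum_insert ha]
    exact (h.union_le (hd a) (isClopen_biUnion_finset fun i _ => hd i)).trans (by linarith)

theorem FA.sum_le (h : FA c m) {ι : Type*} (s : Finset ι) {d : ι → Set YY}
    (hd : ∀ i, IsClopen (d i)) (hs : ∀ i ∈ s, ∀ j ∈ s, i ≠ j → ∀ y ∈ KK c, y ∈ d i → y ∉ d j) :
    ∑ i ∈ s, m (d i) ≤ m (⋃ i ∈ s, d i) := by
  classical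
  induction s using Finset.induction_on with
  | empty => simp [h.empty]
  | insert a s ha ih =>
    rw [Finset.set_biUnion_insert, Finset.sum_insert ha]
    have hU : IsClopen (⋃ i ∈ s, d i) := isClopen_biUnion_finset fun i _ => hd i
    have h1 := h.add _ _ ((hd a).diff hU) hU disjoint_sdiff_left
    rw [sdiff_union_self] at h1
    have h2 := h.mono (hd a) ((hd a).diff hU) fun y hy h3 => ⟨h3, fun h4 => by
      obtain ⟨i, hi, h5⟩ := mem_iUnion₂.1 h4
      exact hs a (Finset.mem_insert_self _ _) i (Finset.mem_insert_of_mem hi)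
        (fun e => ha (e ▸ hi)) y hy h3 h5⟩
    have h3 := ih fun i hi j hj => hs i (Finset.mem_insert_of_mem hi) j (Finset.mem_insert_of_mem hj)
    linarith

theorem FA.abs_sub_le (h : FA c m) {b b' W : Set YY} (hb : IsClopen b) (hb' : IsClopen b')
    (hW : IsClopen W) (hs : ∀ y ∈ KK c, y ∉ W → (y ∈ b ↔ y ∈ b')) : |m b - m b'| ≤ m W := by
  have h1 := (h.mono hb (hb'.union hW) fun y hy h1 =>
    or_iff_not_imp_right.2 fun h2 => (hs y hy h2).1 h1).trans (h.union_le hb' hW)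
  have h2 := (h.mono hb' (hb.union hW) fun y hy h1 =>
    or_iff_not_imp_right.2 fun h2 => (hs y hy h2).2 h1).trans (h.union_le hb hW)
  rw [abs_le]; constructor <;> linarith

/-- total mass of the pieces with index at least `k` -/
noncomputable def tl (c : II → DD) (m : Set YY → ℝ) (γ : II) (k : ℕ) : ℝ :=
  ∑' i, m (cyl ((c γ).c (i + k)))

theorem FA.summable (h : FA c m) (γ : II) (k : ℕ) :
    Summable fun i => m (cyl ((c γ).c (i + k))) := by
  refine summable_of_sum_le (c := 1) (fun i => h.nonneg _ (isClopen_cyl ((c γ).clopen _)))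
    fun s => (h.sum_le s (fun i => isClopen_cyl ((c γ).clopen _)) ?_).trans
      (h.le_one (isClopen_biUnion_finset fun i _ => isClopen_cyl ((c γ).clopen _)))
  exact fun i _ j _ hij y _ h => disjoint_left.1 ((c γ).disj _ _ (by omega)) h

theorem tl_tendsto (m : Set YY → ℝ) (γ : II) : Tendsto (tl c m γ) atTop (𝓝 0) :=
  tendsto_sum_nat_add fun i => m (cyl ((c γ).c i))

/-- the stages whose new closed set is charged by `m` -/
def charged (c : II → DD) (m : Set YY → ℝ) : Set II := {γ | ∃ η > 0, ∀ k, η ≤ m (WW c γ k)}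

theorem FA.countable_charged (h : FA c m) : (charged c m).Countable := by
  have : charged c m ⊆ ⋃ n : ℕ, {γ | ∀ k, 1 / ((n : ℝ) + 1) ≤ m (WW c γ k)} := by
    rintro γ ⟨η, h1, h2⟩
    obtain ⟨n, hn⟩ := exists_nat_one_div_lt h1
    exact mem_iUnion.2 ⟨n, fun k => hn.le.trans (h2 k)⟩
  refine (countable_iUnion fun n => Set.Finite.countable ?_).mono this
  by_contra hinf
  obtain ⟨s, hs, hcard⟩ := Set.Infinite.exists_subset_card_eq hinf (n + 2)
  let k := (s ×ˢ s).sup fun p => ee p.1 p.2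
  have hk : ∀ i ∈ s, ∀ j ∈ s, ee i j ≤ k := fun i hi j hj =>
    Finset.le_sup (f := fun p : II × II => ee p.1 p.2) (b := (i, j)) (Finset.mem_product.2 ⟨hi, hj⟩)
  have h1 := (h.sum_le s (d := fun γ => WW c γ k) (fun γ => isClopen_WW c γ k) (by
    intro i hi j hj hij y hy h1 h2
    rcases lt_or_gt_of_ne hij with h3 | h3
    · exact KK_disj hy h3 (hk j hj i hi) h1 h2
    · exact KK_disj hy h3 (hk i hi j hj) h2 h1)).trans
    (h.le_one (isClopen_biUnion_finset fun γ _ => isClopen_WW c γ k))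
  have h2 := (Finset.card_nsmul_le_sum s (fun γ => m (WW c γ k)) _ fun γ hγ => hs hγ k).trans h1
  rw [hcard, nsmul_eq_mul, mul_one_div, div_le_one (by positivity)] at h2
  push_cast at h2
  linarith

theorem FA.WW_le (h : FA c m) {γ : II} (hγ : γ ∉ charged c m) (k : ℕ) :
    m (WW c γ k) ≤ tl c m γ k := by
  refine le_of_forall_pos_lt_add fun η hη => ?_
  obtain ⟨j, hj⟩ : ∃ j, m (WW c γ j) < η := by
    by_contra hcon
    push Not at hcon
    exact hγ ⟨η, hη, hcon⟩
  have hU : IsClopen (⋃ i ∈ Finset.range j, cyl ((c γ).c (i + k))) :=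
    isClopen_biUnion_finset fun i _ => isClopen_cyl ((c γ).clopen _)
  have h1 := (h.mono (isClopen_WW c γ k) ((isClopen_WW c γ j).union hU) (by
    intro y _ h1
    refine or_iff_not_imp_right.2 fun h2 => ⟨h1.1, fun i hi h3 => ?_⟩
    have h4 : k ≤ i := not_lt.1 fun h4 => h1.2 i h4 h3
    exact h2 (mem_iUnion₂.2 ⟨i - k, Finset.mem_range.2 (by omega), by
      rwa [Nat.sub_add_cancel h4]⟩))).trans (h.union_le (isClopen_WW c γ j) hU)
  have h2 := (h.biUnion_le (Finset.range j) fun i => isClopen_cyl ((c γ).clopen (i + k))).trans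
    ((h.summable γ k).sum_le_tsum _ fun i _ => h.nonneg _ (isClopen_cyl ((c γ).clopen _)))
  unfold tl
  linarith

theorem FA.tl_nonneg (h : FA c m) (γ : II) (k : ℕ) : 0 ≤ tl c m γ k :=
  tsum_nonneg fun _ => h.nonneg _ (isClopen_cyl ((c γ).clopen _))

/-- `b` is approximable by clopen sets depending on coordinates below some `δ n` -/
def Appr (c : II → DD) (m : Set YY → ℝ) (δ : ℕ → II) (b : Set YY) : Prop :=
  ∀ η > 0, ∃ (F : Finset (II × ℕ)) (b' : Set YY) (n : ℕ), IsClopen b' ∧ Dep b' (δ n) ∧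
    (∀ p ∈ F, ∀ n, δ n ≤ p.1) ∧ ∑ p ∈ F, tl c m p.1 p.2 ≤ η ∧
    ∀ y ∈ KK c, y ∉ ⋃ p ∈ F, WW c p.1 p.2 → (y ∈ b ↔ y ∈ b')

theorem Appr.of_dep {δ : ℕ → II} {b : Set YY} (hb : IsClopen b) {n : ℕ} (h : Dep b (δ n)) :
    Appr c m δ b := fun _ hη => ⟨∅, b, n, hb, h, by simp, by simpa using hη.le, by simp⟩

theorem Appr.compl {δ : ℕ → II} {b : Set YY} (h : Appr c m δ b) : Appr c m δ bᶜ := fun η hη => by
  obtain ⟨F, b', n, h1, h2, h3, h4, h5⟩ := h η hη
  exact ⟨F, b'ᶜ, n, h1.compl, h2.compl, h3, h4, fun y hy h6 => (h5 y hy h6).not⟩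

theorem FA.sum_tl_union (h : FA c m) (F G : Finset (II × ℕ)) [DecidableEq (II × ℕ)] :
    ∑ p ∈ F ∪ G, tl c m p.1 p.2 ≤ ∑ p ∈ F, tl c m p.1 p.2 + ∑ p ∈ G, tl c m p.1 p.2 := by
  rw [← Finset.sum_union_inter]
  exact le_add_of_nonneg_right (Finset.sum_nonneg fun p _ => h.tl_nonneg _ _)

theorem Appr.union (h : FA c m) {δ : ℕ → II} (hδ : Monotone δ) {a b : Set YY}
    (ha : Appr c m δ a) (hb : Appr c m δ b) : Appr c m δ (a ∪ b) := fun η hη => by
  classical
  obtain ⟨F, a', n, h1, h2, h3, h4, h5⟩ := ha (η / 2) (by positivity)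
  obtain ⟨G, b', k, g1, g2, g3, g4, g5⟩ := hb (η / 2) (by positivity)
  refine ⟨F ∪ G, a' ∪ b', max n k, h1.union g1, (h2.mono (hδ (le_max_left _ _))).union
    (g2.mono (hδ (le_max_right _ _))), fun p hp => (Finset.mem_union.1 hp).elim (h3 p) (g3 p),
    (h.sum_tl_union F G).trans (by linarith), fun y hy h6 => ?_⟩
  rw [Finset.set_biUnion_union] at h6
  exact or_congr (h5 y hy fun h => h6 (Or.inl h)) (g5 y hy fun h => h6 (Or.inr h))

theorem Appr.biUnion (h : FA c m) {δ : ℕ → II} (hδ : Monotone δ) {ι : Type*} {s : Set ι}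
    (hs : s.Finite) {a : ι → Set YY} (ha : ∀ i ∈ s, Appr c m δ (a i)) :
    Appr c m δ (⋃ i ∈ s, a i) := by
  induction s, hs using Set.Finite.induction_on with
  | empty => simpa using Appr.of_dep (n := 0) isClopen_empty fun _ _ _ _ h => h
  | insert _ _ ih =>
    rw [biUnion_insert]
    exact (ha _ (mem_insert _ _)).union h hδ (ih fun i hi => ha i (mem_insert_of_mem _ hi))

theorem Appr.diff (h : FA c m) {δ : ℕ → II} (hδ : Monotone δ) {a b : Set YY}
    (ha : Appr c m δ a) (hb : Appr c m δ b) : Appr c m δ (a \ b) := by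
  have := (ha.compl.union h hδ hb).compl
  rwa [compl_union, compl_compl] at this

theorem FA.appr (h : FA c m) {δ : ℕ → II} (hδ : Monotone δ) {b : Set YY} (hb : IsClopen b) :
    Appr c m δ b := by
  classical
  have hc : ∀ a, IsClopen a → Appr c m δ (cyl a) := fun a ha =>
    Appr.of_dep (n := 0) (isClopen_cyl ha) (dep_cyl _ _)
  refine clopen_ind (Appr c m δ) (Appr.of_dep (n := 0) isClopen_empty fun _ _ _ _ h => h)
    (fun _ => Appr.compl) (fun _ _ => Appr.union h hδ) hc (fun γ => ?_) b hb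
  induction γ using WellFoundedLT.induction with
  | ind γ ih =>
    by_cases hγ : ∃ n, γ < δ n
    · obtain ⟨n, hn⟩ := hγ
      exact Appr.of_dep (isClopen_uu γ) (dep_uu hn)
    intro η hη
    obtain ⟨k, hk⟩ := ((tl_tendsto (c := c) m γ).eventually (gt_mem_nhds (half_pos hη))).exists
    have h1 : Appr c m δ (⋃ i ∈ Iio k, cyl ((c γ).c i) \
        ⋃ β ∈ {β | β < γ ∧ ee γ β ≤ i}, WW c β (ee γ β)) :=
      Appr.biUnion h hδ (finite_Iio k) fun i _ => (hc _ ((c γ).clopen i)).diff h hδ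
        (Appr.biUnion h hδ (finite_ee γ i) fun β hβ => by
          rw [WW_eq]
          exact (ih β hβ.1).diff h hδ (hc _ (isClopen_biUnion_finset fun j _ => (c β).clopen j)))
    obtain ⟨F, b', n, h2, h3, h4, h5, h6⟩ := h1 (η / 2) (half_pos hη)
    refine ⟨{(γ, k)} ∪ F, b', n, h2, h3, fun p hp => (Finset.mem_union.1 hp).elim (fun hp n => ?_)
      (h4 p), (h.sum_tl_union _ F).trans (by rw [Finset.sum_singleton]; linarith),
      fun y hy h7 => ?_⟩
    · rw [Finset.mem_singleton.1 hp]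
      exact not_lt.1 fun h => hγ ⟨n, h⟩
    · rw [Finset.set_biUnion_union, Finset.set_biUnion_singleton] at h7
      rw [← h6 y hy fun h => h7 (Or.inr h)]
      simp only [mem_iUnion, Set.mem_sdiff, mem_ofPred_eq, not_exists, mem_Iio, mem_preimage]
      constructor
      · intro h8
        obtain ⟨i, hi, h9⟩ : ∃ i < k, y.1 ∈ (c γ).c i := by
          by_contra hcon
          push Not at hcon
          exact h7 (Or.inl ⟨h8, hcon⟩)
        exact ⟨i, hi, h9, fun β hβ => (KK_piece hy h9).1 h8 β hβ.1 hβ.2⟩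
      · rintro ⟨i, -, h9, h10⟩
        exact (KK_piece hy h9).2 fun β h11 h12 => h10 β ⟨h11, h12⟩

theorem exists_limit (σ : ℕ → Set YY → ℝ) (hσ : ∀ n, FA c (σ n)) :
    ∃ l, FA c l ∧ ∀ d, IsClopen d → Tendsto (fun n => σ n d) (hyperfilter ℕ) (𝓝 (l d)) := by
  have : ∀ d, ∃ x, IsClopen d → Tendsto (fun n => σ n d) (hyperfilter ℕ) (𝓝 x) := by
    intro d
    by_cases hd : IsClopen d
    · obtain ⟨x, -, hx⟩ := (isCompact_Icc (a := (0 : ℝ)) (b := 1)).ultrafilter_le_nhds
        ((hyperfilter ℕ).map fun n => σ n d) (le_principal_iff.2 (mem_map.2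
          (univ_mem' fun n => ⟨(hσ n).nonneg d hd, (hσ n).le_one hd⟩)))
      exact ⟨x, fun _ => hx⟩
    · exact ⟨0, fun h => absurd h hd⟩
  choose l hl using this
  refine ⟨l, ⟨fun d hd => ge_of_tendsto' (hl d hd) fun n => (hσ n).nonneg d hd, ?_,
    fun d d' hd hd' h => ?_, fun d hd h => ?_⟩, hl⟩
  · exact tendsto_nhds_unique (hl _ isClopen_univ)
      (tendsto_const_nhds.congr fun n => (hσ n).total.symm)
  · exact tendsto_nhds_unique (hl _ (hd.union hd'))
      (((hl d hd).add (hl d' hd')).congr fun n => ((hσ n).add d d' hd hd' h).symm)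
  · exact tendsto_nhds_unique (hl _ hd)
      (tendsto_const_nhds.congr fun n => ((hσ n).null d hd h).symm)

theorem tight {ι : Type*} (σ : ι → Set YY → ℝ) (ν : Set YY → ℝ) (hσ : ∀ i, FA c (σ i))
    (hν : FA c ν) (h : ∀ s : Finset (Set YY), (∀ d ∈ s, IsClopen d) → ∀ ε > 0,
      ∃ i, ∀ d ∈ s, |σ i d - ν d| < ε) :
    ∃ B : Set ι, B.Countable ∧ ∀ s : Finset (Set YY), (∀ d ∈ s, IsClopen d) → ∀ ε > 0,
      ∃ i ∈ B, ∀ d ∈ s, |σ i d - ν d| < ε := by
  classical
  have hc : Countable (Clopens TT) := Clopens.countable_iff_secondCountable.2 inferInstance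
  obtain ⟨a, ha⟩ := exists_surjective_nat (Clopens TT)
  have h1 : ∀ (s : Finset (Set YY)) (k n : ℕ), ∃ i, (∀ d ∈ s, IsClopen d) →
      (∀ d ∈ s, |σ i d - ν d| < 1 / ((k : ℝ) + 1)) ∧
      ∀ j ≤ n, |σ i (cyl (a j)) - ν (cyl (a j))| < 1 / ((n : ℝ) + 1) := by
    intro s k n
    by_cases hs : ∀ d ∈ s, IsClopen d
    · obtain ⟨i, hi⟩ := h (s ∪ (Finset.range (n + 1)).image fun j => cyl (a j)) (by
        intro d hd
        rcases Finset.mem_union.1 hd with hd | hd
        · exact hs d hd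
        · obtain ⟨j, -, rfl⟩ := Finset.mem_image.1 hd
          exact isClopen_cyl (a j).isClopen) (min (1 / ((k : ℝ) + 1)) (1 / ((n : ℝ) + 1)))
        (by positivity)
      refine ⟨i, fun _ => ⟨fun d hd => (hi d (Finset.mem_union_left _ hd)).trans_le
        (min_le_left _ _), fun j hj => (hi _ (Finset.mem_union_right _ (Finset.mem_image.2
          ⟨j, Finset.mem_range.2 (by omega), rfl⟩))).trans_le (min_le_right _ _)⟩⟩
    · obtain ⟨i, -⟩ := h ∅ (by simp) 1 one_pos
      exact ⟨i, fun h => absurd h hs⟩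
  choose E hE using h1
  choose l hl hl' using fun s k => exists_limit (fun n => σ (E s k n)) fun n => hσ _
  have htl : ∀ s k, (∀ d ∈ s, IsClopen d) → tl c (l s k) = tl c ν := by
    intro s k hs
    funext γ j
    refine tsum_congr fun i => ?_
    obtain ⟨r, hr⟩ := ha ⟨_, (c γ).clopen (i + j)⟩
    have e : (a r : Set TT) = (c γ).c (i + j) := by rw [hr]; rfl
    refine tendsto_nhds_unique (hl' s k _ (isClopen_cyl ((c γ).clopen _)))
      (Tendsto.mono_left ?_ Nat.hyperfilter_le_atTop)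
    rw [← e, tendsto_iff_norm_sub_tendsto_zero]
    refine squeeze_zero' (Eventually.of_forall fun _ => norm_nonneg _)
      ((eventually_ge_atTop r).mono fun n hn => ((hE s k n hs).2 r hn).le)
      tendsto_one_div_add_atTop_nhds_zero_nat
  let S : II → Set (Finset (Set YY)) := fun ρ => {s | ↑s ⊆ {d | IsClopen d ∧ Dep d ρ}}
  have hS : ∀ ρ, (S ρ).Countable := fun ρ => by
    refine ((countable_ofPred_finite_subset (countable_dep ρ)).preimage_of_injOn
      (f := fun s : Finset (Set YY) => (s : Set (Set YY))) Finset.coe_injective.injOn).mono ?_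
    exact fun s hs => ⟨s.finite_toSet, hs⟩
  have h2 : ∀ ρ : II, ∃ ρ', ρ ≤ ρ' ∧ (∀ γ ∈ charged c ν, γ < ρ') ∧
      ∀ s ∈ S ρ, ∀ k, ∀ γ ∈ charged c (l s k), γ < ρ' := by
    intro ρ
    obtain ⟨ρ', h3⟩ := exists_bound (((hν.countable_charged.union ((hS ρ).biUnion fun s _ =>
      countable_iUnion fun k => (hl s k).countable_charged))).insert ρ)
    exact ⟨ρ', (h3 ρ (mem_insert _ _)).le, fun γ hγ => h3 γ (Or.inr (Or.inl hγ)),
      fun s hs k γ hγ => h3 γ (Or.inr (Or.inr (mem_biUnion hs (mem_iUnion.2 ⟨k, hγ⟩))))⟩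
  choose G hG1 hG2 hG3 using h2
  obtain ⟨x⟩ : Nonempty II := inferInstance
  let δ : ℕ → II := fun n => G^[n] x
  have hδ' : ∀ n, δ (n + 1) = G (δ n) := fun n => Function.iterate_succ_apply' G n x
  have hδ : Monotone δ := monotone_nat_of_le_succ fun n => hδ' n ▸ hG1 _
  refine ⟨⋃ n, ⋃ s ∈ S (δ n), ⋃ k, range (E s k), countable_iUnion fun n =>
    (hS _).biUnion fun s _ => countable_iUnion fun k => countable_range _, fun s hs ε hε => ?_⟩
  choose! F b n g1 g2 g3 g4 g5 using fun d (hd : IsClopen d) =>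
    hν.appr hδ hd (ε / 4) (by positivity)
  obtain ⟨k, hk⟩ := exists_nat_one_div_lt (show 0 < ε / 4 by positivity)
  have hs1 : ∀ d ∈ s.image b, IsClopen d := fun d' hd' => by
    obtain ⟨d, hd, rfl⟩ := Finset.mem_image.1 hd'
    exact g1 d (hs d hd)
  have hs2 : s.image b ∈ S (δ (s.sup n)) := fun d' hd' => by
    obtain ⟨d, hd, rfl⟩ := Finset.mem_image.1 (Finset.mem_coe.1 hd')
    exact ⟨g1 d (hs d hd), (g2 d (hs d hd)).mono (hδ (Finset.le_sup hd))⟩
  have hW : ∀ d, IsClopen (⋃ p ∈ F d, WW c p.1 p.2) := fun d =>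
    isClopen_biUnion_finset fun p _ => isClopen_WW c _ _
  have key : ∀ m, FA c m → tl c m = tl c ν → (∀ γ ∈ charged c m, ∃ j, γ < δ j) →
      ∀ d ∈ s, m (⋃ p ∈ F d, WW c p.1 p.2) ≤ ε / 4 := by
    intro m hm e h3 d hd
    refine (hm.biUnion_le _ fun p : II × ℕ => isClopen_WW c p.1 p.2).trans
      ((Finset.sum_le_sum fun p hp => ?_).trans (g4 d (hs d hd)))
    rw [← e]
    refine hm.WW_le (fun h4 => ?_) _
    obtain ⟨j, hj⟩ := h3 _ h4
    exact absurd (g3 d (hs d hd) p hp j) (not_le.2 hj)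
  have k1 := key ν hν rfl fun γ hγ => ⟨1, hδ' 0 ▸ hG2 _ γ hγ⟩
  have k2 := key _ (hl (s.image b) k) (htl _ _ hs1) fun γ hγ =>
    ⟨s.sup n + 1, hδ' _ ▸ hG3 _ _ hs2 k γ hγ⟩
  obtain ⟨j, hj⟩ := ((Filter.eventually_all_finset s).2 fun d hd =>
    (hl' (s.image b) k _ (hW d)).eventually (gt_mem_nhds
      ((k2 d hd).trans_lt (show ε / 4 < ε / 2 by linarith)))).exists
  refine ⟨E (s.image b) k j, mem_iUnion.2 ⟨_, mem_biUnion hs2 (mem_iUnion.2 ⟨k, j, rfl⟩)⟩,
    fun d hd => ?_⟩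
  have t1 := (hσ (E (s.image b) k j)).abs_sub_le (hs d hd) (g1 d (hs d hd)) (hW d) (g5 d (hs d hd))
  have t2 := hν.abs_sub_le (hs d hd) (g1 d (hs d hd)) (hW d) (g5 d (hs d hd))
  have t3 := (hE _ k j hs1).1 _ (Finset.mem_image_of_mem b hd)
  have t4 := hj d hd
  have t5 := k1 d hd
  rw [abs_le] at t1 t2
  rw [abs_lt] at t3 ⊢
  constructor <;> linarith [t1.1, t1.2, t2.1, t2.2, t3.1, t3.2]

end Pool.Agent.P.MP_5a7e2f_gt
end

-- part Pool.Agent.P.MP_5a7e2f_gt.AdDefs
section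

set_option autoImplicit false
set_option linter.unusedSectionVars false

open Set Filter Topology MeasureTheory TopologicalSpace
open scoped ENNReal Cardinal

namespace Pool.Agent.P.MP_5a7e2f_gt.Ad

/-- the union of `ℵ₁` null subsets of Cantor space is null -/
def AddN : Prop :=
  ∀ 𝒩 : Set (Set TT), #𝒩 ≤ ℵ₁ → (∀ N ∈ 𝒩, lam N = 0) → lam (⋃₀ 𝒩) = 0

/-- summable slaloms -/
def Slalom {C : Type} (φ : ℕ → Finset C) : Prop :=
  ∑' k, ((φ k).card : ℝ≥0∞) * 2⁻¹ ^ k ≠ ⊤

/-- `ℵ₁` functions are localized by one slalom -/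
def Loc : Prop :=
  ∀ f : II → ℕ → ℕ, ∃ φ : ℕ → Finset ℕ, Slalom φ ∧ ∀ α, ∀ᶠ k in atTop, f α k ∈ φ k

/-- unbounded subsets of `ω₁` -/
def Unb (Γ : Set II) : Prop := ∀ β, ∃ γ ∈ Γ, β < γ

/-- `ℵ₁` is a measure precaliber of all probability spaces -/
def Pre : Prop :=
  ∀ (S : Type) [MeasurableSpace S] (μ : Measure S) [IsProbabilityMeasure μ] (D : II → Set S),
    (∀ i, MeasurableSet (D i)) → (∀ i, μ (D i) ≠ 0) →
      ∃ Γ : Set II, Unb Γ ∧ ∀ F : Finset II, (∀ i ∈ F, i ∈ Γ) → μ (⋂ i ∈ F, D i) ≠ 0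

/-- coin tossing on an arbitrary index set (`lam = coin ℕ` by `rfl`) -/
noncomputable def coin (J : Type) : Measure (J → Bool) :=
  Measure.infinitePi fun _ => (PMF.uniformOfFintype Bool).toMeasure

instance (J : Type) : IsProbabilityMeasure (coin J) := by unfold coin; infer_instance

theorem lam_eq_coin : lam = coin ℕ := rfl

/-- `ℵ₁` null sets do not cover `2 ^ ω₁` -/
def CovP : Prop :=
  ∀ J ι : Type, #J ≤ ℵ₁ → #ι ≤ ℵ₁ → ∀ N : ι → Set (J → Bool), (∀ i, coin J (N i) = 0) →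
    ∃ x, ∀ i, x ∉ N i

/-- `c` depends only on the coordinates in `s` -/
def DepOn {J : Type} (c : Set (J → Bool)) (s : Finset J) : Prop :=
  ∀ x y : J → Bool, (∀ j ∈ s, x j = y j) → x ∈ c → y ∈ c

/-- independent clopen sets -/
def GG (k v : ℕ) : Set TT := {t | ∀ l < k + 4, t (Nat.pair (Nat.pair k v) l) = true}

/-- the trace of `Q` on `H` is relatively open -/
def RelOpen {T : Type} [TopologicalSpace T] (Q H : Set T) : Prop :=
  ∀ t ∈ Q, t ∈ H → ∃ u, IsOpen u ∧ t ∈ u ∧ u ∩ H ⊆ Q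

/-- the points all of whose neighbourhoods meet `Q` in a set of positive measure -/
def acc {T : Type} [TopologicalSpace T] [MeasurableSpace T] (ν : Measure T) (Q : Set T) : Set T :=
  {t | ∀ u, IsOpen u → t ∈ u → ν (u ∩ Q) ≠ 0}

/-- regular probability measures -/
abbrev PR (S : Type) [TopologicalSpace S] [MeasurableSpace S] : Type :=
  {μ : ProbabilityMeasure S // (μ : Measure S).Regular}

/-- countable tightness of the space of regular probability measures -/
def Tight (S : Type) [TopologicalSpace S] [MeasurableSpace S] [OpensMeasurableSpace S] : Prop :=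
  ∀ (A : Set (PR S)) x, x ∈ closure A → ∃ B ⊆ A, B.Countable ∧ x ∈ closure B

/-- metrizable-like support -/
def ML {S : Type} [TopologicalSpace S] [MeasurableSpace S] (μ : Measure S) : Prop :=
  ∃ A : ℕ → Finset (Set S),
    (∀ i, ∀ K ∈ A i, IsCompact K) ∧
    (∀ i, ((A i : Set (Set S))).PairwiseDisjoint id) ∧
    ∀ U : Set (Set S), (∀ u ∈ U, IsOpen u) → ⋃₀ U = Set.univ →
      ∀ ε : ENNReal, 0 < ε →
        ∃ i, (∀ K ∈ A i, ∃ u ∈ U, K ⊆ u) ∧ μ (Set.univ \ ⋃₀ ((A i : Set (Set S)))) < ε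

/-- the question -/
def Q1 : Prop :=
  ∀ (S : Type) [TopologicalSpace S] [CompactSpace S] [T2Space S] [MeasurableSpace S]
    [BorelSpace S], Tight S →
    ∀ μ : Measure S, IsProbabilityMeasure μ → μ.Regular → ML μ

/-- an `ω₁`-sequence of continuous functions that is free in the mean -/
def FreeP {S : Type} [TopologicalSpace S] [MeasurableSpace S] (μ : Measure S) : Prop :=
  ∃ (Γ : Set II) (ψ : II → C(S, ℝ)) (a b : ℝ), Unb Γ ∧ a < b ∧
    ∀ j ∈ Γ, ∀ F G : Finset II, (∀ i ∈ F, i ∈ Γ ∧ i < j) → (∀ i ∈ G, i ∈ Γ ∧ j < i) →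
      ∃ P, MeasurableSet P ∧ μ P ≠ 0 ∧ (∀ i ∈ F, b * μ.real P ≤ ∫ s in P, ψ i s ∂μ) ∧
        ∀ i ∈ G, ∫ s in P, ψ i s ∂μ ≤ a * μ.real P

/-- the map to `ℝ ^ ℕ` given by a sequence of continuous functions -/
def pr {S : Type} [TopologicalSpace S] (g : ℕ → C(S, ℝ)) : S → ℕ → ℝ := fun s n => g n s

/-- the measurable functions on `ℝ ^ ℕ` that represent continuous functions -/
def Phi {S : Type} [TopologicalSpace S] [MeasurableSpace S] (μ : Measure S) (g : ℕ → C(S, ℝ)) :
    Set ((ℕ → ℝ) → ℝ) :=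
  {φ | Measurable φ ∧ ∃ f : C(S, ℝ), (fun s => f s) =ᵐ[μ] fun s => φ (pr g s)}

/-- every continuous function is represented -/
def CType {S : Type} [TopologicalSpace S] [MeasurableSpace S] (μ : Measure S)
    (g : ℕ → C(S, ℝ)) : Prop :=
  ∀ f : C(S, ℝ), ∃ φ : (ℕ → ℝ) → ℝ, Measurable φ ∧ (fun s => f s) =ᵐ[μ] fun s => φ (pr g s)

/-- countably many large sets, one of which is almost disjoint from each generator -/
def Capt (c : II → DD) : Prop :=
  ∃ H : ℕ → Set TT, (∀ n, MeasurableSet (H n)) ∧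
    ∀ γ, ∃ n, 2⁻¹ < lam (H n) ∧ lam (H n ∩ ell c (uu γ)) = 0

theorem mk_II : #II = ℵ₁ := Cardinal.mk_ord_toType _

theorem exists_surj_II {ι : Type} [Nonempty ι] (hι : #ι ≤ ℵ₁) :
    ∃ s : II → ι, Function.Surjective s := by
  rw [← mk_II] at hι
  obtain ⟨e⟩ := Cardinal.le_def _ _ |>.1 hι
  exact ⟨Function.invFun e, Function.invFun_surjective e.injective⟩

theorem Loc.gen (h : Loc) {ι C : Type} [Countable C] (hι : #ι ≤ ℵ₁) (f : ι → ℕ → C) :
    ∃ φ : ℕ → Finset C, Slalom φ ∧ ∀ α, ∀ᶠ k in atTop, f α k ∈ φ k := by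
  classical
  rcases isEmpty_or_nonempty ι with h0 | h0
  · exact ⟨fun _ => ∅, by simp [Slalom], fun α => h0.elim α⟩
  obtain ⟨s, hs⟩ := exists_surj_II hι
  obtain ⟨e, he⟩ := exists_injective_nat C
  obtain ⟨φ, h1, h2⟩ := h fun α k => e (f (s α) k)
  refine ⟨fun k => (φ k).preimage e he.injOn, ne_top_of_le_ne_top h1
    (ENNReal.tsum_le_tsum fun k => ?_), fun α => ?_⟩
  · gcongr
    exact Finset.card_le_card_of_injOn e (fun x hx => by simpa using hx) he.injOn
  · obtain ⟨β, rfl⟩ := hs α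
    exact (h2 β).mono fun k hk => Finset.mem_preimage.2 hk

theorem AddN.gen (h : AddN) {ι : Type} (hι : #ι ≤ ℵ₁) (N : ι → Set TT) (hN : ∀ i, lam (N i) = 0) :
    lam (⋃ i, N i) = 0 := by
  rw [← sUnion_range]
  exact h _ (Cardinal.mk_range_le.trans hι) (by rintro _ ⟨i, rfl⟩; exact hN i)

theorem continuous_pr {S : Type} [TopologicalSpace S] (g : ℕ → C(S, ℝ)) : Continuous (pr g) :=
  continuous_pi fun n => (g n).continuous

/-- transfinite sequences of length `ω₁` -/
theorem seq_II {D : Type} (ok : D → Prop) (r : D → D → Prop)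
    (h : ∀ C : Set D, C.Countable → (∀ c ∈ C, ok c) → ∃ d, ok d ∧ ∀ c ∈ C, r c d) :
    ∃ x : II → D, (∀ i, ok (x i)) ∧ ∀ i j, j < i → r (x j) (x i) := by
  obtain ⟨d₀, h₀, -⟩ := h ∅ countable_empty (by simp)
  obtain ⟨x, hx⟩ := rec_choice (I := II) (⟨d₀, h₀⟩ : {d // ok d})
    (fun i g d => ∀ j < i, r (g j).1 d.1) fun i g => by
      obtain ⟨d, h1, h2⟩ := h ((fun j => (g j).1) '' Iio i) ((countable_Iio i).image _)
        (by rintro _ ⟨j, -, rfl⟩; exact (g j).2)
      exact ⟨⟨d, h1⟩, fun j hj => h2 _ ⟨j, hj, rfl⟩⟩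
  exact ⟨fun i => (x i).1, fun i => (x i).2, fun i j hj => by simpa [hj] using hx i j hj⟩

section acc

variable {T : Type} [TopologicalSpace T] [MeasurableSpace T] {ν : Measure T} {Q Q' H : Set T}

theorem isClosed_acc : IsClosed (acc ν Q) := by
  refine isClosed_of_closure_subset fun t ht u hu htu => ?_
  obtain ⟨s, hs, hs'⟩ := mem_closure_iff.1 ht u hu htu
  exact hs' u hu hs

theorem acc_mono (h : Q ⊆ Q') : acc ν Q ⊆ acc ν Q' := fun _ ht u hu htu h0 =>
  ht u hu htu (measure_mono_null (inter_subset_inter_right _ h) h0)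

theorem acc_subset (h : Q ⊆ H) (hH : IsClosed H) : acc ν Q ⊆ H := fun t ht => by
  by_contra h1
  refine ht Hᶜ hH.isOpen_compl h1 ?_
  rw [(disjoint_compl_left.mono_right h).inter_eq, measure_empty]

theorem ne_zero_of_mem_acc {t : T} (h : t ∈ acc ν Q) : ν Q ≠ 0 := by
  simpa using h univ isOpen_univ trivial

theorem acc_inter_open {u : Set T} (hu : IsOpen u) : acc ν Q ∩ u ⊆ acc ν (Q ∩ u) :=
  fun t ht v hv htv => by
    have := ht.1 (v ∩ u) (hv.inter hu) ⟨htv, ht.2⟩
    rwa [inter_assoc, inter_comm u] at this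

theorem null_diff_acc [SecondCountableTopology T] : ν (Q \ acc ν Q) = 0 := by
  refine measure_null_of_locally_null _ fun t ht => ?_
  have := ht.2
  simp only [acc, mem_ofPred_eq, not_forall, not_not] at this
  obtain ⟨u, hu, htu, h0⟩ := this
  exact ⟨(Q \ acc ν Q) ∩ u, inter_mem_nhdsWithin _ (hu.mem_nhds htu),
    measure_mono_null (fun s hs => mem_inter hs.2 hs.1.1) h0⟩

end acc

end Pool.Agent.P.MP_5a7e2f_gt.Ad
end

-- part Pool.Agent.P.MP_5a7e2f_gt.AdGG
section

set_option autoImplicit false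
set_option linter.unusedSectionVars false

open Set Filter Topology MeasureTheory TopologicalSpace
open scoped ENNReal Cardinal

namespace Pool.Agent.P.MP_5a7e2f_gt.Ad

/-- the coordinates used by `GG k v` -/
def GGs (k v : ℕ) : Finset ℕ := (Finset.range (k + 4)).image (Nat.pair (Nat.pair k v))

theorem card_GGs (k v : ℕ) : (GGs k v).card = k + 4 := by
  rw [GGs, Finset.card_image_of_injective _ fun a b h => (Nat.pair_eq_pair.1 h).2,
    Finset.card_range]

theorem GG_eq (k v : ℕ) : GG k v = Set.pi (GGs k v) fun _ => {true} := by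
  ext t
  simp [GG, GGs]

theorem lam_pi (s : Finset ℕ) : lam (Set.pi s fun _ => {true}) = 2⁻¹ ^ s.card := by
  rw [lam, Measure.infinitePi_pi _ fun i _ => measurableSet_singleton _]
  simp [PMF.toMeasure_apply_singleton _ _ (measurableSet_singleton _)]

theorem isClopen_GG (k v : ℕ) : IsClopen (GG k v) := by
  rw [GG_eq]
  exact ⟨isClosed_set_pi fun _ _ => isClosed_discrete _,
    isOpen_set_pi (Finset.finite_toSet _) fun _ _ => isOpen_discrete _⟩

theorem lam_GG (k v : ℕ) : lam (GG k v) = 2⁻¹ ^ (k + 4) := by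
  rw [GG_eq, lam_pi, card_GGs]

theorem lam_GG_inter {k v k' v' : ℕ} (h : (k, v) ≠ (k', v')) :
    lam (GG k v ∩ GG k' v') = 2⁻¹ ^ (k + 4) * 2⁻¹ ^ (k' + 4) := by
  have hd : Disjoint (GGs k v) (GGs k' v') := by
    refine Finset.disjoint_left.2 fun a h1 h2 => h ?_
    obtain ⟨l, -, rfl⟩ := Finset.mem_image.1 h1
    obtain ⟨l', -, e⟩ := Finset.mem_image.1 h2
    obtain ⟨e1, e2⟩ := Nat.pair_eq_pair.1 (Nat.pair_eq_pair.1 e).1
    rw [e1, e2]
  rw [GG_eq, GG_eq, ← Set.union_pi, ← Finset.coe_union, lam_pi, Finset.card_union_of_disjoint hd,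
    card_GGs, card_GGs, pow_add]

theorem slalom_merge {ι C : Type} [Countable ι] (φ : ι → ℕ → Finset C) (h : ∀ n, Slalom (φ n)) :
    ∃ ψ : ℕ → Finset C, Slalom ψ ∧ ∀ n, ∀ᶠ k in atTop, φ n k ⊆ ψ k := by
  classical
  obtain ⟨e, he⟩ := exists_injective_nat ι
  have h1 : ∀ n, ∃ N, e n ≤ N ∧
      ∑' k, (if N ≤ k then ((φ n k).card : ℝ≥0∞) * 2⁻¹ ^ k else 0) ≤ 2⁻¹ ^ e n := fun n => by
    have a := (ENNReal.tendsto_sum_nat_add _ (h n)).eventually
      (eventually_le_nhds (ENNReal.pow_pos (by norm_num : (0 : ℝ≥0∞) < 2⁻¹) (e n)))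
    obtain ⟨N, b1, b2⟩ := (a.and (eventually_ge_atTop (e n))).exists
    refine ⟨N, b2, le_of_eq_of_le ?_ b1⟩
    rw [← (add_left_injective N).tsum_eq (f := fun k =>
      if N ≤ k then ((φ n k).card : ℝ≥0∞) * 2⁻¹ ^ k else 0) fun k hk =>
        ⟨k - N, Nat.sub_add_cancel (by by_contra hn; exact hk (if_neg hn))⟩]
    simp
  choose N h2 h3 using h1
  have hf : ∀ k, {n | N n ≤ k}.Finite := fun k =>
    ((finite_Iic k).preimage he.injOn).subset fun n hn => (h2 n).trans hn
  refine ⟨fun k => (hf k).toFinset.biUnion fun n => φ n k, ?_, fun n =>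
    (eventually_ge_atTop (N n)).mono fun k hk =>
      Finset.subset_biUnion_of_mem (fun n => φ n k) ((hf k).mem_toFinset.2 hk)⟩
  have h4 : ∑' n, (2⁻¹ : ℝ≥0∞) ^ e n ≠ ⊤ :=
    ne_top_of_le_ne_top (by simp) (ENNReal.tsum_comp_le_tsum_of_injective he fun k => 2⁻¹ ^ k)
  refine ne_top_of_le_ne_top h4 (le_trans ?_ (ENNReal.tsum_le_tsum h3))
  rw [ENNReal.tsum_comm]
  refine ENNReal.tsum_le_tsum fun k => le_trans ?_ (ENNReal.sum_le_tsum (hf k).toFinset)
  rw [Finset.sum_congr rfl fun n hn => if_pos (show N n ≤ k from (hf k).mem_toFinset.1 hn),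
    ← Finset.sum_mul]
  gcongr
  exact_mod_cast Finset.card_biUnion_le

end Pool.Agent.P.MP_5a7e2f_gt.Ad
end

-- part Pool.Agent.P.MP_5a7e2f_gt.AdVar
section

set_option autoImplicit false
set_option linter.unusedSectionVars false

open Set Filter Topology MeasureTheory TopologicalSpace
open scoped ENNReal Cardinal

namespace Pool.Agent.P.MP_5a7e2f_gt.Ad

/-- real weight of a pair -/
noncomputable def varP (e : ℕ × ℕ) : ℝ := (2⁻¹ : ℝ) ^ (e.1 + 4)

/-- real indicator of a pair -/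
noncomputable def varF (e : ℕ × ℕ) (t : TT) : ℝ := (GG e.1 e.2).indicator (fun _ => (1 : ℝ)) t

theorem var_meas (e : ℕ × ℕ) : MeasurableSet (GG e.1 e.2) :=
  (isClopen_GG e.1 e.2).isOpen.measurableSet

theorem varP_pos (e : ℕ × ℕ) : 0 < varP e := by unfold varP; positivity

theorem var_real_GG (e : ℕ × ℕ) : lam.real (GG e.1 e.2) = varP e := by
  unfold varP
  rw [Measure.real, lam_GG]
  simp [ENNReal.toReal_pow, ENNReal.toReal_inv]

theorem var_real_inter {e e' : ℕ × ℕ} (h : e ≠ e') :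
    lam.real (GG e.1 e.2 ∩ GG e'.1 e'.2) = varP e * varP e' := by
  unfold varP
  rw [Measure.real, lam_GG_inter (by simpa using h)]
  simp [ENNReal.toReal_pow, ENNReal.toReal_inv, ENNReal.toReal_mul]

theorem var_int_ind {A : Set TT} (hA : MeasurableSet A) :
    Integrable (A.indicator (fun _ => (1 : ℝ))) lam :=
  (integrable_const (1 : ℝ)).indicator hA

theorem var_integral_ind {A : Set TT} (hA : MeasurableSet A) :
    ∫ t, A.indicator (fun _ => (1 : ℝ)) t ∂lam = lam.real A := by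
  rw [integral_indicator hA]; simp

theorem var_prod (e e' : ℕ × ℕ) (t : TT) :
    (varP e - varF e t) * (varP e' - varF e' t) =
      varP e * varP e' - varP e * varF e' t - varP e' * varF e t +
        (GG e.1 e.2 ∩ GG e'.1 e'.2).indicator (fun _ => (1 : ℝ)) t := by
  unfold varF
  by_cases h1 : t ∈ GG e.1 e.2 <;> by_cases h2 : t ∈ GG e'.1 e'.2 <;>
    simp [Set.indicator, h1, h2] <;> ring

theorem var_intF (e : ℕ × ℕ) : Integrable (varF e) lam := var_int_ind (var_meas e)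

theorem var_integralF (e : ℕ × ℕ) : ∫ t, varF e t ∂lam = varP e := by
  unfold varF; rw [var_integral_ind (var_meas e), var_real_GG]

theorem var_prod_int (e e' : ℕ × ℕ) :
    Integrable (fun t => (varP e - varF e t) * (varP e' - varF e' t)) lam := by
  simp only [var_prod]
  exact (((integrable_const _).sub ((var_intF e').const_mul _)).sub
    ((var_intF e).const_mul _)).add (var_int_ind ((var_meas e).inter (var_meas e')))

theorem var_prod_integral (e e' : ℕ × ℕ) :
    ∫ t, (varP e - varF e t) * (varP e' - varF e' t) ∂lam ≤ if e = e' then varP e else 0 := by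
  simp only [var_prod]
  have h1 : Integrable (fun t => varP e * varP e' - varP e * varF e' t) lam :=
    (integrable_const _).sub ((var_intF e').const_mul _)
  have h2 : Integrable (fun t => varP e * varP e' - varP e * varF e' t - varP e' * varF e t) lam :=
    h1.sub ((var_intF e).const_mul _)
  rw [integral_add h2 (var_int_ind ((var_meas e).inter (var_meas e'))),
    integral_sub h1 ((var_intF e).const_mul _),
    integral_sub (integrable_const _) ((var_intF e').const_mul _),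
    var_integral_ind ((var_meas e).inter (var_meas e'))]
  simp only [integral_const_mul, var_integralF, integral_const, probReal_univ, smul_eq_mul, one_mul]
  split_ifs with h
  · subst h
    rw [Set.inter_self, var_real_GG]
    nlinarith [varP_pos e]
  · rw [var_real_inter h]; nlinarith

theorem var_bound {H : Set TT} (hH : MeasurableSet H) {c : ℝ} (hc : c < lam.real H)
    (E : Finset (ℕ × ℕ)) (hE : ∀ e ∈ E, lam.real (H ∩ GG e.1 e.2) ≤ c * varP e) :
    ∑ e ∈ E, varP e ≤ 1 / (lam.real H - c) ^ 2 := by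
  classical
  set d := lam.real H - c with hd
  have hd0 : 0 < d := by linarith
  set s := ∑ e ∈ E, varP e with hs
  have hs0 : 0 ≤ s := Finset.sum_nonneg fun e _ => (varP_pos e).le
  rcases hs0.eq_or_lt with h0 | h0
  · rw [← h0]; positivity
  let Y : TT → ℝ := fun t => ∑ e ∈ E, (varP e - varF e t)
  have hYint : Integrable Y lam :=
    integrable_finsetSum _ fun e _ => (integrable_const _).sub (var_intF e)
  have hYsq : ∀ t, Y t ^ 2 = ∑ e ∈ E, ∑ e' ∈ E, (varP e - varF e t) * (varP e' - varF e' t) := by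
    intro t; simp only [Y]; rw [sq, Finset.sum_mul_sum]
  have hY2int : Integrable (fun t => Y t ^ 2) lam := by
    simp only [hYsq]
    exact integrable_finsetSum _ fun e _ => integrable_finsetSum _ fun e' _ => var_prod_int e e'
  have hY2 : ∫ t, Y t ^ 2 ∂lam ≤ s := by
    simp only [hYsq]
    rw [integral_finsetSum _ fun e _ => integrable_finsetSum _ fun e' _ => var_prod_int e e']
    refine Finset.sum_le_sum fun e he => ?_
    rw [integral_finsetSum _ fun e' _ => var_prod_int e e']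
    refine (Finset.sum_le_sum fun e' _ => var_prod_integral e e').trans ?_
    rw [Finset.sum_ite_eq]; simp [he]
  have hY1 : d * s ≤ ∫ t, H.indicator Y t ∂lam := by
    rw [integral_indicator hH]
    simp only [Y]
    have hi : ∀ e ∈ E, Integrable (fun t => varP e - varF e t) (lam.restrict H) :=
      fun e _ => ((integrable_const _).sub (var_intF e)).integrableOn
    rw [integral_finsetSum _ hi, hs, Finset.mul_sum]
    refine Finset.sum_le_sum fun e he => ?_
    rw [integral_sub (integrable_const _) (var_intF e).integrableOn]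
    have h1 : ∫ t in H, varF e t ∂lam = lam.real (H ∩ GG e.1 e.2) := by
      unfold varF
      rw [integral_indicator (var_meas e), Measure.restrict_restrict (var_meas e), Set.inter_comm]
      simp
    rw [h1]
    simp only [integral_const, smul_eq_mul, measureReal_restrict_apply_univ]
    have := hE e he
    rw [hd]; nlinarith
  set a := d * s / 2 with ha
  have ha0 : 0 < a := by positivity
  have hpt : ∀ t, H.indicator Y t ≤ Y t ^ 2 / (4 * a) + a := by
    intro t
    have h4 : 0 < 4 * a := by positivity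
    have key : Y t ≤ Y t ^ 2 / (4 * a) + a := by
      rw [div_add' _ _ _ h4.ne', le_div_iff₀ h4]
      nlinarith [sq_nonneg (Y t - 2 * a)]
    by_cases ht : t ∈ H
    · rw [Set.indicator_of_mem ht]; exact key
    · rw [Set.indicator_of_notMem ht]; positivity
  have h3 : ∫ t, H.indicator Y t ∂lam ≤ s / (4 * a) + a := by
    have hi : Integrable (fun t => Y t ^ 2 / (4 * a) + a) lam :=
      (hY2int.div_const _).add (integrable_const a)
    refine (integral_mono (hYint.indicator hH) hi hpt).trans ?_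
    rw [integral_add (hY2int.div_const _) (integrable_const a), integral_div]
    simp only [integral_const, probReal_univ, smul_eq_mul, one_mul]
    gcongr
  have h4 : s / (4 * a) = 1 / (2 * d) := by
    rw [ha]; field_simp; ring
  have h5 : d * s / 2 ≤ 1 / (2 * d) := by
    rw [h4] at h3; linarith
  rw [le_div_iff₀ (by positivity)]
  rw [le_div_iff₀ (by positivity)] at h5
  nlinarith

theorem slalom_of {H : Set TT} (hH : MeasurableSet H) {θ : ℝ≥0∞} (hθ : θ < lam H) :
    ∃ φ : ℕ → Finset ℕ, Slalom φ ∧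
      ∀ k v, lam (H ∩ GG k v) ≤ θ * 2⁻¹ ^ (k + 4) → v ∈ φ k := by
  classical
  have hθt : θ ≠ ⊤ := ne_top_of_lt hθ
  have hc : θ.toReal < lam.real H :=
    (ENNReal.toReal_lt_toReal hθt (measure_ne_top _ _)).2 hθ
  set B := 1 / (lam.real H - θ.toReal) ^ 2 with hB
  have hreal : ∀ e : ℕ × ℕ, lam (H ∩ GG e.1 e.2) ≤ θ * 2⁻¹ ^ (e.1 + 4) →
      lam.real (H ∩ GG e.1 e.2) ≤ θ.toReal * varP e := by
    intro e he
    have h1 : (θ * 2⁻¹ ^ (e.1 + 4)) ≠ ⊤ :=
      ENNReal.mul_ne_top hθt (ENNReal.pow_ne_top (by simp))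
    have h2 := ENNReal.toReal_mono h1 he
    unfold varP
    simpa [Measure.real, ENNReal.toReal_mul, ENNReal.toReal_pow, ENNReal.toReal_inv] using h2
  have hfin : ∀ k, {v | lam (H ∩ GG k v) ≤ θ * 2⁻¹ ^ (k + 4)}.Finite := by
    intro k
    by_contra hinf
    have hinf' : {v | lam (H ∩ GG k v) ≤ θ * 2⁻¹ ^ (k + 4)}.Infinite := hinf
    obtain ⟨n, hn⟩ := exists_nat_gt (B / varP (k, 0))
    obtain ⟨T, hT, hcard⟩ := hinf'.exists_subset_card_eq n
    have hb := var_bound hH hc (T.image fun v => (k, v)) (by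
      intro e he
      obtain ⟨v, hv, rfl⟩ := Finset.mem_image.1 he
      exact hreal (k, v) (hT hv))
    rw [Finset.sum_image (by intro x _ y _ h; simpa using h)] at hb
    have h2 : ∑ v ∈ T, varP (k, v) = n * varP (k, 0) := by
      simp [varP, hcard]
    rw [h2] at hb
    rw [div_lt_iff₀ (varP_pos _)] at hn
    linarith
  refine ⟨fun k => (hfin k).toFinset, ?_, fun k v h => by simpa using h⟩
  unfold Slalom
  refine ne_top_of_le_ne_top (b := ENNReal.ofReal (16 * B)) ENNReal.ofReal_ne_top ?_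
  refine ENNReal.tsum_le_of_sum_range_le fun n => ?_
  have hb := var_bound hH hc
    (((Finset.range n).sigma fun k => (hfin k).toFinset).image fun x => (x.1, x.2)) (by
      intro e he
      obtain ⟨x, hx, rfl⟩ := Finset.mem_image.1 he
      have := (Finset.mem_sigma.1 hx).2
      exact hreal (x.1, x.2) (by simpa using this))
  rw [Finset.sum_image (by
    rintro ⟨x1, x2⟩ _ ⟨y1, y2⟩ _ h
    simp only [Prod.mk.injEq] at h
    obtain ⟨rfl, rfl⟩ := h
    rfl), Finset.sum_sigma] at hb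
  have h2 : ∀ k, (((hfin k).toFinset.card : ℝ≥0∞) * 2⁻¹ ^ k) =
      ENNReal.ofReal (16 * ∑ v ∈ (hfin k).toFinset, varP (k, v)) := by
    intro k
    have h3 : (16 : ℝ) * ∑ v ∈ (hfin k).toFinset, varP (k, v) =
        ((hfin k).toFinset.card : ℝ) * 2⁻¹ ^ k := by
      simp only [varP, Finset.sum_const, nsmul_eq_mul, pow_add]; norm_num; ring
    rw [h3, ENNReal.ofReal_mul (by positivity), ENNReal.ofReal_natCast,
      ENNReal.ofReal_pow (by norm_num), ENNReal.ofReal_inv_of_pos (by norm_num)]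
    simp
  simp only [h2]
  rw [← ENNReal.ofReal_sum_of_nonneg (fun k _ => mul_nonneg (by norm_num)
    (Finset.sum_nonneg fun v _ => (varP_pos _).le))]
  refine ENNReal.ofReal_le_ofReal ?_
  rw [← Finset.mul_sum]
  exact mul_le_mul_of_nonneg_left hb (by norm_num)

end Pool.Agent.P.MP_5a7e2f_gt.Ad
end

-- part Pool.Agent.P.MP_5a7e2f_gt.AdBart
section

set_option autoImplicit false
set_option linter.unusedSectionVars false

open Set Filter Topology MeasureTheory TopologicalSpace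
open scoped ENNReal Cardinal

namespace Pool.Agent.P.MP_5a7e2f_gt.Ad

/-- Baire category in a nonempty closed set -/
theorem bart_baire {H : Set TT} (hH : IsClosed H) (h0 : H.Nonempty) {F : ℕ → Set TT}
    (hF : ∀ n, IsClosed (F n)) (hc : ∀ t ∈ H, ∃ n, t ∈ F n) :
    ∃ n, ∃ w ∈ countableBasis TT, (w ∩ H).Nonempty ∧ w ∩ H ⊆ F n := by
  have : CompactSpace H := isCompact_iff_compactSpace.1 hH.isCompact
  have : Nonempty H := h0.to_subtype
  obtain ⟨n, t, ht⟩ := nonempty_interior_of_iUnion_of_closed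
    (f := fun n => ((↑) : H → TT) ⁻¹' F n) (fun n => (hF n).preimage continuous_subtype_val)
    (eq_univ_of_forall fun t => mem_iUnion.2 (hc t.1 t.2))
  obtain ⟨u, hu, hsub⟩ := (mem_nhds_subtype _ _ _).1 (mem_interior_iff_mem_nhds.1 ht)
  obtain ⟨w, hw, htw, hwu⟩ := (isBasis_countableBasis TT).mem_nhds_iff.1 hu
  exact ⟨n, w, hw, ⟨t.1, htw, t.2⟩, fun s hs => hsub (a := ⟨s, hs.2⟩) (hwu hs.1)⟩

theorem loc_of_addN (h : AddN) : Loc := by
  intro f
  have hN : ∀ a, lam {t | ∃ᶠ k in atTop, t ∈ GG k (f a k)} = 0 := fun a =>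
    measure_setOfPred_frequently_eq_zero (p := fun k t => t ∈ GG k (f a k)) (by
      simp only [ofPred_mem_eq, lam_GG]
      exact (geo 3).trans_ne (by simp))
  obtain ⟨M, hsub, hM, hM0⟩ := exists_measurable_superset_of_null (h.gen mk_II.le _ hN)
  obtain ⟨K, hKM, hK, hK0⟩ := hM.compl.exists_lt_isCompact (μ := lam) (r := 0)
    (by rw [prob_compl_eq_one_sub hM, hM0]; simp)
  have hHK : acc lam K ⊆ K := acc_subset subset_rfl hK.isClosed
  have hpos : ∀ w, lam (w ∩ K) ≠ 0 → lam (w ∩ acc lam K) ≠ 0 := fun w hw h0 =>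
    hw (measure_mono_null (t := w ∩ acc lam K ∪ K \ acc lam K)
      (fun t ht => by by_cases e : t ∈ acc lam K; exacts [Or.inl ⟨ht.1, e⟩, Or.inr ⟨ht.2, e⟩])
      (measure_union_null h0 null_diff_acc))
  have hne : (acc lam K).Nonempty := by
    have := nonempty_of_measure_ne_zero (hpos univ (by simpa using hK0.ne'))
    rwa [univ_inter] at this
  have hφ : ∀ w : countableBasis TT, ∃ φ : ℕ → Finset ℕ, Slalom φ ∧ (lam (w.1 ∩ acc lam K) ≠ 0 →
      ∀ k v, lam (w.1 ∩ acc lam K ∩ GG k v) = 0 → v ∈ φ k) := fun w => by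
    by_cases h0 : lam (w.1 ∩ acc lam K) = 0
    · exact ⟨fun _ => ∅, by simp [Slalom], fun h1 => absurd h0 h1⟩
    · obtain ⟨φ, h1, h2⟩ := slalom_of (θ := 0)
        ((isOpen_of_mem_countableBasis w.2).measurableSet.inter isClosed_acc.measurableSet)
        (pos_iff_ne_zero.2 h0)
      exact ⟨φ, h1, fun _ k v h3 => h2 k v (h3.trans_le bot_le)⟩
  choose φ h1 h2 using hφ
  have : Countable (countableBasis TT) := (countable_countableBasis TT).to_subtype
  obtain ⟨ψ, h3, h4⟩ := slalom_merge φ h1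
  refine ⟨ψ, h3, fun a => ?_⟩
  obtain ⟨n, w, hw, ⟨t, htw, ht⟩, hF⟩ := bart_baire isClosed_acc hne
    (F := fun n => ⋂ k, ⋂ _ : n ≤ k, (GG k (f a k))ᶜ)
    (fun n => isClosed_iInter fun k => isClosed_iInter fun _ =>
      (isClopen_GG _ _).isOpen.isClosed_compl)
    (fun t ht => by
      have h5 : ¬ ∃ᶠ k in atTop, t ∈ GG k (f a k) := fun e =>
        hKM (hHK ht) (hsub (mem_iUnion.2 ⟨a, e⟩))
      obtain ⟨n, hn⟩ := eventually_atTop.1 (not_frequently.1 h5)
      exact ⟨n, mem_iInter₂.2 hn⟩)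
  filter_upwards [h4 ⟨w, hw⟩, eventually_ge_atTop n] with k hk hnk
  refine hk (h2 ⟨w, hw⟩ (hpos w (ht w (isOpen_of_mem_countableBasis hw) htw)) k _ ?_)
  rw [eq_empty_of_forall_notMem (s := w ∩ acc lam K ∩ GG k (f a k))
    fun s hs => mem_iInter₂.1 (hF hs.1) k hnk hs.2, measure_empty]

end Pool.Agent.P.MP_5a7e2f_gt.Ad
end

-- part Pool.Agent.P.MP_5a7e2f_gt.AdCyl
section

set_option autoImplicit false
set_option linter.unusedSectionVars false

open Set Filter Topology MeasureTheory TopologicalSpace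
open scoped ENNReal Cardinal

namespace Pool.Agent.P.MP_5a7e2f_gt.Ad

theorem cyl_meas {J : Type} {c : Set (J → Bool)} {s : Finset J} (h : DepOn c s) :
    MeasurableSet c := by
  have e : c = (fun x (j : s) => x j) ⁻¹' ((fun x (j : s) => x j) '' c) := by
    ext y
    refine ⟨fun hy => ⟨y, hy, rfl⟩, ?_⟩
    rintro ⟨x, hx, e⟩
    exact h x y (fun j hj => congrFun e ⟨j, hj⟩) hx
  rw [e]
  exact (measurable_pi_lambda _ fun j => measurable_pi_apply _) (Set.toFinite _).measurableSet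

theorem cyl_cover {J : Type} {N : Set (J → Bool)} (hN : coin J N = 0) {ε : ℝ≥0∞} (hε : ε ≠ 0) :
    ∃ (s : ℕ → Finset J) (b : ℕ → Set (J → Bool)), Monotone b ∧ (∀ n, DepOn (b n) (s n)) ∧
      N ⊆ ⋃ n, b n ∧ coin J (⋃ n, b n) ≤ ε := by
  classical
  obtain ⟨M, hNM, hM, h0⟩ := exists_measurable_superset_of_null hN
  obtain ⟨I, t, hI, rfl⟩ := hM.eq_preimage_restrict_countable
  have : Countable I := hI.to_subtype
  have hr : Measurable (I.domRestrict : (J → Bool) → I → Bool) :=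
    measurable_pi_lambda _ fun j => measurable_pi_apply _
  have ht : MeasurableSet t := by
    have hm : Measurable fun (z : I → Bool) (j : J) => if h : j ∈ I then z ⟨j, h⟩ else false :=
      measurable_pi_lambda _ fun j => by
        split_ifs
        · exact measurable_pi_apply _
        · exact measurable_const
    convert hm hM using 1
    ext z
    have : I.domRestrict (fun j : J => if h : j ∈ I then z ⟨j, h⟩ else false) = z :=
      funext fun j => dif_pos j.2
    simp only [mem_preimage, this]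
  have h1 : ((coin J).map I.domRestrict) t < ε := by
    rw [Measure.map_apply hr ht, h0]
    exact pos_iff_ne_zero.2 hε
  obtain ⟨U, hU, hUo, hUε⟩ := Set.exists_isOpen_lt_of_lt t ε h1
  rw [Measure.map_apply hr hUo.measurableSet] at hUε
  obtain ⟨f, hf⟩ := exists_injective_nat I
  have hfin : ∀ n, (Subtype.val '' {j : I | f j < n}).Finite := fun n =>
    ((Set.finite_lt_nat n).preimage hf.injOn).image _
  let W : Set (J → Bool) := (I.domRestrict : (J → Bool) → I → Bool) ⁻¹' U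
  let b : ℕ → Set (J → Bool) := fun n =>
    {x | ∀ y : J → Bool, (∀ j ∈ (hfin n).toFinset, x j = y j) → y ∈ W}
  have hb : ⋃ n, b n ⊆ W := iUnion_subset fun n x hx => hx x fun _ _ => rfl
  refine ⟨fun n => (hfin n).toFinset, b, fun m n hmn x hx y hy => hx y fun j hj => hy j ?_,
    fun n x y hxy hx z hz => hx z fun j hj => (hxy j hj).trans (hz j hj), fun x hx => ?_,
    (measure_mono hb).trans hUε.le⟩
  · rw [Set.Finite.mem_toFinset] at hj ⊢
    obtain ⟨i, hi, rfl⟩ := hj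
    exact ⟨i, lt_of_lt_of_le hi hmn, rfl⟩
  · obtain ⟨F, u, hu, hF⟩ := isOpen_pi_iff.1 hUo _ (hU (hNM hx))
    refine mem_iUnion.2 ⟨F.sup f + 1, fun y hy => hF fun j hj => ?_⟩
    have := hy j ((Set.Finite.mem_toFinset _).2 ⟨j, Nat.lt_succ_of_le (Finset.le_sup hj), rfl⟩)
    have h2 := (hu j hj).2
    change x j ∈ u j at h2
    change y j ∈ u j
    rwa [← this]

theorem cyl_pieces {J : Type} {N : Set (J → Bool)} (hN : coin J N = 0) (e : ℕ → ℝ≥0∞)
    (he : ∀ k, e k ≠ 0) :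
    ∃ (s : ℕ → Finset J) (p : ℕ → Set (J → Bool)), (∀ k, DepOn (p k) (s k)) ∧
      (∀ k, coin J (p k) ≤ e k) ∧ ∀ x ∈ N, ∃ k, x ∈ p k := by
  classical
  obtain ⟨s, b, hb, hs, hc, h0⟩ := cyl_cover hN (he 0)
  have hm : ∀ n, MeasurableSet (b n) := fun n => cyl_meas (hs n)
  have ht : Tendsto (fun n => coin J ((⋃ i, b i) \ b n)) atTop (𝓝 0) := by
    have := tendsto_measure_iInter_atTop (μ := coin J) (s := fun n => (⋃ i, b i) \ b n)
      (fun n => ((MeasurableSet.iUnion hm).diff (hm n)).nullMeasurableSet)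
      (fun m n h => Set.sdiff_subset_sdiff_right (hb h)) ⟨0, measure_ne_top _ _⟩
    rwa [← Set.sdiff_iUnion, Set.sdiff_self, measure_empty] at this
  have hn : ∀ j, ∃ n, j ≤ n ∧ coin J ((⋃ i, b i) \ b n) ≤ e (j + 1) := fun j =>
    ((eventually_ge_atTop j).and
      (ht.eventually (ge_mem_nhds (pos_iff_ne_zero.2 (he (j + 1)))))).exists
  choose n hn1 hn2 using hn
  refine ⟨fun j => Nat.casesOn j (s (n 0)) fun j => s (n (j + 1)) ∪ s (n j),
    fun j => Nat.casesOn j (b (n 0)) fun j => b (n (j + 1)) \ b (n j), ?_, ?_, fun x hx => ?_⟩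
  · rintro (_ | j)
    · exact hs _
    · exact fun x y h hx => ⟨hs _ x y (fun i hi => h i (Finset.mem_union_left _ hi)) hx.1,
        fun hy => hx.2 (hs _ y x (fun i hi => (h i (Finset.mem_union_right _ hi)).symm) hy)⟩
  · rintro (_ | j)
    · exact (measure_mono (subset_iUnion b _)).trans h0
    · exact (measure_mono (Set.sdiff_subset_sdiff_left (subset_iUnion b _))).trans (hn2 j)
  · obtain ⟨m, hm⟩ := mem_iUnion.1 (hc hx)
    have h : ∃ j, x ∈ b (n j) := ⟨m, hb (hn1 m) hm⟩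
    refine ⟨Nat.find h, ?_⟩
    have h1 := Nat.find_spec h
    have h2 := fun j => Nat.find_min h (m := j)
    rcases e : Nat.find h with _ | j
    · rwa [e] at h1
    · rw [e] at h1 h2
      exact ⟨h1, h2 j (Nat.lt_succ_self j)⟩

theorem null_cyl {J : Type} {N : Set (J → Bool)} (hN : coin J N = 0) (e : ℕ → ℝ≥0∞)
    (he : ∀ k, e k ≠ 0) :
    ∃ (s : ℕ → Finset J) (c : ℕ → Set (J → Bool)), (∀ k, DepOn (c k) (s k)) ∧
      (∀ k, coin J (c k) ≤ e k) ∧ ∀ x ∈ N, ∃ᶠ k in atTop, x ∈ c k := by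
  choose s p h1 h2 h3 using fun k => cyl_pieces hN (fun j => e (Nat.pair k j)) fun j => he _
  refine ⟨fun m => s m.unpair.1 m.unpair.2, fun m => p m.unpair.1 m.unpair.2, fun m => h1 _ _,
    fun m => by simpa using h2 m.unpair.1 m.unpair.2, fun x hx => frequently_atTop.2 fun k => ?_⟩
  obtain ⟨j, hj⟩ := h3 k x hx
  exact ⟨Nat.pair k j, Nat.left_le_pair k j, by simpa using hj⟩

end Pool.Agent.P.MP_5a7e2f_gt.Ad
end

-- part Pool.Agent.P.MP_5a7e2f_gt.AdColl
section

set_option autoImplicit false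
set_option linter.unusedSectionVars false

open Set Filter Topology MeasureTheory TopologicalSpace
open scoped ENNReal Cardinal

namespace Pool.Agent.P.MP_5a7e2f_gt.Ad

theorem coll_cyl_eq {J : Type} (s : Finset J) (z : J → Bool) :
    {x : J → Bool | ∀ j ∈ s, x j = z j} = Set.pi (s : Set J) (fun j => {z j}) := by
  ext x
  simp [Set.mem_pi]

theorem coll_cyl {J : Type} (s : Finset J) (z : J → Bool) :
    coin J {x | ∀ j ∈ s, x j = z j} = 2⁻¹ ^ s.card := by
  rw [coll_cyl_eq, coin, Measure.infinitePi_pi _ (fun i _ => measurableSet_singleton _)]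
  rw [Finset.prod_congr rfl (g := fun _ => (2⁻¹ : ℝ≥0∞)), Finset.prod_const]
  intro i _
  rw [PMF.toMeasure_apply_singleton _ _ (measurableSet_singleton _)]
  simp

theorem coll_cyl_meas {J : Type} (s : Finset J) (z : J → Bool) :
    MeasurableSet {x : J → Bool | ∀ j ∈ s, x j = z j} := by
  rw [coll_cyl_eq]
  exact MeasurableSet.pi s.countable_toSet (fun i _ => measurableSet_singleton _)

theorem collapse {J : Type} (π : J → ℕ) (s o : Finset J) {c : Set (J → Bool)} (hc : DepOn c s)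
    (hπ : ∀ i ∈ s, ∀ j ∈ s, i ∉ o → j ∉ o → π i = π j → i = j) :
    lam {y | (fun j => y (π j)) ∈ c} ≤ 2 ^ o.card * coin J c := by
  classical
  let ex : (s → Bool) → J → Bool := fun z j => if h : j ∈ s then z ⟨j, h⟩ else false
  let Z : Finset (s → Bool) := Finset.univ.filter fun z => ex z ∈ c
  have hex : ∀ x : J → Bool, ∀ j ∈ s, x j = ex (fun i : s => x i) j := by
    intro x j hj
    simp [ex, hj]
  have hmem : ∀ x ∈ c, (fun i : s => x i) ∈ Z := by
    intro x hx
    simp only [Z, Finset.mem_filter, Finset.mem_univ, true_and]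
    exact hc x _ (hex x) hx
  have h1 : c = ⋃ z ∈ Z, {x : J → Bool | ∀ j ∈ s, x j = ex z j} := by
    ext x
    simp only [mem_iUnion, mem_ofPred_eq]
    constructor
    · intro hx
      exact ⟨_, hmem x hx, hex x⟩
    · rintro ⟨z, hz, hx⟩
      simp only [Z, Finset.mem_filter, Finset.mem_univ, true_and] at hz
      exact hc _ x (fun j hj => (hx j hj).symm) hz
  have h2 : coin J c = Z.card * 2⁻¹ ^ s.card := by
    conv_lhs => rw [h1]
    rw [measure_biUnion_finset _ (fun z _ => coll_cyl_meas s _)]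
    · simp only [coll_cyl, Finset.sum_const, nsmul_eq_mul]
    · intro z _ z' _ hne
      refine Set.disjoint_left.2 fun x hx hx' => hne ?_
      funext i
      have a1 := hx i i.2
      have a2 := hx' i i.2
      simp only [ex, i.2, dif_pos] at a1 a2
      exact a1.symm.trans a2
  let w : (s → Bool) → ℕ → Bool := fun z n =>
    if h : ∃ j ∈ s \ o, π j = n then ex z h.choose else false
  have h3 : {y : TT | (fun j => y (π j)) ∈ c} ⊆
      ⋃ z ∈ Z, {y : ℕ → Bool | ∀ n ∈ (s \ o).image π, y n = w z n} := by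
    intro y hy
    simp only [mem_iUnion, mem_ofPred_eq]
    refine ⟨_, hmem _ hy, fun n hn => ?_⟩
    have h : ∃ j ∈ s \ o, π j = n := Finset.mem_image.1 hn
    simp only [w, dif_pos h]
    have a1 := h.choose_spec
    rw [← hex (fun j => y (π j)) _ (Finset.mem_sdiff.1 a1.1).1, a1.2]
  have h4 : ((s \ o).image π).card = (s \ o).card := by
    refine Finset.card_image_of_injOn fun i hi j hj hij => ?_
    have a1 := Finset.mem_sdiff.1 (Finset.mem_coe.1 hi)
    have a2 := Finset.mem_sdiff.1 (Finset.mem_coe.1 hj)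
    exact hπ i a1.1 j a2.1 a1.2 a2.2 hij
  have h5 : (2⁻¹ : ℝ≥0∞) ^ (s \ o).card ≤ 2 ^ o.card * 2⁻¹ ^ s.card := by
    have a1 : s.card ≤ (s \ o).card + o.card := Finset.card_le_card_sdiff_add_card
    have a2 : (2⁻¹ : ℝ≥0∞) ^ ((s \ o).card + o.card) ≤ 2⁻¹ ^ s.card :=
      pow_le_pow_right_of_le_one' (by simp) a1
    have a3 : (2 : ℝ≥0∞) ^ o.card * 2⁻¹ ^ o.card = 1 := by
      rw [← mul_pow, ENNReal.mul_inv_cancel (by simp) (by simp), one_pow]
    calc (2⁻¹ : ℝ≥0∞) ^ (s \ o).card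
        = 2 ^ o.card * 2⁻¹ ^ ((s \ o).card + o.card) := by
          rw [pow_add, mul_comm (2⁻¹ ^ (s \ o).card), ← mul_assoc, a3, one_mul]
      _ ≤ _ := by gcongr
  calc lam {y | (fun j => y (π j)) ∈ c}
      ≤ ∑ z ∈ Z, lam {y : ℕ → Bool | ∀ n ∈ (s \ o).image π, y n = w z n} :=
        (measure_mono h3).trans (measure_biUnion_finset_le _ _)
    _ = Z.card * 2⁻¹ ^ (s \ o).card := by
        simp only [lam_eq_coin, coll_cyl, h4, Finset.sum_const, nsmul_eq_mul]
    _ ≤ Z.card * (2 ^ o.card * 2⁻¹ ^ s.card) := by gcongr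
    _ = _ := by rw [h2]; ring

end Pool.Agent.P.MP_5a7e2f_gt.Ad
end

-- part Pool.Agent.P.MP_5a7e2f_gt.AdHash
section

set_option autoImplicit false
set_option linter.unusedSectionVars false

open Set Filter Topology MeasureTheory TopologicalSpace
open scoped ENNReal Cardinal

namespace Pool.Agent.P.MP_5a7e2f_gt.Ad

theorem hash_inj {J : Type} (hJ : #J ≤ ℵ₁) : ∃ h : J → ℕ → Bool, Function.Injective h := by
  have h1 : #J ≤ #(ℕ → Bool) := by
    refine hJ.trans (Cardinal.aleph_one_le_continuum.trans (le_of_eq ?_))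
    simp
  obtain ⟨e⟩ := Cardinal.le_def _ _ |>.1 h1
  exact ⟨e, e.injective⟩

theorem hash_level {J : Type} {h : J → ℕ → Bool} (hh : Function.Injective h) (s : Finset J) :
    ∃ m : ℕ, ∀ i ∈ s, ∀ j ∈ s, (∀ l < m, h i l = h j l) → i = j := by
  classical
  have h1 : ∀ i j : J, ∃ d : ℕ, h i d = h j d → i = j := by
    intro i j
    by_cases hij : i = j
    · exact ⟨0, fun _ => hij⟩
    · obtain ⟨d, hd⟩ := Function.ne_iff.1 (hh.ne hij)
      exact ⟨d, fun h0 => absurd h0 hd⟩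
  choose d hd using h1
  refine ⟨(s ×ˢ s).sup (fun p => d p.1 p.2) + 1, fun i hi j hj hl => hd i j (hl _ ?_)⟩
  exact Nat.lt_succ_of_le (Finset.le_sup (f := fun p : J × J => d p.1 p.2)
    (Finset.mk_mem_product hi hj))

theorem hash_dom (hL : Loc) {ι : Type} (hι : #ι ≤ ℵ₁) (m : ι → ℕ → ℕ) :
    ∃ n : ℕ → ℕ, Monotone n ∧ ∀ a, ∀ᶠ k in atTop, m a k ≤ n k := by
  obtain ⟨φ, -, h2⟩ := hL.gen hι m
  refine ⟨fun k => (Finset.range (k + 1)).sup fun i => (φ i).sup id, fun k k' hk => ?_,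
    fun a => (h2 a).mono fun k hk => ?_⟩
  · exact Finset.sup_mono (Finset.range_mono (by omega))
  · exact (Finset.le_sup (f := id) hk).trans
      (Finset.le_sup (f := fun i => (φ i).sup id) (Finset.self_mem_range_succ k))

theorem hash_card {C : Type} {ψ : ℕ → Finset C} (hψ : Slalom ψ) :
    ∀ᶠ k in atTop, (ψ k).card ≤ 2 ^ k := by
  have h1 := ENNReal.tendsto_atTop_zero_of_tsum_ne_top hψ
  filter_upwards [h1.eventually (ge_mem_nhds (zero_lt_one' ℝ≥0∞))] with k hk
  have h2 : ((ψ k).card : ℝ≥0∞) ≤ 2 ^ k := by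
    have h3 : (2⁻¹ : ℝ≥0∞) ^ k * 2 ^ k = 1 := by
      rw [← mul_pow, ENNReal.inv_mul_cancel (by simp) (by simp), one_pow]
    calc ((ψ k).card : ℝ≥0∞) = ((ψ k).card * 2⁻¹ ^ k) * 2 ^ k := by rw [mul_assoc, h3, mul_one]
      _ ≤ 1 * 2 ^ k := by gcongr
      _ = 2 ^ k := one_mul _
  exact_mod_cast h2

theorem hash_code {J : Type} {h : J → ℕ → Bool} {n : ℕ} {i j : J}
    (hc : (Finset.range n).filter (fun l => h i l = true) =
      (Finset.range n).filter (fun l => h j l = true)) : ∀ l < n, h i l = h j l := by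
  intro l hl
  have h1 := Finset.ext_iff.1 hc l
  simp only [Finset.mem_filter, Finset.mem_range, hl, true_and] at h1
  exact Bool.eq_iff_iff.2 h1

/-- a map to `ℕ` that is almost injective on almost all of the given finite sets -/
theorem hash_map (hL : Loc) {J ι : Type} (hJ : #J ≤ ℵ₁) (hι : #ι ≤ ℵ₁) (s : ι → ℕ → Finset J) :
    ∃ π : J → ℕ, ∀ a, ∀ᶠ k in atTop, ∃ o : Finset J, o.card ≤ 2 ^ k ∧
      ∀ i ∈ s a k, ∀ j ∈ s a k, i ∉ o → j ∉ o → π i = π j → i = j := by
  classical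
  obtain ⟨h, hh⟩ := hash_inj hJ
  choose m hm using fun a k => hash_level hh (s a k)
  obtain ⟨n, hn, hmn⟩ := hash_dom hL hι m
  obtain ⟨ψ, hψ, h2⟩ := hL.gen hJ
    (fun j k => (Finset.range (n k)).filter (fun l => h j l = true))
  choose r hr using fun j => eventually_atTop.1 (h2 j)
  obtain ⟨e, he⟩ := exists_injective_nat (ℕ × Finset ℕ)
  refine ⟨fun j => e (r j, (Finset.range (n (r j))).filter (fun l => h j l = true)), fun a => ?_⟩
  filter_upwards [hmn a, hash_card hψ] with k hk hc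
  refine ⟨(s a k).filter (fun j => r j ≤ k), le_trans ?_ hc, fun i hi j hj hio hjo hij => ?_⟩
  · refine Finset.card_le_card_of_injOn
      (fun j => (Finset.range (n k)).filter (fun l => h j l = true)) (fun j hj => ?_)
      (fun i hi j hj hij => ?_)
    · exact hr j k (Finset.mem_filter.1 hj).2
    · exact hm a k i (Finset.mem_filter.1 hi).1 j (Finset.mem_filter.1 hj).1
        fun l hl => hash_code hij l (hl.trans_le hk)
  · have h3 := he hij
    simp only [Prod.mk.injEq] at h3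
    obtain ⟨h4, h5⟩ := h3
    rw [← h4] at h5
    have h6 : k ≤ r i := by
      by_contra h7
      exact hio (Finset.mem_filter.2 ⟨hi, by omega⟩)
    exact hm a k i hi j hj fun l hl => hash_code h5 l (hl.trans_le (hk.trans (hn h6)))

theorem hash_pow (k : ℕ) : (2 : ℝ≥0∞) ^ (2 ^ k) * 2⁻¹ ^ (2 ^ k + k) = 2⁻¹ ^ k := by
  rw [pow_add, ← mul_assoc, ← mul_pow, ENNReal.mul_inv_cancel (by simp) (by simp), one_pow, one_mul]

theorem covP_of (hL : Loc) (hA : AddN) : CovP := by
  intro J ι hJ hι N hN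
  choose s c h1 h2 h3 using fun a => null_cyl (hN a) (fun k => 2⁻¹ ^ (2 ^ k + k))
    (fun k => pow_ne_zero _ (by simp))
  obtain ⟨π, hπ⟩ := hash_map hL hJ hι s
  have h4 : ∀ a, lam {y | ∃ᶠ k in atTop, (fun j => y (π j)) ∈ c a k} = 0 := by
    intro a
    obtain ⟨K, hK⟩ := eventually_atTop.1 (hπ a)
    have h5 : lam {y | ∃ᶠ k in atTop, K ≤ k ∧ (fun j => y (π j)) ∈ c a k} = 0 := by
      refine measure_setOfPred_frequently_eq_zero (ne_top_of_le_ne_top ?_
        (ENNReal.tsum_le_tsum (g := fun k => (2⁻¹ : ℝ≥0∞) ^ k) fun k => ?_))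
      · rw [ENNReal.tsum_geometric]
        simp
      · by_cases hk : K ≤ k
        · obtain ⟨o, ho, ho'⟩ := hK k hk
          simp only [hk, true_and]
          refine (collapse π (s a k) o (h1 a k) ho').trans ?_
          rw [← hash_pow k]
          gcongr
          · exact one_le_two
          · exact h2 a k
        · simp [hk]
    refine measure_mono_null (fun y hy => ?_) h5
    exact (Frequently.and_eventually hy (eventually_ge_atTop K)).mono fun k hk => ⟨hk.2, hk.1⟩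
  have h6 := hA.gen hι _ h4
  have h7 : (⋃ a, {y : TT | ∃ᶠ k in atTop, (fun j => y (π j)) ∈ c a k}) ≠ univ := by
    intro h8
    rw [h8, lam_eq_coin, measure_univ] at h6
    exact one_ne_zero h6
  obtain ⟨y, hy⟩ := (ne_univ_iff_exists_notMem _).1 h7
  exact ⟨fun j => y (π j), fun a ha => hy (mem_iUnion.2 ⟨a, h3 a _ ha⟩)⟩

end Pool.Agent.P.MP_5a7e2f_gt.Ad
end

-- part Pool.Agent.P.MP_5a7e2f_gt.AdUnif
section

set_option autoImplicit false
set_option linter.unusedSectionVars false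

open Set Filter Topology MeasureTheory TopologicalSpace
open scoped ENNReal Cardinal

namespace Pool.Agent.P.MP_5a7e2f_gt.Ad

theorem adunif_cont (ρ : Measure ℝ) [IsProbabilityMeasure ρ] (h : ∀ x, ρ {x} = 0) :
    Continuous (ProbabilityTheory.cdf ρ) := by
  refine continuous_iff_continuousAt.2 fun x => ?_
  have hm := ProbabilityTheory.monotone_cdf ρ
  rw [hm.continuousAt_iff_leftLim_eq_rightLim, StieltjesFunction.rightLim_eq]
  have h1 := (ProbabilityTheory.cdf ρ).measure_singleton x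
  rw [ProbabilityTheory.measure_cdf, h x, eq_comm, ENNReal.ofReal_eq_zero] at h1
  exact le_antisymm (hm.leftLim_le le_rfl) (by linarith)

theorem adunif_lt (ρ : Measure ℝ) [IsProbabilityMeasure ρ] (h : ∀ x, ρ {x} = 0) {r : ℝ}
    (h1 : r ≤ 1) : ρ {x | ProbabilityTheory.cdf ρ x < r} = ENNReal.ofReal r := by
  have hc := adunif_cont ρ h
  have hm := ProbabilityTheory.monotone_cdf ρ
  by_cases ha : ∀ x, ProbabilityTheory.cdf ρ x < r
  · have h2 : 1 ≤ r := le_of_tendsto' (ProbabilityTheory.tendsto_cdf_atTop ρ) fun x => (ha x).le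
    rw [eq_univ_of_forall (s := {x | ProbabilityTheory.cdf ρ x < r}) ha, measure_univ,
      le_antisymm h1 h2, ENNReal.ofReal_one]
  by_cases hb : ∀ x, r ≤ ProbabilityTheory.cdf ρ x
  · have h2 : r ≤ 0 := ge_of_tendsto' (ProbabilityTheory.tendsto_cdf_atBot ρ) hb
    rw [eq_empty_of_forall_notMem (s := {x | ProbabilityTheory.cdf ρ x < r})
      fun x hx => absurd (hb x) (not_le.2 hx), measure_empty, ENNReal.ofReal_eq_zero.2 h2]
  push Not at ha hb
  obtain ⟨x2, hx2⟩ := hb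
  have hcl : IsClosed {x | r ≤ ProbabilityTheory.cdf ρ x} := isClosed_le continuous_const hc
  have hbd : BddBelow {x | r ≤ ProbabilityTheory.cdf ρ x} := ⟨x2, fun x hx => by
    by_contra hlt
    exact absurd (hx2.trans_le hx) (not_lt.2 (hm (not_le.1 hlt).le))⟩
  obtain ⟨x0, hx0, hlow⟩ : ∃ x0, r ≤ ProbabilityTheory.cdf ρ x0 ∧
      ∀ x, r ≤ ProbabilityTheory.cdf ρ x → x0 ≤ x :=
    ⟨_, hcl.csInf_mem ha hbd, fun x hx => csInf_le hbd hx⟩
  have h20 : x2 ≤ x0 := by
    by_contra hlt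
    exact absurd (hx2.trans_le hx0) (not_lt.2 (hm (not_le.1 hlt).le))
  obtain ⟨x, hx, e⟩ := intermediate_value_Icc h20 hc.continuousOn ⟨hx2.le, hx0⟩
  have e0 : x = x0 := le_antisymm hx.2 (hlow x e.ge)
  have hA : {x | ProbabilityTheory.cdf ρ x < r} = Iio x0 := by
    ext y
    simp only [mem_ofPred_eq, mem_Iio]
    constructor
    · intro hy
      by_contra hlt
      exact absurd (hy.trans_le hx0) (not_lt.2 (hm (not_lt.1 hlt)))
    · intro hy
      by_contra hlt
      exact absurd hy (not_lt.2 (hlow y (not_lt.1 hlt)))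
  rw [hA, ← e, e0, ProbabilityTheory.ofReal_cdf, ← Iic_sdiff_right, measure_sdiff_null (h x0)]

theorem exists_unif : ∃ U : TT → ℝ≥0∞, Measurable U ∧ ∀ p ≤ 1, lam {t | U t < p} = p := by
  obtain ⟨e, he⟩ := exists_measurableEmbedding_real TT
  have : IsProbabilityMeasure (lam.map e) :=
    Measure.isProbabilityMeasure_map he.measurable.aemeasurable
  have h0 : ∀ x, lam.map e {x} = 0 := by
    intro x
    rw [he.map_apply]
    rcases (subsingleton_singleton.preimage he.injective).eq_empty_or_singleton with h | ⟨t, h⟩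
    · rw [h, measure_empty]
    · rw [h, lam_singleton]
  refine ⟨fun t => ENNReal.ofReal (ProbabilityTheory.cdf (lam.map e) (e t)),
    (((adunif_cont _ h0).measurable).comp he.measurable).ennreal_ofReal, fun p hp => ?_⟩
  have hp' : p ≠ ⊤ := ne_top_of_le_ne_top ENNReal.one_ne_top hp
  have h1 := adunif_lt (lam.map e) h0 (r := p.toReal) (ENNReal.toReal_le_of_le_ofReal zero_le_one
    (by simpa using hp))
  rw [he.map_apply, ENNReal.ofReal_toReal hp'] at h1
  rw [← h1]
  congr 1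
  ext t
  simp only [mem_ofPred_eq, mem_preimage]
  rw [h1, ENNReal.ofReal_lt_iff_lt_toReal (ProbabilityTheory.cdf_nonneg _ _) hp']

end Pool.Agent.P.MP_5a7e2f_gt.Ad
end

-- part Pool.Agent.P.MP_5a7e2f_gt.AdRep
section

set_option autoImplicit false
set_option linter.unusedSectionVars false

open Set Filter Topology MeasureTheory TopologicalSpace
open scoped ENNReal Cardinal

namespace Pool.Agent.P.MP_5a7e2f_gt.Ad

/-- the pattern of membership in the sets with index below `b` -/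
def rep_cut {S : Type} (D : II → Set S) (b : II) (s : S) (i : II) : Prop := i < b ∧ s ∈ D i

theorem rep_cut_meas {S : Type} [MeasurableSpace S] {D : II → Set S} {b : II}
    (h : ∀ i < b, MeasurableSet (D i)) : Measurable (rep_cut D b) := by
  refine measurable_pi_lambda _ (fun i => ?_)
  by_cases hi : i < b
  · simpa [rep_cut, hi] using h i hi
  · simp [rep_cut, hi]

/-- basic sets of patterns -/
def rep_box (F : Finset II) : Set (II → Prop) := ⋂ i ∈ F, {x | x i}

theorem rep_box_meas (F : Finset II) : MeasurableSet (rep_box F) :=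
  Finset.measurableSet_biInter F (fun i _ => (measurable_pi_apply i).setOf)

theorem rep_pre {S : Type} (D : II → Set S) {b : II} {F : Finset II} (h : ∀ i ∈ F, i < b) :
    rep_cut D b ⁻¹' rep_box F = ⋂ i ∈ F, D i := by
  ext s
  simp only [rep_box, rep_cut, mem_preimage, mem_iInter, mem_setOf_eq]
  exact ⟨fun H i hi => (H i hi).2, fun H i hi => ⟨h i hi, H i hi⟩⟩

theorem rep_pre' {S : Type} (D : II → Set S) {b : II} {F : Finset II} (h : ¬ ∀ i ∈ F, i < b) :
    rep_cut D b ⁻¹' rep_box F = ∅ := by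
  refine eq_empty_of_forall_notMem (fun s hs => h (fun i hi => ?_))
  simp only [rep_box, rep_cut, mem_preimage, mem_iInter, mem_setOf_eq] at hs
  exact (hs i hi).1

theorem rep_ext {ν ν' : Measure (II → Prop)} [IsFiniteMeasure ν]
    (h : ∀ F, ν (rep_box F) = ν' (rep_box F)) : ν = ν' := by
  classical
  refine ext_of_generate_finite (range rep_box) ?_ ?_ ?_ ?_
  · refine le_antisymm ?_ (MeasurableSpace.generateFrom_le ?_)
    · refine iSup_le (fun i => ?_)
      letI : MeasurableSpace (II → Prop) := MeasurableSpace.generateFrom (range rep_box)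
      have h1 : MeasurableSet {x : II → Prop | x i} :=
        MeasurableSpace.measurableSet_generateFrom ⟨{i}, by simp [rep_box]⟩
      exact (measurableSet_setOfPred.1 h1).comap_le
    · rintro _ ⟨F, rfl⟩
      exact rep_box_meas F
  · rintro _ ⟨F, rfl⟩ _ ⟨G, rfl⟩ _
    exact ⟨F ∪ G, by unfold rep_box; rw [Finset.set_biInter_inter]⟩
  · rintro _ ⟨F, rfl⟩
    exact h F
  · simpa [rep_box] using h ∅

theorem rep_law {S S' : Type} [MeasurableSpace S] [MeasurableSpace S'] {μ : Measure S}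
    {μ' : Measure S'} [IsFiniteMeasure μ'] {D : II → Set S} {D' : II → Set S'}
    (hD : ∀ i, MeasurableSet (D i)) (hD' : ∀ i, MeasurableSet (D' i)) {b : II}
    (h : ∀ F : Finset II, (∀ i ∈ F, i < b) → μ' (⋂ i ∈ F, D' i) = μ (⋂ i ∈ F, D i)) :
    μ'.map (rep_cut D' b) = μ.map (rep_cut D b) := by
  refine rep_ext (fun F => ?_)
  rw [Measure.map_apply (rep_cut_meas fun i _ => hD' i) (rep_box_meas F),
    Measure.map_apply (rep_cut_meas fun i _ => hD i) (rep_box_meas F)]
  by_cases hF : ∀ i ∈ F, i < b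
  · rw [rep_pre _ hF, rep_pre _ hF, h F hF]
  · rw [rep_pre' _ hF, rep_pre' _ hF, measure_empty, measure_empty]

theorem rep_cond {S : Type} [MeasurableSpace S] (μ : Measure S) [IsProbabilityMeasure μ]
    {D : II → Set S} (hD : ∀ i, MeasurableSet (D i)) (b : II) :
    ∃ q : (II → Prop) → ℝ≥0∞, Measurable q ∧ (∀ x, q x ≤ 1) ∧ ∀ A, MeasurableSet A →
      ∫⁻ x in A, q x ∂(μ.map (rep_cut D b)) = μ (rep_cut D b ⁻¹' A ∩ D b) := by
  have hm : Measurable (rep_cut D b) := rep_cut_meas fun i _ => hD i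
  have hle : (μ.restrict (D b)).map (rep_cut D b) ≤ μ.map (rep_cut D b) :=
    Measure.map_mono Measure.restrict_le_self hm
  refine ⟨fun x => min (((μ.restrict (D b)).map (rep_cut D b)).rnDeriv (μ.map (rep_cut D b)) x) 1,
    (Measure.measurable_rnDeriv _ _).min measurable_const, fun x => min_le_right _ _,
    fun A hA => ?_⟩
  rw [← Measure.restrict_apply (hm hA), ← Measure.map_apply hm hA,
    ← Measure.setLIntegral_rnDeriv' hle.absolutelyContinuous hA]
  refine lintegral_congr_ae (ae_restrict_of_ae ?_)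
  filter_upwards [Measure.rnDeriv_le_one_of_le hle] with x hx
  exact min_eq_left hx

open Classical in
theorem rep_update (b : II) :
    ((Measure.infinitePi (fun _ : II => lam)).prod lam).map
      (fun p : (II → TT) × TT => Function.update p.1 b p.2)
      = Measure.infinitePi (fun _ : II => lam) := by
  refine Measure.eq_infinitePi _ (fun s t ht => ?_)
  rw [Measure.map_apply measurable_update'
    (MeasurableSet.pi s.countable_toSet (fun i _ => ht i))]
  by_cases hb : b ∈ s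
  · have e : (fun p : (II → TT) × TT => Function.update p.1 b p.2) ⁻¹' Set.pi s t
        = Set.pi (s.erase b) t ×ˢ t b := by
      ext ⟨w, u⟩
      simp only [mem_preimage, Set.mem_pi, Finset.mem_coe, mem_prod, Finset.mem_erase]
      constructor
      · intro h
        refine ⟨fun i hi => ?_, ?_⟩
        · simpa [Function.update_of_ne hi.1] using h i hi.2
        · simpa using h b hb
      · rintro ⟨h1, h2⟩ i hi
        by_cases hib : i = b
        · subst hib; simpa using h2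
        · simpa [Function.update_of_ne hib] using h1 i ⟨hib, hi⟩
    rw [e, Measure.prod_prod, Measure.infinitePi_pi _ (fun i _ => ht i),
      Finset.prod_erase_mul _ _ hb]
  · have e : (fun p : (II → TT) × TT => Function.update p.1 b p.2) ⁻¹' Set.pi s t
        = Set.pi s t ×ˢ univ := by
      ext ⟨w, u⟩
      simp only [mem_preimage, Set.mem_pi, Finset.mem_coe, mem_prod, mem_univ, and_true]
      refine forall₂_congr (fun i hi => ?_)
      rw [Function.update_of_ne (fun h : i = b => hb (h ▸ hi))]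
    rw [e, Measure.prod_prod, Measure.infinitePi_pi _ (fun i _ => ht i), measure_univ, mul_one]

open Classical in
theorem rep_indep {U : TT → ℝ≥0∞} (hU : Measurable U) (hU' : ∀ p ≤ 1, lam {t | U t < p} = p)
    (b : II) {B : Set (II → TT)} (hB : MeasurableSet B) {r : (II → TT) → ℝ≥0∞}
    (hr : Measurable r) (hr1 : ∀ w, r w ≤ 1)
    (iB : ∀ w u, Function.update w b u ∈ B ↔ w ∈ B)
    (ir : ∀ w u, r (Function.update w b u) = r w) :
    Measure.infinitePi (fun _ : II => lam) (B ∩ {w | U (w b) < r w})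
      = ∫⁻ w in B, r w ∂(Measure.infinitePi (fun _ : II => lam)) := by
  have hE : MeasurableSet (B ∩ {w | U (w b) < r w}) :=
    hB.inter (measurableSet_lt (hU.comp (measurable_pi_apply b)) hr)
  conv_lhs => rw [← rep_update b]
  rw [Measure.map_apply measurable_update' hE, Measure.prod_apply (measurable_update' hE),
    ← lintegral_indicator hB]
  refine lintegral_congr (fun w => ?_)
  by_cases hw : w ∈ B
  · rw [indicator_of_mem hw, ← hU' _ (hr1 w)]
    congr 1
    ext u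
    simp [iB, ir, hw]
  · rw [indicator_of_notMem hw]
    convert measure_empty (μ := lam)
    ext u
    simp [iB, hw]

theorem rep {S : Type} [MeasurableSpace S] (μ : Measure S) [IsProbabilityMeasure μ]
    (D : II → Set S) (hD : ∀ i, MeasurableSet (D i)) :
    ∃ D' : II → Set (II → TT), (∀ i, MeasurableSet (D' i)) ∧ ∀ F : Finset II,
      Measure.infinitePi (fun _ : II => lam) (⋂ i ∈ F, D' i) = μ (⋂ i ∈ F, D i) := by
  classical
  obtain ⟨U, hU, hU'⟩ := exists_unif
  choose q hq hq1 hqA using rep_cond μ hD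
  obtain ⟨D', hD'⟩ := rec_choice (∅ : Set (II → TT))
    (fun (b : II) g d => d = {w | U (w b) < q b (fun i => w ∈ g i)}) (fun b g => ⟨_, rfl⟩)
  have e : ∀ b, D' b = {w | U (w b) < q b (rep_cut D' b w)} := by
    intro b
    rw [hD' b]
    ext w
    have : (fun i => w ∈ (if i < b then D' i else ∅)) = rep_cut D' b w := by
      funext i
      by_cases hi : i < b <;> simp [rep_cut, hi]
    simp only [mem_setOf_eq, this]
  have hm : ∀ b, MeasurableSet (D' b) := by
    intro b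
    induction b using WellFoundedLT.induction with
    | ind b ih =>
      rw [e b]
      exact measurableSet_lt (hU.comp (measurable_pi_apply b)) ((hq b).comp (rep_cut_meas ih))
  have hu : ∀ g w u b, b ≤ g → rep_cut D' b (Function.update w g u) = rep_cut D' b w := by
    intro g w u b
    induction b using WellFoundedLT.induction with
    | ind b ih =>
      intro hb
      funext i
      by_cases hi : i < b
      · have h1 : i < g := lt_of_lt_of_le hi hb
        simp only [rep_cut, hi, true_and]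
        rw [e i]
        simp only [mem_setOf_eq]
        rw [ih i hi h1.le, Function.update_of_ne h1.ne]
      · simp [rep_cut, hi]
  have step : ∀ g, (∀ F : Finset II, (∀ i ∈ F, i < g) →
      Measure.infinitePi (fun _ : II => lam) (⋂ i ∈ F, D' i) = μ (⋂ i ∈ F, D i)) →
      ∀ F : Finset II, (∀ i ∈ F, i ≤ g) →
        Measure.infinitePi (fun _ : II => lam) (⋂ i ∈ F, D' i) = μ (⋂ i ∈ F, D i) := by
    intro g h F hF
    by_cases hg : g ∈ F
    swap
    · exact h F (fun i hi => lt_of_le_of_ne (hF i hi) (fun h1 => hg (h1 ▸ hi)))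
    have h1 : ∀ i ∈ F.erase g, i < g := fun i hi =>
      lt_of_le_of_ne (hF i (Finset.mem_of_mem_erase hi)) (Finset.ne_of_mem_erase hi)
    have hc : Measurable (rep_cut D' g) := rep_cut_meas (fun i _ => hm i)
    rw [← Finset.insert_erase hg, Finset.set_biInter_insert, Finset.set_biInter_insert,
      ← rep_pre D' h1, ← rep_pre D h1, inter_comm (D g), ← hqA g _ (rep_box_meas _),
      ← rep_law hD hm h, setLIntegral_map (rep_box_meas _) (hq g) hc, inter_comm, e g]
    exact rep_indep hU hU' g (hc (rep_box_meas _)) ((hq g).comp hc) (fun w => hq1 g _)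
      (fun w u => by simp only [mem_preimage, hu g w u g le_rfl])
      (fun w u => by simp only [Function.comp, hu g w u g le_rfl])
  have main : ∀ g, ∀ F : Finset II, (∀ i ∈ F, i ≤ g) →
      Measure.infinitePi (fun _ : II => lam) (⋂ i ∈ F, D' i) = μ (⋂ i ∈ F, D i) := by
    intro g
    induction g using WellFoundedLT.induction with
    | ind g ih =>
      refine step g (fun F hF => ?_)
      rcases F.eq_empty_or_nonempty with rfl | hne
      · simp
      · exact ih _ (hF _ (F.max'_mem hne)) F (fun i hi => F.le_max' i hi)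
  refine ⟨D', hm, fun F => ?_⟩
  rcases F.eq_empty_or_nonempty with rfl | hne
  · simp
  · exact main (F.max' hne) F (fun i hi => F.le_max' i hi)

end Pool.Agent.P.MP_5a7e2f_gt.Ad
end

-- part Pool.Agent.P.MP_5a7e2f_gt.AdPre
section

set_option autoImplicit false
set_option linter.unusedSectionVars false

open Set Filter Topology MeasureTheory TopologicalSpace
open scoped ENNReal Cardinal

namespace Pool.Agent.P.MP_5a7e2f_gt.Ad

/-- double currying -/
def pre_ev (x : ℕ × II × ℕ → Bool) : ℕ → II → TT := fun n b l => x (n, b, l)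

theorem pre_meas : Measurable pre_ev := by
  unfold pre_ev
  fun_prop

theorem pre_map : (coin (ℕ × II × ℕ)).map pre_ev =
    Measure.infinitePi fun _ : ℕ => Measure.infinitePi fun _ : II => lam := by
  have h1 := Measure.infinitePi_map_curry
    (fun (_ : ℕ) (_ : II × ℕ) => (PMF.uniformOfFintype Bool).toMeasure)
  have h2 := Measure.infinitePi_map_curry
    (fun (_ : II) (_ : ℕ) => (PMF.uniformOfFintype Bool).toMeasure)
  have h3 := Measure.infinitePi_map_pi
    (fun _ : ℕ => Measure.infinitePi fun _ : II × ℕ => (PMF.uniformOfFintype Bool).toMeasure)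
    (f := fun _ => MeasurableEquiv.curry II ℕ Bool)
    fun _ => (MeasurableEquiv.curry II ℕ Bool).measurable
  rw [← h1, Measure.map_map (by fun_prop) (by fun_prop)] at h3
  simp only [h2] at h3
  exact h3

theorem pre_null {X : Type} [MeasurableSpace X] (P : Measure X) [IsProbabilityMeasure P]
    {A : Set X} (hA : MeasurableSet A) (h0 : P A ≠ 0) :
    Measure.infinitePi (fun _ : ℕ => P) {y | ∀ n, y n ∉ A} = 0 := by
  have h : ∀ n : ℕ, Measure.infinitePi (fun _ : ℕ => P) {y | ∀ n, y n ∉ A} ≤ P Aᶜ ^ n := by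
    intro n
    have h1 : {y : ℕ → X | ∀ n, y n ∉ A} ⊆ Set.pi (Finset.range n) fun _ => Aᶜ :=
      fun y hy i _ => hy i
    refine (measure_mono h1).trans ?_
    rw [Measure.infinitePi_pi _ fun i _ => hA.compl]
    simp
  have h2 : P Aᶜ < 1 := by
    rw [prob_compl_eq_one_sub hA]
    exact ENNReal.sub_lt_self ENNReal.one_ne_top one_ne_zero h0
  exact le_antisymm (ge_of_tendsto' (ENNReal.tendsto_pow_atTop_nhds_zero_of_lt_one h2) h) zero_le

theorem pre_card1 : #(ℕ × II × ℕ) ≤ ℵ₁ := by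
  have h : ℵ₀ ≤ ℵ₁ := Cardinal.aleph0_lt_aleph_one.le
  simp only [Cardinal.mk_prod, Cardinal.lift_id, mk_II, Cardinal.mk_nat]
  rw [Cardinal.mul_eq_left h h Cardinal.aleph0_ne_zero,
    Cardinal.mul_eq_right h h Cardinal.aleph0_ne_zero]

theorem pre_card2 : #(II ⊕ ℕ × Finset II) ≤ ℵ₁ := by
  have h : ℵ₀ ≤ ℵ₁ := Cardinal.aleph0_lt_aleph_one.le
  simp only [Cardinal.mk_sum, Cardinal.mk_prod, Cardinal.lift_id, Cardinal.mk_finset_of_infinite,
    mk_II, Cardinal.mk_nat]
  rw [Cardinal.mul_eq_right h h Cardinal.aleph0_ne_zero, Cardinal.add_eq_self h]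

theorem pre_of_covP (h : CovP) : Pre := by
  intro S _ μ _ D hD h0
  obtain ⟨D', hm, hP⟩ := rep μ D hD
  set P : Measure (II → TT) := Measure.infinitePi fun _ : II => lam with hPdef
  have hF : ∀ F : Finset II, MeasurableSet (⋂ i ∈ F, D' i) := fun F =>
    F.measurableSet_biInter fun i _ => hm i
  let N : II ⊕ ℕ × Finset II → Set (ℕ × II × ℕ → Bool) := fun k =>
    match k with
    | .inl a => pre_ev ⁻¹' {y | ∀ n, y n ∉ D' a}
    | .inr (n, F) => {x | μ (⋂ i ∈ F, D i) = 0 ∧ pre_ev x n ∈ ⋂ i ∈ F, D' i}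
  have hN : ∀ k, coin (ℕ × II × ℕ) (N k) = 0 := by
    rintro (a | ⟨n, F⟩)
    · have h1 : MeasurableSet {y : ℕ → II → TT | ∀ n, y n ∉ D' a} := by
        rw [ofPred_forall]
        exact MeasurableSet.iInter fun n =>
          measurable_pi_apply (X := fun _ : ℕ => II → TT) n (hm a).compl
      refine (Measure.map_apply pre_meas h1).symm.trans ?_
      rw [pre_map]
      refine pre_null P (hm a) ?_
      have := hP {a}
      simp only [Finset.mem_singleton, iInter_iInter_eq_left] at this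
      rw [this]
      exact h0 a
    · by_cases h1 : μ (⋂ i ∈ F, D i) = 0
      · have h2 : N (.inr (n, F)) = pre_ev ⁻¹' ((fun y => y n) ⁻¹' ⋂ i ∈ F, D' i) := by
          ext x
          simp only [N, h1, true_and, mem_ofPred_eq, mem_preimage]
        rw [h2, ← Measure.map_apply pre_meas ((measurable_pi_apply n) (hF F)), pre_map,
          ← Measure.map_apply (measurable_pi_apply n) (hF F), Measure.infinitePi_map_eval, hP, h1]
      · have h2 : N (.inr (n, F)) = ∅ := by
          ext x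
          simp only [N, h1, false_and, mem_ofPred_eq, mem_empty_iff_false]
        rw [h2, measure_empty]
  obtain ⟨x, hx⟩ := h _ _ pre_card1 pre_card2 N hN
  have h1 : ∃ n, Unb {a | pre_ev x n ∈ D' a} := by
    by_contra h2
    simp only [Unb, not_exists, not_forall, not_and, mem_ofPred_eq] at h2
    choose β hβ using h2
    obtain ⟨δ, hδ⟩ := exists_bound (countable_range β)
    have h3 := hx (.inl δ)
    simp only [N, mem_preimage, mem_ofPred_eq, not_forall, not_not] at h3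
    obtain ⟨n, hn⟩ := h3
    exact hβ n δ hn (hδ _ (mem_range_self n))
  obtain ⟨n, hn⟩ := h1
  refine ⟨_, hn, fun F hF h2 => hx (.inr (n, F)) ⟨h2, ?_⟩⟩
  exact mem_iInter₂.2 hF

end Pool.Agent.P.MP_5a7e2f_gt.Ad
end

-- part Pool.Agent.P.MP_5a7e2f_gt.AdMax
section

set_option autoImplicit false
set_option linter.unusedSectionVars false

open Set Filter Topology MeasureTheory TopologicalSpace
open scoped ENNReal Cardinal

namespace Pool.Agent.P.MP_5a7e2f_gt.Ad

theorem maximal {S : Type} {m0 : MeasurableSpace S} (μ : Measure S) [IsFiniteMeasure μ]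
    (m : II → MeasurableSpace S) (hm : Monotone m) (hle : ∀ α, m α ≤ m0) {r : S → ℝ}
    (hr : Integrable r μ) (h0 : 0 ≤ᵐ[μ] r) {η : ℝ} (hη : 0 < η) (β : II) :
    η * μ.real (⋃ α ∈ Iic β, {s | η < (μ[r | m α]) s}) ≤ ∫ s, r s ∂μ := by
  set B : II → Set S := fun α => {s | η < (μ[r | m α]) s} with hB
  set A : II → Set S := fun α => B α \ ⋃ γ ∈ Iio α, B γ with hA
  have mB : ∀ α, MeasurableSet[m α] (B α) := fun α =>
    (stronglyMeasurable_condExp (m := m α) (μ := μ) (f := r)).measurable measurableSet_Ioi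
  have mA : ∀ α, MeasurableSet[m α] (A α) := fun α =>
    (mB α).diff (MeasurableSet.biUnion (countable_Iio α) fun γ hγ => hm (le_of_lt hγ) _ (mB γ))
  have mA0 : ∀ α, MeasurableSet[m0] (A α) := fun α => hle α _ (mA α)
  have dis : Pairwise (Function.onFun Disjoint fun a : Iic β => A a) := by
    have key : ∀ a b : II, a < b → Disjoint (A a) (A b) := fun a b h =>
      disjoint_left.2 fun s h1 h2 => h2.2 (mem_biUnion (show a ∈ Iio b from h) h1.1)
    intro a b hab
    rcases lt_or_gt_of_ne (Subtype.coe_injective.ne hab) with h | h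
    · exact key _ _ h
    · exact (key _ _ h).symm
  have un : (⋃ α ∈ Iic β, B α) = ⋃ a : Iic β, A a := by
    refine Subset.antisymm (fun s hs => ?_) (iUnion_subset fun a s hs => mem_biUnion a.2 hs.1)
    obtain ⟨α, h1, h2⟩ := mem_iUnion₂.1 hs
    obtain ⟨γ, h3, h4⟩ := wellFounded_lt.has_min {γ | s ∈ B γ} ⟨α, h2⟩
    refine mem_iUnion.2 ⟨⟨γ, (not_lt.1 (h4 α h2)).trans h1⟩, h3, fun h5 => ?_⟩
    obtain ⟨δ, h6, h7⟩ := mem_iUnion₂.1 h5
    exact h4 δ h7 h6
  have : Countable (Iic β) := by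
    rw [← Iio_insert]
    exact ((countable_Iio β).insert β).to_subtype
  have s1 := hasSum_integral_iUnion (μ := μ) (f := r) (fun a : Iic β => mA0 a) dis hr.integrableOn
  have s2 := hasSum_integral_iUnion (μ := μ) (f := fun _ => η) (fun a : Iic β => mA0 a) dis
    (integrable_const η).integrableOn
  have s3 := hasSum_le (fun a : Iic β => by
    rw [← setIntegral_condExp (hle a) hr (mA a)]
    exact setIntegral_mono_on (integrable_const η).integrableOn integrable_condExp.integrableOn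
      (mA0 a) fun s hs => le_of_lt hs.1) s2 s1
  rw [setIntegral_const, smul_eq_mul, mul_comm] at s3
  rw [un]
  exact s3.trans (setIntegral_le_integral hr h0)

end Pool.Agent.P.MP_5a7e2f_gt.Ad
end

-- part Pool.Agent.P.MP_5a7e2f_gt.AdType
section

set_option autoImplicit false
set_option linter.unusedSectionVars false

open Set Filter Topology MeasureTheory TopologicalSpace
open scoped ENNReal Cardinal

namespace Pool.Agent.P.MP_5a7e2f_gt.Ad

section ctype

variable {S : Type} [TopologicalSpace S]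

/-- the sigma-algebra generated by a family of continuous functions -/
@[reducible] def typeSig (C : Set C(S, ℝ)) : MeasurableSpace S :=
  ⨆ f ∈ C, MeasurableSpace.comap (fun s => f s) (inferInstance : MeasurableSpace ℝ)

theorem type_sig_mono {C C' : Set C(S, ℝ)} (h : C ⊆ C') : typeSig C ≤ typeSig C' :=
  iSup₂_le fun f hf => le_iSup₂_of_le f (h hf) le_rfl

theorem type_sig_meas {C : Set C(S, ℝ)} {f : C(S, ℝ)} (hf : f ∈ C) :
    Measurable[typeSig C] fun s => f s :=
  Measurable.mono (comap_measurable _) (le_iSup₂_of_le f hf le_rfl) le_rfl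

theorem type_sig_le_pr {C : Set C(S, ℝ)} {g : ℕ → C(S, ℝ)} (h : C ⊆ range g) :
    typeSig C ≤ MeasurableSpace.comap (pr g) (inferInstance : MeasurableSpace (ℕ → ℝ)) := by
  refine iSup₂_le fun f hf => ?_
  obtain ⟨n, rfl⟩ := h hf
  have h1 : (fun s => g n s) = (fun x : ℕ → ℝ => x n) ∘ pr g := rfl
  rw [h1, ← MeasurableSpace.comap_comp]
  exact MeasurableSpace.comap_mono (measurable_pi_apply n).comap_le

theorem type_sig_le [m0 : MeasurableSpace S] [BorelSpace S] (C : Set C(S, ℝ)) :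
    typeSig C ≤ m0 :=
  iSup₂_le fun f _ => f.continuous.measurable.comap_le

theorem type_int [CompactSpace S] [MeasurableSpace S] [BorelSpace S] (μ : Measure S)
    [IsFiniteMeasure μ] (f : C(S, ℝ)) : Integrable (fun s => f s) μ :=
  (BoundedContinuousFunction.mkOfCompact f).integrable μ

theorem type_pos {S : Type} [MeasurableSpace S] (μ : Measure S) {G : S → ℝ}
    (hG : Integrable G μ) (h0 : ∫ s, G s ∂μ = 0) (hne : ¬ G =ᵐ[μ] 0) :
    ∃ η : ℝ, 0 < η ∧ μ {s | 3 * η < G s} ≠ 0 := by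
  by_contra h
  push Not at h
  apply hne
  have h1 : ∀ n : ℕ, ∀ᵐ s ∂μ, G s ≤ 3 * (1 / ((n : ℝ) + 1)) := fun n => by
    have := h (1 / ((n : ℝ) + 1)) Nat.one_div_pos_of_nat
    rw [ae_iff]
    simpa only [not_le] using this
  have h2 : 0 ≤ᵐ[μ] fun s => -G s := by
    filter_upwards [ae_all_iff.2 h1] with s hs
    have h3 : Tendsto (fun n : ℕ => 3 * (1 / ((n : ℝ) + 1))) atTop (𝓝 (3 * 0)) :=
      tendsto_one_div_add_atTop_nhds_zero_nat.const_mul 3
    have h4 : G s ≤ 3 * 0 := ge_of_tendsto' h3 hs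
    simp only [Pi.zero_apply]
    linarith
  have h5 := (integral_eq_zero_iff_of_nonneg_ae h2 hG.neg).1 (by rw [integral_neg, h0, neg_zero])
  filter_upwards [h5] with s hs
  simpa using hs

/-- the step property of the recursion -/
def typeGood [MeasurableSpace S] (μ : Measure S) (C : Set C(S, ℝ)) (φ : C(S, ℝ)) : Prop :=
  ∃ (G : S → ℝ) (η : ℝ), Measurable G ∧ Integrable G μ ∧ 0 < η ∧
    (∀ P, MeasurableSet[typeSig C] P → ∫ s in P, G s ∂μ = 0) ∧
    2 * ∫ s, |φ s - G s| ∂μ < η * μ.real {s | 3 * η < G s}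

theorem type_step [CompactSpace S] [T2Space S] [m0 : MeasurableSpace S] [BorelSpace S]
    (μ : Measure S) [IsProbabilityMeasure μ] [μ.Regular]
    (h : ¬ ∃ g : ℕ → C(S, ℝ), CType μ g) {C : Set C(S, ℝ)} (hC : C.Countable) :
    ∃ φ, typeGood μ C φ := by
  obtain ⟨g, hg⟩ := (hC.insert 0).exists_eq_range (insert_nonempty _ _)
  have hsub : C ⊆ range g := hg ▸ subset_insert _ _
  have h1 : ¬ CType μ g := fun h2 => h ⟨g, h2⟩
  unfold CType at h1
  push Not at h1
  obtain ⟨f, hf⟩ := h1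
  have hle := type_sig_le (m0 := m0) C
  have hfi := type_int μ f
  set E : S → ℝ := μ[fun s => f s | typeSig C] with hE
  have hEm : StronglyMeasurable[typeSig C] E := stronglyMeasurable_condExp
  have hEi : Integrable E μ := integrable_condExp
  let G : S → ℝ := fun s => f s - E s
  have hGm : Measurable G := f.continuous.measurable.sub (hEm.mono hle).measurable
  have hGi : Integrable G μ := hfi.sub hEi
  have hG0 : ∀ P, MeasurableSet[typeSig C] P → ∫ s in P, G s ∂μ = 0 := fun P hP => by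
    simp only [G]
    rw [integral_sub hfi.integrableOn hEi.integrableOn, hE, setIntegral_condExp hle hfi hP,
      sub_self]
  have hne : ¬ G =ᵐ[μ] 0 := fun h3 => by
    obtain ⟨φ, h4, h5⟩ := (hEm.mono (type_sig_le_pr hsub)).exists_eq_measurable_comp
    refine hf φ h4.measurable ?_
    filter_upwards [h3] with s hs
    have h6 : E s = φ (pr g s) := congrFun h5 s
    simp only [G, Pi.zero_apply] at hs
    linarith
  have hz : ∫ s, G s ∂μ = 0 := by
    have := hG0 univ MeasurableSet.univ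
    rwa [Measure.restrict_univ] at this
  obtain ⟨η, hη, hc⟩ := type_pos μ hGi hz hne
  have hc' : 0 < μ.real {s | 3 * η < G s} :=
    ENNReal.toReal_pos hc (measure_ne_top _ _)
  obtain ⟨φ, hφ, -⟩ := hGi.exists_boundedContinuous_integral_sub_le
    (ε := η * μ.real {s | 3 * η < G s} / 4) (by positivity)
  refine ⟨φ.toContinuousMap, G, η, hGm, hGi, hη, hG0, ?_⟩
  have h7 : ∫ s, |φ.toContinuousMap s - G s| ∂μ = ∫ s, ‖G s - φ s‖ ∂μ := by
    refine integral_congr_ae (Eventually.of_forall fun s => ?_)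
    simp only [Real.norm_eq_abs]
    exact abs_sub_comm _ _
  rw [h7]
  have h8 : 0 < η * μ.real {s | 3 * η < G s} := mul_pos hη hc'
  linarith

end ctype

theorem ctype_of_not_free (hP : Pre) {S : Type} [TopologicalSpace S] [CompactSpace S] [T2Space S]
    [MeasurableSpace S] [BorelSpace S] (μ : Measure S) [IsProbabilityMeasure μ] [μ.Regular]
    (h : ¬ FreeP μ) : ∃ g : ℕ → C(S, ℝ), CType μ g := by
  classical
  rename_i m0 _ _ _
  by_contra hg
  apply h
  obtain ⟨φ, hφ⟩ := rec_choice (I := II) (0 : C(S, ℝ))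
    (fun i g d => typeGood μ (g '' Iio i) d)
    fun i g => type_step μ hg ((countable_Iio i).image _)
  have hφ' : ∀ i, typeGood μ (φ '' Iio i) (φ i) := fun i => by
    have h1 : (fun j => if j < i then φ j else 0) '' Iio i = φ '' Iio i :=
      image_congr fun j hj => if_pos hj
    have := hφ i
    rwa [h1] at this
  choose G η hGm hGi hη hG0 hlt using hφ'
  let m : II → MeasurableSpace S := fun b => typeSig (φ '' Iio b)
  have hm : Monotone m := fun a b hab => type_sig_mono (image_mono (Iio_subset_Iio hab))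
  have hle : ∀ b, m b ≤ m0 := fun b => type_sig_le (m0 := m0) _
  let r : II → S → ℝ := fun i s => |φ i s - G i s|
  have hri : ∀ i, Integrable (r i) μ := fun i => ((type_int μ (φ i)).sub (hGi i)).abs
  have hrm : ∀ i, Measurable (r i) := fun i =>
    continuous_abs.measurable.comp ((φ i).continuous.measurable.sub (hGm i))
  have hr0 : ∀ i, 0 ≤ᵐ[μ] r i := fun i => Eventually.of_forall fun s => abs_nonneg _
  have hcm : ∀ i a, MeasurableSet[m a] {s | η i < (μ[r i | m a]) s} := fun i a =>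
    (stronglyMeasurable_condExp (μ := μ) (m := m a) (f := r i)).measurable measurableSet_Ioi
  have hIic : ∀ i : II, (Iic i).Countable := fun i => by
    rw [← Iio_insert]; exact (countable_Iio i).insert i
  let B : II → Set S := fun i =>
    {s | η i ≤ r i s} ∪ ⋃ a ∈ Iic i, {s | η i < (μ[r i | m a]) s}
  let D : II → Set S := fun i => {s | 3 * η i < G i s} \ B i
  have hBm : ∀ i, MeasurableSet (B i) := fun i =>
    (hrm i measurableSet_Ici).union
      (MeasurableSet.biUnion (hIic i) fun a _ => hle a _ (hcm i a))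
  have hDm : ∀ i, MeasurableSet (D i) := fun i => (hGm i measurableSet_Ioi).diff (hBm i)
  have hD0 : ∀ i, μ (D i) ≠ 0 := fun i h0 => by
    have h1 := mul_meas_ge_le_integral_of_nonneg (hr0 i) (hri i) (η i)
    have h2 := maximal μ m hm hle (hri i) (hr0 i) (hη i) i
    have h3 : μ.real (B i) ≤ μ.real {s | η i ≤ r i s} +
        μ.real (⋃ a ∈ Iic i, {s | η i < (μ[r i | m a]) s}) := measureReal_union_le _ _
    have h4 : μ.real {s | 3 * η i < G i s} ≤ μ.real (D i) + μ.real (B i) := by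
      refine le_trans (measureReal_mono ?_) (measureReal_union_le _ _)
      intro s hs
      by_cases hb : s ∈ B i
      · exact Or.inr hb
      · exact Or.inl ⟨hs, hb⟩
    have h5 : μ.real (D i) = 0 := by rw [measureReal_def, h0, ENNReal.toReal_zero]
    have h6 := hlt i
    have h7 : η i * μ.real {s | 3 * η i < G i s} ≤ η i * (μ.real {s | η i ≤ r i s} +
        μ.real (⋃ a ∈ Iic i, {s | η i < (μ[r i | m a]) s})) :=
      mul_le_mul_of_nonneg_left (by linarith) (hη i).le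
    have h8 : ∫ s, r i s ∂μ = ∫ s, |φ i s - G i s| ∂μ := rfl
    linarith
  obtain ⟨Γ, hΓ, hF⟩ := hP S μ D hDm hD0
  refine ⟨Γ, fun i => (η i)⁻¹ • φ i, 1, 2, hΓ, one_lt_two, fun j _ F F' h1 h2 => ?_⟩
  let P : Set S := (⋂ i ∈ F, {s | 2 * η i < φ i s}) ∩ ⋂ i ∈ F', {s | η i < (μ[r i | m j]) s}ᶜ
  have hPm : MeasurableSet[m j] P := by
    refine MeasurableSet.inter (Finset.measurableSet_biInter F fun i hi => ?_)
      (Finset.measurableSet_biInter F' fun i _ => (hcm i j).compl)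
    exact type_sig_meas (C := φ '' Iio j) (mem_image_of_mem φ (h1 i hi).2) measurableSet_Ioi
  have hPm0 : MeasurableSet P := hle j _ hPm
  have hsub : (⋂ i ∈ F ∪ F', D i) ⊆ P := by
    intro s hs
    simp only [mem_iInter] at hs
    refine ⟨mem_iInter₂.2 fun i hi => ?_, mem_iInter₂.2 fun i hi => ?_⟩
    · obtain ⟨h3, h4⟩ := hs i (Finset.mem_union_left _ hi)
      have h5 : ¬ η i ≤ r i s := fun h6 => h4 (Or.inl h6)
      have h7 : |φ i s - G i s| < η i := not_le.1 h5
      have h8 := (abs_lt.1 h7).1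
      have h9 : 3 * η i < G i s := h3
      show 2 * η i < φ i s
      linarith
    · obtain ⟨-, h4⟩ := hs i (Finset.mem_union_right _ hi)
      exact fun h5 => h4 (Or.inr (mem_biUnion (show j ∈ Iic i from (h2 i hi).2.le) h5))
  have hsm : ∀ i, ∫ s in P, ((η i)⁻¹ • φ i) s ∂μ = (η i)⁻¹ * ∫ s in P, φ i s ∂μ := fun i => by
    rw [← integral_const_mul]
    rfl
  refine ⟨P, hPm0, fun h0 => hF (F ∪ F') (fun i hi => ?_) (measure_mono_null hsub h0),
    fun i hi => ?_, fun i hi => ?_⟩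
  · rcases Finset.mem_union.1 hi with h3 | h3
    · exact (h1 i h3).1
    · exact (h2 i h3).1
  · have h3 : 2 * η i * μ.real P ≤ ∫ s in P, φ i s ∂μ :=
      setIntegral_ge_of_const_le_real hPm0 (measure_ne_top _ _)
        (fun s hs => le_of_lt (mem_iInter₂.1 hs.1 i hi)) (type_int μ (φ i)).integrableOn
    rw [hsm, ← div_eq_inv_mul, le_div_iff₀ (hη i)]
    linarith
  · have h3 : ∫ s in P, φ i s ∂μ ≤ ∫ s in P, (G i s + r i s) ∂μ := by
      refine setIntegral_mono_on (type_int μ (φ i)).integrableOn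
        ((hGi i).add (hri i)).integrableOn hPm0 fun s _ => ?_
      have := le_abs_self (φ i s - G i s)
      simp only [r]
      linarith
    rw [integral_add (hGi i).integrableOn (hri i).integrableOn,
      hG0 i P (hm (h2 i hi).2.le _ hPm), zero_add,
      ← setIntegral_condExp (hle j) (hri i) hPm] at h3
    have h4 : ∫ s in P, (μ[r i | m j]) s ∂μ ≤ ∫ _ in P, η i ∂μ :=
      setIntegral_mono_on integrable_condExp.integrableOn (integrable_const _).integrableOn hPm0
        fun s hs => not_lt.1 (mem_iInter₂.1 hs.2 i hi)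
    rw [setIntegral_const, smul_eq_mul] at h4
    rw [hsm, ← div_eq_inv_mul, div_le_iff₀ (hη i)]
    linarith

end Pool.Agent.P.MP_5a7e2f_gt.Ad
end

-- part Pool.Agent.P.MP_5a7e2f_gt.AdFree
section

set_option autoImplicit false
set_option linter.unusedSectionVars false

open Set Filter Topology MeasureTheory TopologicalSpace
open scoped ENNReal Cardinal

namespace Pool.Agent.P.MP_5a7e2f_gt.Ad

theorem free_regularize {S : Type} [TopologicalSpace S] [CompactSpace S] [T2Space S]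
    [MeasurableSpace S] [BorelSpace S] (ν : ProbabilityMeasure S) :
    ∃ ν' : PR S, ∀ g : BoundedContinuousFunction S ℝ,
      ∫ x, g x ∂(ν : Measure S) = ∫ x, g x ∂(ν'.1 : Measure S) := by
  obtain ⟨ρ, h1, h2, h3⟩ := Measure.exists_regular_eq_of_compactSpace (ν : Measure S)
  have h4 : IsProbabilityMeasure ρ := by
    have h5 := h3 1
    simp only [BoundedContinuousFunction.coe_one, Pi.one_apply, integral_const, probReal_univ,
      smul_eq_mul, mul_one] at h5
    refine ⟨?_⟩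
    rw [← ENNReal.toReal_eq_one_iff]
    exact h5.symm
  exact ⟨⟨⟨ρ, h4⟩, h1⟩, h3⟩

theorem compactSpace_PR (S : Type) [TopologicalSpace S] [CompactSpace S] [T2Space S]
    [MeasurableSpace S] [BorelSpace S] : CompactSpace (PR S) := by
  refine ⟨isCompact_iff_ultrafilter_le_nhds.2 fun F _ => ?_⟩
  obtain ⟨ν, -, hν⟩ := isCompact_iff_ultrafilter_le_nhds.1
    (isCompact_univ (X := ProbabilityMeasure S)) (F.map Subtype.val) (by simp)
  obtain ⟨ν', h'⟩ := free_regularize ν
  refine ⟨ν', mem_univ _, ?_⟩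
  have h1 : Tendsto (fun σ : PR S => σ.1) F (𝓝 ν) := hν
  have h2 : Tendsto (fun σ : PR S => σ.1) F (𝓝 ν'.1) := by
    refine ProbabilityMeasure.tendsto_iff_forall_integral_tendsto.2 fun f => ?_
    rw [← h' f]
    exact ProbabilityMeasure.tendsto_iff_forall_integral_tendsto.1 h1 f
  exact tendsto_subtype_rng.2 h2

theorem free_cont {S : Type} [TopologicalSpace S] [CompactSpace S] [T2Space S]
    [MeasurableSpace S] [BorelSpace S] (f : C(S, ℝ)) :
    Continuous fun ν : PR S => ∫ s, f s ∂(ν.1 : Measure S) :=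
  (ProbabilityMeasure.continuous_integral_boundedContinuousFunction
    (BoundedContinuousFunction.mkOfCompact f)).comp continuous_subtype_val

theorem free_cond {S : Type} [TopologicalSpace S] [CompactSpace S] [T2Space S]
    [MeasurableSpace S] [BorelSpace S] (μ : Measure S) [IsProbabilityMeasure μ] [μ.Regular]
    {P : Set S} (h0 : μ P ≠ 0) :
    ∃ ν : PR S, ∀ f : C(S, ℝ),
      ∫ s, f s ∂(ν.1 : Measure S) = (μ.real P)⁻¹ * ∫ s in P, f s ∂μ := by
  have h1 : (μ.restrict P).Regular := Measure.Regular.restrict_of_measure_ne_top (measure_ne_top _ _)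
  have h2 : ((μ P)⁻¹ • μ.restrict P).Regular := Measure.Regular.smul (ENNReal.inv_ne_top.2 h0)
  have h3 : IsProbabilityMeasure ((μ P)⁻¹ • μ.restrict P) := ⟨by
    simp only [Measure.smul_apply, MeasurableSet.univ, Measure.restrict_apply, univ_inter,
      smul_eq_mul]
    exact ENNReal.inv_mul_cancel h0 (measure_ne_top _ _)⟩
  refine ⟨⟨⟨_, h3⟩, h2⟩, fun f => ?_⟩
  change ∫ s, f s ∂((μ P)⁻¹ • μ.restrict P) = _
  rw [integral_smul_measure, ENNReal.toReal_inv, smul_eq_mul]
  rfl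

theorem free_point {S : Type} [TopologicalSpace S] [CompactSpace S] [T2Space S]
    [MeasurableSpace S] [BorelSpace S] (μ : Measure S) [IsProbabilityMeasure μ] [μ.Regular]
    {Γ : Set II} {ψ : II → C(S, ℝ)} {a b : ℝ} {j : II}
    (h : ∀ F G : Finset II, (∀ i ∈ F, i ∈ Γ ∧ i < j) → (∀ i ∈ G, i ∈ Γ ∧ j < i) →
      ∃ P, MeasurableSet P ∧ μ P ≠ 0 ∧ (∀ i ∈ F, b * μ.real P ≤ ∫ s in P, ψ i s ∂μ) ∧
        ∀ i ∈ G, ∫ s in P, ψ i s ∂μ ≤ a * μ.real P) :
    ∃ ν : PR S, (∀ i ∈ Γ, i < j → b ≤ ∫ s, ψ i s ∂(ν.1 : Measure S)) ∧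
      ∀ i ∈ Γ, j < i → ∫ s, ψ i s ∂(ν.1 : Measure S) ≤ a := by
  classical
  have := compactSpace_PR S
  let t : II → Set (PR S) := fun i =>
    {ν | (i ∈ Γ ∧ i < j → b ≤ ∫ s, ψ i s ∂(ν.1 : Measure S)) ∧
      (i ∈ Γ ∧ j < i → ∫ s, ψ i s ∂(ν.1 : Measure S) ≤ a)}
  have htc : ∀ i, IsClosed (t i) := fun i => by
    refine IsClosed.and ?_ ?_
    · by_cases hi : i ∈ Γ ∧ i < j
      · simp only [hi, and_self, forall_const]
        exact isClosed_le continuous_const (free_cont _)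
      · simp only [hi, false_imp_iff]
        exact isClosed_const
    · by_cases hi : i ∈ Γ ∧ j < i
      · simp only [hi, and_self, forall_const]
        exact isClosed_le (free_cont _) continuous_const
      · simp only [hi, false_imp_iff]
        exact isClosed_const
  obtain ⟨ν, -, hν⟩ := (isCompact_univ (X := PR S)).inter_iInter_nonempty t htc fun u => by
    obtain ⟨P, -, h0, h1, h2⟩ := h (u.filter fun i => i ∈ Γ ∧ i < j)
      (u.filter fun i => i ∈ Γ ∧ j < i) (fun i hi => (Finset.mem_filter.1 hi).2)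
      (fun i hi => (Finset.mem_filter.1 hi).2)
    obtain ⟨ν, hν⟩ := free_cond μ h0
    have hp : 0 < μ.real P := ENNReal.toReal_pos h0 (measure_ne_top _ _)
    refine ⟨ν, mem_univ _, mem_iInter₂.2 fun i hi => ⟨fun hi' => ?_, fun hi' => ?_⟩⟩
    · rw [hν, ← div_eq_inv_mul, le_div_iff₀ hp]
      exact h1 i (Finset.mem_filter.2 ⟨hi, hi'⟩)
    · rw [hν, ← div_eq_inv_mul, div_le_iff₀ hp]
      exact h2 i (Finset.mem_filter.2 ⟨hi, hi'⟩)
  exact ⟨ν, fun i h1 h2 => (mem_iInter.1 hν i).1 ⟨h1, h2⟩,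
    fun i h1 h2 => (mem_iInter.1 hν i).2 ⟨h1, h2⟩⟩

theorem not_tight_of_free {S : Type} [TopologicalSpace S] [CompactSpace S] [T2Space S]
    [MeasurableSpace S] [BorelSpace S] (μ : Measure S) [IsProbabilityMeasure μ] [μ.Regular]
    (h : FreeP μ) : ¬ Tight S := by
  classical
  intro hT
  obtain ⟨Γ, ψ, a, b, hΓ, hab, h⟩ := h
  have := compactSpace_PR S
  choose ν hν1 hν2 using fun j : Γ => free_point μ (h j.1 j.2)
  let t : II → Set (PR S) := fun β => closure (ν '' {j | β < j.1})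
  obtain ⟨x, -, hx⟩ := (isCompact_univ (X := PR S)).inter_iInter_nonempty t
    (fun _ => isClosed_closure) fun u => by
      obtain ⟨δ, hδ⟩ := exists_bound u.countable_toSet
      obtain ⟨γ, h1, h2⟩ := hΓ δ
      exact ⟨ν ⟨γ, h1⟩, mem_univ _, mem_iInter₂.2 fun β hβ =>
        subset_closure ⟨⟨γ, h1⟩, (hδ β hβ).trans h2, rfl⟩⟩
  have hx' : ∀ β, x ∈ t β := mem_iInter.1 hx
  have hb : ∀ i ∈ Γ, b ≤ ∫ s, ψ i s ∂(x.1 : Measure S) := fun i hi => by
    have hc : IsClosed {σ : PR S | b ≤ ∫ s, ψ i s ∂(σ.1 : Measure S)} :=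
      isClosed_le continuous_const (free_cont _)
    refine hc.closure_subset_iff.2 ?_ (hx' i)
    rintro _ ⟨j, hj, rfl⟩
    exact hν1 j i hi hj
  obtain ⟨β₀⟩ : Nonempty II := inferInstance
  obtain ⟨B, hB1, hB2, hB3⟩ := hT _ x (hx' β₀)
  choose c _ hc2 using fun σ : B => hB1 σ.2
  have := hB2.to_subtype
  obtain ⟨δ, hδ⟩ := exists_bound (countable_range fun σ : B => (c σ).1)
  obtain ⟨i, hi, hi'⟩ := hΓ δ
  have hc : IsClosed {σ : PR S | ∫ s, ψ i s ∂(σ.1 : Measure S) ≤ a} :=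
    isClosed_le (free_cont _) continuous_const
  have ha : ∫ s, ψ i s ∂(x.1 : Measure S) ≤ a := by
    refine hc.closure_subset_iff.2 ?_ hB3
    intro σ hσ
    have h1 := hν2 (c ⟨σ, hσ⟩) i hi ((hδ _ ⟨⟨σ, hσ⟩, rfl⟩).trans hi')
    rwa [hc2] at h1
  exact absurd ((hb i hi).trans ha) (not_le.2 hab)

end Pool.Agent.P.MP_5a7e2f_gt.Ad
end

-- part Pool.Agent.P.MP_5a7e2f_gt.AdCap
section

set_option autoImplicit false
set_option linter.unusedSectionVars false

open Set Filter Topology MeasureTheory TopologicalSpace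
open scoped ENNReal Cardinal

namespace Pool.Agent.P.MP_5a7e2f_gt.Ad

/-- the set coded by a pair of finite index sets -/
def capSet {T : Type} (b : ℕ → Set T) (x : Finset ℕ × Finset ℕ) : Set T :=
  (⋃ i ∈ x.1, b i) \ ⋃ i ∈ x.2, b i

theorem cap_basis (T : Type) [TopologicalSpace T] [SecondCountableTopology T] :
    ∃ b : ℕ → Set T, (∀ n, IsOpen (b n)) ∧
      ∀ U, IsOpen U → ∀ t ∈ U, ∃ n, t ∈ b n ∧ b n ⊆ U := by
  obtain ⟨b, hb⟩ := ((countable_countableBasis T).insert ∅).exists_eq_range (insert_nonempty _ _)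
  refine ⟨b, fun n => ?_, fun U hU t ht => ?_⟩
  · have : b n ∈ insert ∅ (countableBasis T) := hb ▸ mem_range_self n
    rcases this with h | h
    · rw [h]; exact isOpen_empty
    · exact isOpen_of_mem_countableBasis h
  · obtain ⟨v, hv, h1, h2⟩ := (isBasis_countableBasis T).exists_subset_of_mem_open ht hU
    have : v ∈ range b := hb ▸ mem_insert_of_mem _ hv
    obtain ⟨n, rfl⟩ := this
    exact ⟨n, h1, h2⟩

theorem cap_pieces {T : Type} [TopologicalSpace T] [MeasurableSpace T] [BorelSpace T]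
    (ν : Measure T) [IsFiniteMeasure ν] {b : ℕ → Set T} (hb : ∀ n, IsOpen (b n))
    (hb' : ∀ U, IsOpen U → ∀ t ∈ U, ∃ n, t ∈ b n ∧ b n ⊆ U) {U : Set T} (hU : IsOpen U)
    {e : ℕ → ℝ≥0∞} (he : ∀ j, e j ≠ 0) (h0 : ν U ≤ e 0) :
    ∃ p : ℕ → Finset ℕ × Finset ℕ, (∀ j, ν (capSet b (p j)) ≤ e j) ∧
      U ⊆ ⋃ j, capSet b (p j) := by
  classical
  set s : ℕ → Finset ℕ := fun n => (Finset.range n).filter fun i => b i ⊆ U with hs
  set A : ℕ → Set T := fun n => ⋃ i ∈ s n, b i with hA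
  have hAU : ∀ n, A n ⊆ U := fun n =>
    iUnion₂_subset fun i hi => (Finset.mem_filter.1 hi).2
  have hAo : ∀ n, IsOpen (A n) := fun n => isOpen_biUnion fun i _ => hb i
  have hAm : Monotone A := fun m n hmn =>
    biUnion_subset_biUnion_left fun i hi => by
      have hi' := Finset.mem_filter.1 hi
      exact Finset.mem_filter.2 ⟨Finset.mem_range.2 ((Finset.mem_range.1 hi'.1).trans_le hmn), hi'.2⟩
  have hcov : ∀ t ∈ U, ∃ n, t ∈ A n := fun t ht => by
    obtain ⟨n, h1, h2⟩ := hb' U hU t ht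
    exact ⟨n + 1, mem_biUnion (Finset.mem_filter.2 ⟨Finset.self_mem_range_succ n, h2⟩) h1⟩
  have hlim : Tendsto (fun n => ν (U \ A n)) atTop (𝓝 0) := by
    have h1 : Antitone fun n => U \ A n := fun m n hmn => sdiff_subset_sdiff_right (hAm hmn)
    have h2 := tendsto_measure_iInter_atTop (μ := ν)
      (fun n => (hU.measurableSet.diff (hAo n).measurableSet).nullMeasurableSet) h1
      ⟨0, measure_ne_top _ _⟩
    have h3 : (⋂ n, U \ A n) = ∅ := eq_empty_of_forall_notMem fun t ht => by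
      rw [mem_iInter] at ht
      obtain ⟨n, hn⟩ := hcov t (ht 0).1
      exact (ht n).2 hn
    rw [h3, measure_empty] at h2
    exact h2
  have hn : ∀ j, ∃ n, j ≤ n ∧ (j = 0 → n = 0) ∧ ν (U \ A n) ≤ e j := fun j => by
    rcases Nat.eq_zero_or_pos j with rfl | hj
    · exact ⟨0, le_rfl, fun _ => rfl, (measure_mono sdiff_subset).trans h0⟩
    · have h1 := (hlim.eventually (eventually_le_nhds (pos_iff_ne_zero.2 (he j)))).and
        (eventually_ge_atTop j)
      obtain ⟨n, h2, h3⟩ := h1.exists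
      exact ⟨n, h3, fun h => absurd h hj.ne', h2⟩
  choose n hn1 hn2 hn3 using hn
  refine ⟨fun j => (s (n (j + 1)), s (n j)), fun j => ?_, fun t ht => ?_⟩
  · exact (measure_mono (sdiff_subset_sdiff_left (hAU (n (j + 1))))).trans (hn3 j)
  · have hex : ∃ j, t ∈ A (n j) := by
      obtain ⟨m, hm⟩ := hcov t ht
      exact ⟨m, hAm (hn1 m) hm⟩
    have h1 := Nat.find_spec hex
    have h2 : Nat.find hex ≠ 0 := fun h => by
      rw [h, hn2 0 rfl] at h1
      simp [hA, hs] at h1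
    obtain ⟨j, hj⟩ := Nat.exists_eq_succ_of_ne_zero h2
    have h3 : t ∉ A (n j) := Nat.find_min hex (by omega)
    rw [hj] at h1
    exact mem_iUnion.2 ⟨j, h1, h3⟩

theorem cap (h : Loc) {T : Type} [TopologicalSpace T] [SecondCountableTopology T]
    [MeasurableSpace T] [BorelSpace T] (ν : Measure T) [IsFiniteMeasure ν] [ν.OuterRegular]
    {ι : Type} (hι : #ι ≤ ℵ₁) (Q : ι → Set T) (hQ : ∀ i, MeasurableSet (Q i)) {ε : ℝ≥0∞}
    (hε : ε ≠ 0) : ∃ H, IsClosed H ∧ ν Hᶜ ≤ ε ∧ ∀ i, RelOpen (Q i) H := by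
  classical
  obtain ⟨b, hb, hb'⟩ := cap_basis T
  have hpow : ∀ m : ℕ, (2⁻¹ : ℝ≥0∞) ^ m ≠ 0 := fun m => pow_ne_zero _ (by norm_num)
  have key : ∀ i (k : ℕ), ∃ (V : Set T) (p : ℕ → Finset ℕ × Finset ℕ), IsOpen V ∧ Q i ⊆ V ∧
      (∀ j, ν (capSet b (p j)) ≤ 2⁻¹ ^ Nat.pair k j) ∧ V \ Q i ⊆ ⋃ j, capSet b (p j) := by
    intro i k
    obtain ⟨V, h1, h2, -, h3⟩ := (hQ i).exists_isOpen_sdiff_lt (measure_ne_top ν _)
      (hpow (Nat.pair k 0))
    obtain ⟨U, h4, h5, h6⟩ := Set.exists_isOpen_lt_of_lt _ _ h3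
    obtain ⟨p, h7, h8⟩ := cap_pieces ν hb hb' h5 (e := fun j => 2⁻¹ ^ Nat.pair k j)
      (fun j => hpow _) h6.le
    exact ⟨V, p, h2, h1, h7, h4.trans h8⟩
  choose V p hV1 hV2 hp1 hp2 using key
  obtain ⟨φ, hφ1, hφ2⟩ := h.gen hι fun i m => p i (Nat.unpair m).1 (Nat.unpair m).2
  have hlim := ENNReal.tendsto_sum_nat_add _ hφ1
  obtain ⟨J, hJ⟩ := (hlim.eventually (eventually_lt_nhds (pos_iff_ne_zero.2 hε))).exists
  set W : Set T := ⋃ m, ⋃ x ∈ (φ (m + J)).filter fun x => ν (capSet b x) ≤ 2⁻¹ ^ (m + J),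
    capSet b x with hW
  have hWε : ν W < ε := by
    refine lt_of_le_of_lt ((measure_iUnion_le _).trans (ENNReal.tsum_le_tsum fun m => ?_)) hJ
    refine (measure_biUnion_finset_le _ _).trans ?_
    refine (Finset.sum_le_card_nsmul _ _ (2⁻¹ ^ (m + J))
      fun x hx => (Finset.mem_filter.1 hx).2).trans ?_
    rw [nsmul_eq_mul]
    gcongr
    exact Finset.filter_subset _ _
  obtain ⟨W', h1, h2, h3⟩ := Set.exists_isOpen_lt_of_lt _ _ hWε
  refine ⟨W'ᶜ, h2.isClosed_compl, by rw [compl_compl]; exact h3.le, fun i t ht _ => ?_⟩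
  obtain ⟨k₀, hk₀⟩ := eventually_atTop.1 (hφ2 i)
  refine ⟨V i (max k₀ J), hV1 _ _, hV2 _ _ ht, fun y hy => ?_⟩
  by_contra hyQ
  obtain ⟨j, hj⟩ := mem_iUnion.1 (hp2 i (max k₀ J) ⟨hy.1, hyQ⟩)
  have hle : max k₀ J ≤ Nat.pair (max k₀ J) j := Nat.left_le_pair _ _
  have h4 := hk₀ _ ((le_max_left _ _).trans hle)
  rw [Nat.unpair_pair] at h4
  have h5 : Nat.pair (max k₀ J) j - J + J = Nat.pair (max k₀ J) j :=
    Nat.sub_add_cancel ((le_max_right _ _).trans hle)
  refine hy.2 (h1 (mem_iUnion.2 ⟨Nat.pair (max k₀ J) j - J, ?_⟩))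
  rw [h5]
  exact mem_biUnion (Finset.mem_filter.2 ⟨h4, hp1 _ _ _⟩) hj

theorem addN_of_loc (h : Loc) : AddN := by
  intro 𝒩 h1 h2
  refine le_antisymm (le_of_forall_gt_imp_ge_of_dense fun ε hε => ?_) zero_le
  obtain ⟨H, -, h3, h4⟩ := cap h lam h1 (fun N : 𝒩 => toMeasurable lam N.1)
    (fun N => measurableSet_toMeasurable _ _) hε.ne'
  have hsub : ⋃₀ 𝒩 ⊆ Hᶜ ∪ (H \ acc lam H) := by
    rintro t ⟨N, hN, ht⟩
    by_cases htH : t ∈ H
    · refine Or.inr ⟨htH, fun hacc => ?_⟩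
      obtain ⟨u, hu, htu, hsub⟩ := h4 ⟨N, hN⟩ t (subset_toMeasurable _ _ ht) htH
      refine hacc u hu htu (measure_mono_null hsub ?_)
      rw [measure_toMeasurable]
      exact h2 N hN
    · exact Or.inl htH
  refine (measure_mono hsub).trans ((measure_union_le _ _).trans ?_)
  rw [null_diff_acc, add_zero]
  exact h3

end Pool.Agent.P.MP_5a7e2f_gt.Ad
end

-- part Pool.Agent.P.MP_5a7e2f_gt.AdCore
section

set_option autoImplicit false
set_option linter.unusedSectionVars false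

open Set Filter Topology MeasureTheory TopologicalSpace
open scoped ENNReal Cardinal

namespace Pool.Agent.P.MP_5a7e2f_gt.Ad

/-- the second uncountable ordinal as a type -/
abbrev OO : Type := (Cardinal.aleph 2).ord.ToType

theorem core_succ : Order.succ (ℵ₁ : Cardinal.{0}) = Cardinal.aleph 2 := by
  rw [Cardinal.succ_aleph, one_add_one_eq_two]

theorem core_mk_Iio (x : OO) : #(Iio x) ≤ ℵ₁ := by
  rw [← Order.lt_succ_iff, core_succ]
  simpa using Cardinal.mk_Iio_lt x

theorem core_union_le {ι α : Type} (hι : #ι ≤ ℵ₁) (A : ι → Set α) (hA : ∀ i, #(A i) ≤ ℵ₁) :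
    #(⋃ i, A i) ≤ ℵ₁ := by
  refine Cardinal.mk_iUnion_le_sum_mk.trans ((Cardinal.sum_le_sum _ (fun _ => ℵ₁) hA).trans ?_)
  rw [Cardinal.sum_const']
  exact (mul_le_mul_left hι _).trans (Cardinal.mul_eq_self Cardinal.aleph0_lt_aleph_one.le).le

theorem core_bound {ι : Type} (hι : #ι ≤ ℵ₁) (f : ι → OO) : ∃ b, ∀ i, f i < b := by
  by_contra h
  push Not at h
  have h1 : #(⋃ i, Iic (f i)) ≤ ℵ₁ := core_union_le hι _ fun i => by
    rw [← Iio_insert]
    refine Cardinal.mk_insert_le.trans ((add_le_add (core_mk_Iio _)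
      Cardinal.one_lt_aleph0.le).trans ?_)
    exact (Cardinal.add_eq_left Cardinal.aleph0_lt_aleph_one.le
      Cardinal.aleph0_lt_aleph_one.le).le
  have h2 : (⋃ i, Iic (f i)) = univ := eq_univ_of_forall fun b => by
    obtain ⟨i, hi⟩ := h b
    exact mem_iUnion.2 ⟨i, hi⟩
  rw [h2, Cardinal.mk_univ, Cardinal.mk_ord_toType, ← core_succ] at h1
  exact absurd h1 (not_le.2 (Order.lt_succ _))

theorem core_bound' {C : Set OO} (hC : C.Countable) : ∃ b, ∀ c ∈ C, c < b := by
  obtain ⟨b, hb⟩ := core_bound (ι := C) ((Cardinal.le_aleph0_iff_set_countable.2 hC).trans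
    Cardinal.aleph0_lt_aleph_one.le) Subtype.val
  exact ⟨b, fun c hc => hb ⟨c, hc⟩⟩

instance : Nonempty OO := (core_bound' countable_empty).elim fun b _ => ⟨b⟩

/-- points of uncountable cofinality -/
def Good (x : OO) : Prop := ∀ C : Set OO, C.Countable → (∀ c ∈ C, c < x) → ∃ b < x, ∀ c ∈ C, c < b

theorem core_gt (i : II) : ∃ j, i < j := (exists_gt' i i).imp fun _ h => h.1

theorem core_good_sup (η : II → OO) (hη : ∀ i j, j < i → η j < η i) :
    ∃ x, Good x ∧ (∀ i, η i < x) ∧ ∀ y < x, ∃ i, y ≤ η i := by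
  have h := core_bound mk_II.le η
  have h1 : ∀ i, η i < wellFounded_lt.min {b | ∀ i, η i < b} h :=
    wellFounded_lt.min_mem {b | ∀ i, η i < b} h
  have h2 : ∀ y < wellFounded_lt.min {b | ∀ i, η i < b} h, ∃ i, y ≤ η i := fun y hy => by
    by_contra h3
    push Not at h3
    exact wellFounded_lt.not_lt_min {b | ∀ i, η i < b} h3 hy
  refine ⟨_, fun C hC h3 => ?_, h1, h2⟩
  choose! k hk using h2
  obtain ⟨i, hi⟩ := exists_bound (hC.image k)
  exact ⟨η i, h1 i, fun c hc => (hk c (h3 c hc)).trans_lt (hη _ _ (hi _ ⟨c, hc, rfl⟩))⟩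

theorem core_fodor (ρ : OO → OO) (hρ : ∀ x, Good x → ρ x < x) :
    ∃ r, ∀ b, ∃ x, Good x ∧ ρ x ≤ r ∧ r < x ∧ b < x := by
  by_contra h
  push Not at h
  choose B hB using h
  obtain ⟨η, -, hη⟩ := seq_II (fun _ : OO => True) (fun c d => c < d ∧ B c < d) fun C hC _ => by
    obtain ⟨b, hb⟩ := core_bound' (hC.union (hC.image B))
    exact ⟨b, trivial, fun c hc => ⟨hb c (Or.inl hc), hb _ (Or.inr ⟨c, hc, rfl⟩)⟩⟩
  obtain ⟨x, h1, h2, h3⟩ := core_good_sup η fun i j h => (hη i j h).1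
  obtain ⟨i, hi⟩ := h3 _ (hρ x h1)
  obtain ⟨j, hj⟩ := core_gt i
  exact absurd (hB _ x h1 hi (h2 i)) (not_le.2 ((hη j i hj).2.trans (h2 j)))

section objects

variable {T : Type}

/-- finite intersections of generators with index below `x` -/
def Ob (G : OO → Set (Set T)) (x : OO) : Set (Set T) :=
  {Q | ∃ l : List (Set T), (∀ a ∈ l, ∃ z < x, a ∈ G z) ∧ Q = ⋂ a ∈ l, a}

variable {G : OO → Set (Set T)} {H : OO → Set T} {x y : OO} {P Q : Set T}

theorem Ob.mono (h : Q ∈ Ob G x) (hxy : x ≤ y) : Q ∈ Ob G y := by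
  obtain ⟨l, h1, h2⟩ := h
  exact ⟨l, fun a ha => (h1 a ha).imp fun z hz => ⟨hz.1.trans_le hxy, hz.2⟩, h2⟩

theorem Ob.basic {z : OO} (hz : z < x) (h : Q ∈ G z) : Q ∈ Ob G x :=
  ⟨[Q], by simpa using ⟨z, hz, h⟩, by simp⟩

theorem Ob.inter (hP : P ∈ Ob G x) (hQ : Q ∈ Ob G x) : P ∩ Q ∈ Ob G x := by
  obtain ⟨l, h1, rfl⟩ := hP
  obtain ⟨l', h2, rfl⟩ := hQ
  refine ⟨l ++ l', fun a ha => (List.mem_append.1 ha).elim (h1 a) (h2 a), ?_⟩
  ext t
  simp [or_imp, forall_and]

theorem Ob.birth (hx : Good x) (h : Q ∈ Ob G x) : ∃ y < x, Q ∈ Ob G y := by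
  obtain ⟨l, h1, h2⟩ := h
  choose! z hz using h1
  obtain ⟨b, hb, h3⟩ := hx (z '' {a | a ∈ l}) ((l.finite_toSet.image z).countable)
    (by rintro _ ⟨a, ha, rfl⟩; exact (hz a ha).1)
  exact ⟨b, hb, l, fun a ha => ⟨z a, h3 _ ⟨a, ha, rfl⟩, (hz a ha).2⟩, h2⟩

theorem Ob.congr {G' : OO → Set (Set T)} (h : ∀ z < x, G z = G' z) (hQ : Q ∈ Ob G x) :
    Q ∈ Ob G' x := by
  obtain ⟨l, h1, h2⟩ := hQ
  refine ⟨l, fun a ha => ?_, h2⟩
  obtain ⟨z, h3, h4⟩ := h1 a ha
  exact ⟨z, h3, h z h3 ▸ h4⟩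

theorem Ob.card (hG : ∀ z, (G z).Countable) : #(Ob G x) ≤ ℵ₁ := by
  have h1 : #(⋃ z : Iio x, G z) ≤ ℵ₁ := core_union_le (core_mk_Iio x) _ fun z =>
    (Cardinal.le_aleph0_iff_set_countable.2 (hG z)).trans Cardinal.aleph0_lt_aleph_one.le
  have h2 : Ob G x ⊆ range fun l : List (⋃ z : Iio x, G z) => ⋂ a ∈ l.map Subtype.val, a := by
    rintro _ ⟨l, h3, rfl⟩
    refine ⟨l.attachWith _ fun a ha => ?_, by simp⟩
    obtain ⟨z, hz, h4⟩ := h3 a ha
    exact mem_iUnion.2 ⟨⟨z, hz⟩, h4⟩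
  refine (Cardinal.mk_le_mk_of_subset h2).trans (Cardinal.mk_range_le.trans
    ((Cardinal.mk_list_le_max _).trans (max_le Cardinal.aleph0_lt_aleph_one.le h1)))

theorem Ob.meas [MeasurableSpace T] (hG : ∀ z, ∀ a ∈ G z, MeasurableSet a) (h : Q ∈ Ob G x) :
    MeasurableSet Q := by
  obtain ⟨l, h1, rfl⟩ := h
  refine MeasurableSet.biInter l.finite_toSet.countable fun a ha => ?_
  obtain ⟨z, -, hz⟩ := h1 a ha
  exact hG z a hz

/-- objects with a tag at least `ρ` -/
def Tag (G : OO → Set (Set T)) (H : OO → Set T) (x ρ : OO) (P : Set T) : Prop :=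
  P ∈ Ob G x ∧ ∃ δ, ρ ≤ δ ∧ δ < x ∧ P ⊆ H δ

theorem Tag.mono {ρ ρ' : OO} (h : Tag G H x ρ P) (h' : ρ' ≤ ρ) : Tag G H x ρ' P :=
  ⟨h.1, h.2.imp fun _ k => ⟨h'.trans k.1, k.2⟩⟩

variable [TopologicalSpace T] [SecondCountableTopology T] [MeasurableSpace T] [BorelSpace T]
  {ν : Measure T} [IsProbabilityMeasure ν]

theorem core_eventually_null {R : II → Set T} (hm : ∀ i, MeasurableSet (R i))
    (hd : ∀ i j, j < i → Disjoint (R j) (R i)) : ∃ b, ∀ i, b ≤ i → ν (R i) = 0 := by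
  obtain ⟨b, hb⟩ := exists_bound (Measure.countable_meas_pos_of_disjoint_iUnion (μ := ν) hm
    fun i j hij => (lt_or_gt_of_ne hij).elim (hd j i) fun h => (hd i j h).symm)
  refine ⟨b, fun i hi => ?_⟩
  by_contra h
  exact absurd (hb i (pos_iff_ne_zero.2 h)) (not_lt.2 hi)

theorem core_L (hH : ∀ x, IsClosed (H x)) (hG : ∀ z, ∀ a ∈ G z, MeasurableSet a)
    (hR : ∀ x, ∀ Q ∈ Ob G x, RelOpen Q (H x) ∧ RelOpen (acc ν Q) (H x)) (hx : Good x)
    {A A' : Set T} (hA : Disjoint A A') :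
    ∃ ρ < x, ∀ P Q, Tag G H x ρ P → Tag G H x ρ Q → ν (P \ A) = 0 → ν (Q \ A') = 0 →
      ν (acc ν P ∩ acc ν Q) = 0 := by
  by_contra h
  push Not at h
  obtain ⟨d, h1, h2⟩ := seq_II (fun d : OO × Set T × Set T => d.1 < x ∧ d.2.1 ∈ Ob G d.1 ∧
      d.2.2 ∈ Ob G d.1 ∧ ν (d.2.1 \ A) = 0 ∧ ν (d.2.2 \ A') = 0 ∧
      ν (acc ν d.2.1 ∩ acc ν d.2.2) ≠ 0)
      (fun c d => (∃ δ, c.1 ≤ δ ∧ d.2.1 ⊆ H δ) ∧ ∃ δ, c.1 ≤ δ ∧ d.2.2 ⊆ H δ) fun C hC hok => by
    obtain ⟨ρ, hρ, k⟩ := hx _ (hC.image Prod.fst) (by rintro _ ⟨c, hc, rfl⟩; exact (hok c hc).1)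
    obtain ⟨P, Q, ⟨p1, δ, p2, -, p3⟩, ⟨q1, δ', q2, -, q3⟩, k1, k2, k3⟩ := h ρ hρ
    obtain ⟨y, hy, p4⟩ := Ob.birth hx p1
    obtain ⟨y', hy', q4⟩ := Ob.birth hx q1
    exact ⟨(max y y', P, Q), ⟨max_lt hy hy', Ob.mono p4 (le_max_left _ _),
      Ob.mono q4 (le_max_right _ _), k1, k2, k3⟩, fun c hc =>
      ⟨⟨δ, (k _ ⟨c, hc, rfl⟩).le.trans p2, p3⟩, δ', (k _ ⟨c, hc, rfl⟩).le.trans q2, q3⟩⟩
  have ha : ∀ i j, j < i → ∀ t ∈ acc ν (d i).2.2, t ∉ (d j).2.1 := fun i j hj t ht ht' => by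
    obtain ⟨δ, k1, k2⟩ := (h2 i j hj).2
    obtain ⟨u, u1, u2, u3⟩ := (hR δ _ (Ob.mono (h1 j).2.1 k1)).1 t ht' (acc_subset k2 (hH δ) ht)
    refine ht u u1 u2 (measure_mono_null (fun s hs => ?_)
      (measure_union_null (h1 j).2.2.2.1 (h1 i).2.2.2.2.1))
    by_cases h3 : s ∈ A
    · exact Or.inr ⟨hs.2, disjoint_left.1 hA h3⟩
    · exact Or.inl ⟨u3 ⟨hs.1, k2 hs.2⟩, h3⟩
  have hP : ∀ i, MeasurableSet (d i).2.1 := fun i => Ob.meas hG (h1 i).2.1
  obtain ⟨b, hb⟩ := core_eventually_null (ν := ν)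
    (R := fun i => (d i).2.1 \ ⋃ j ∈ Iio i, (d j).2.1)
    (fun i => (hP i).diff (MeasurableSet.biUnion (countable_Iio i) fun j _ => hP j))
    fun i j hj => disjoint_left.2 fun t h3 h4 => h4.2 (mem_biUnion hj h3.1)
  obtain ⟨i, j, hij, hi, t, h3, h4⟩ : ∃ i j, i < j ∧ b ≤ i ∧ ∃ t, t ∈ acc ν (d i).2.2 ∧
      t ∈ acc ν (d j).2.1 := by
    by_contra hc
    push Not at hc
    obtain ⟨b', hb'⟩ := core_eventually_null (ν := ν)
      (R := fun i => if b ≤ i then acc ν (d i).2.1 ∩ acc ν (d i).2.2 else ∅)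
      (fun i => by
        split_ifs
        exacts [(isClosed_acc.inter isClosed_acc).measurableSet, MeasurableSet.empty])
      fun i j hj => disjoint_left.2 fun t h3 h4 => by
        split_ifs at h3 h4 with h5 h6
        · exact hc j i hj h5 t h3.2 h4.1
        all_goals first | exact h4 | exact h3
    have := hb' (max b b') (le_max_right _ _)
    rw [if_pos (le_max_left _ _)] at this
    exact (h1 _).2.2.2.2.2 this
  obtain ⟨δ, k1, k2⟩ := (h2 j i hij).1
  obtain ⟨u, u1, u2, u3⟩ := (hR δ _ (Ob.mono (h1 i).2.2.1 k1)).2 t h3 (acc_subset k2 (hH δ) h4)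
  have hc : (Icc i j).Countable := ((countable_Iio j).insert j).mono fun k hk =>
    (eq_or_lt_of_le hk.2).elim Or.inl Or.inr
  refine h4 u u1 u2 (measure_mono_null (fun s hs => ?_)
    ((measure_biUnion_null_iff hc).2 fun k hk => hb k (hi.trans hk.1)))
  have h5 : ∃ k, s ∈ (d k).2.1 := ⟨j, hs.2⟩
  have h6 := wellFounded_lt.min_mem {k | s ∈ (d k).2.1} h5
  have h7 := fun k hk => wellFounded_lt.not_lt_min {k | s ∈ (d k).2.1} (x := k) hk
  refine mem_biUnion (x := wellFounded_lt.min {k | s ∈ (d k).2.1} h5)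
    ⟨not_lt.1 fun h8 => ha i _ h8 s (u3 ⟨hs.1, k2 hs.2⟩) h6, not_lt.1 (h7 j hs.2)⟩ ⟨h6, fun h8 => ?_⟩
  obtain ⟨k, h9, h10⟩ := mem_iUnion₂.1 h8
  exact h7 k h10 h9

theorem core_step (hH : ∀ x, IsClosed (H x)) (hG : ∀ z, ∀ a ∈ G z, MeasurableSet a)
    (hR : ∀ x, ∀ Q ∈ Ob G x, RelOpen Q (H x) ∧ RelOpen (acc ν Q) (H x)) (hx : Good x)
    {f : T → ℝ} (hf : Measurable f)
    (hE : ν ({t | f t ≤ 0} ∩ acc ν (H x ∩ {t | 3 / 4 ≤ f t})) ≠ 0) :
    ∃ ρ < x, ∀ γ < x, ∃ (ψ : T → ℝ) (δ : OO) (Z : Set T), (ψ = f ∨ ψ = fun t => 1 - f t) ∧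
      γ ≤ δ ∧ δ ≤ x ∧ MeasurableSet Z ∧ ν Z ≠ 0 ∧ Z ⊆ H δ ∧ (∀ t ∈ Z, 3 / 4 ≤ ψ t) ∧
      ∀ P, Tag G H x ρ P → ν (P ∩ {t | ψ t ≤ 1 / 2}) = 0 → ν (acc ν P ∩ Z) = 0 := by
  have hsub : acc ν (H x ∩ {t | 3 / 4 ≤ f t}) ⊆ H x := acc_subset inter_subset_left (hH x)
  by_cases h : ∃ ρ < x, ∀ Q, Tag G H x ρ Q → ν (Q \ {t | f t < 1 / 2}) = 0 →
      ν (acc ν Q ∩ ({t | f t ≤ 0} ∩ acc ν (H x ∩ {t | 3 / 4 ≤ f t}))) = 0
  · obtain ⟨ρ, hρ, h⟩ := h
    refine ⟨ρ, hρ, fun γ hγ => ⟨fun t => 1 - f t, x, _, Or.inr rfl, hγ.le, le_rfl,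
      (measurableSet_le hf measurable_const).inter isClosed_acc.measurableSet, hE,
      inter_subset_right.trans hsub, fun t ht => ?_, fun P hP h0 => h P hP ?_⟩⟩
    · have : f t ≤ 0 := ht.1
      linarith
    · refine measure_mono_null (fun t ht => mem_inter ht.1 ?_) h0
      have : ¬ f t < 1 / 2 := ht.2
      show 1 - f t ≤ 1 / 2
      linarith
  push Not at h
  obtain ⟨ρ, hρ, hL⟩ := core_L (ν := ν) hH hG hR hx (A := {t | 1 / 2 < f t})
    (A' := {t | f t < 1 / 2}) (disjoint_left.2 fun t (h1 : 1 / 2 < f t) (h2 : f t < 1 / 2) =>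
      lt_asymm h1 h2)
  refine ⟨ρ, hρ, fun γ hγ => ?_⟩
  obtain ⟨Q, q1, q2, q3⟩ := h (max ρ γ) (max_lt hρ hγ)
  obtain ⟨δ, d1, d2, d3⟩ := q1.2
  refine ⟨f, δ, acc ν Q ∩ {t | 3 / 4 ≤ f t}, Or.inl rfl, (le_max_right _ _).trans d1, d2.le,
    isClosed_acc.measurableSet.inter (measurableSet_le measurable_const hf), fun h0 => ?_,
    inter_subset_left.trans (acc_subset d3 (hH δ)), fun t ht => ht.2, fun P hP h0 => ?_⟩
  · obtain ⟨t, t1, -, t2⟩ := nonempty_of_measure_ne_zero q3
    obtain ⟨u, u1, u2, u3⟩ := (hR x Q q1.1).2 t t1 (hsub t2)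
    exact t2 u u1 u2 (measure_mono_null (fun s hs => mem_inter (u3 ⟨hs.1, hs.2.1⟩) hs.2.2) h0)
  · refine measure_mono_null (inter_subset_inter_right _ inter_subset_left)
      (hL P Q hP (q1.mono (le_max_left _ _)) (measure_mono_null (fun t ht => ?_) h0) q2)
    exact mem_inter ht.1 (show f t ≤ 1 / 2 from not_lt.1 ht.2)

theorem core_local {Z B : Set T}
    (h : ∀ u ∈ countableBasis T, ν (P ∩ u ∩ B) = 0 → ν (acc ν (P ∩ u) ∩ Z) = 0) :
    ν ((acc ν P ∩ Z) \ acc ν (P ∩ B)) = 0 := by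
  have hc : {u ∈ countableBasis T | ν (P ∩ u ∩ B) = 0}.Countable :=
    (countable_countableBasis T).mono fun _ hu => hu.1
  refine measure_mono_null (fun t ht => ?_)
    ((measure_biUnion_null_iff hc).2 fun u hu => h u hu.1 hu.2)
  have := ht.2
  simp only [acc, mem_ofPred_eq, not_forall, not_not] at this
  obtain ⟨v, v1, v2, v3⟩ := this
  obtain ⟨u, u1, u2, u3⟩ := (isBasis_countableBasis T).exists_subset_of_mem_open v2 v1
  exact mem_biUnion (x := u) ⟨u1, measure_mono_null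
    (fun s hs => mem_inter (u3 hs.1.2) (mem_inter hs.1.1 hs.2)) v3⟩
    ⟨acc_inter_open (isOpen_of_mem_countableBasis u1) ⟨ht.1.1, u2⟩, ht.1.2⟩

/-- the generators attached to a closed set and a function -/
def gens (h : Set T) (f : T → ℝ) : Set (Set T) :=
  insert h (insert {t | 3 / 4 ≤ f t} (insert {t | f t ≤ 1 / 2} (insert {t | 3 / 4 ≤ 1 - f t}
    (insert {t | 1 - f t ≤ 1 / 2} (countableBasis T)))))

theorem gens_countable (h : Set T) (f : T → ℝ) : (gens h f).Countable :=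
  (((((countable_countableBasis T).insert _).insert _).insert _).insert _).insert _

theorem gens_meas {h : Set T} {f : T → ℝ} (hh : IsClosed h) (hf : Measurable f) :
    ∀ a ∈ gens h f, MeasurableSet a := by
  have h1 : Measurable fun t => 1 - f t := measurable_const.sub hf
  rintro a (rfl | rfl | rfl | rfl | rfl | ha)
  exacts [hh.measurableSet, measurableSet_le measurable_const hf,
    measurableSet_le hf measurable_const, measurableSet_le measurable_const h1,
    measurableSet_le h1 measurable_const, (isOpen_of_mem_countableBasis ha).measurableSet]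

theorem gens_psi {h : Set T} {f ψ : T → ℝ} (hψ : ψ = f ∨ ψ = fun t => 1 - f t) :
    {t | 3 / 4 ≤ ψ t} ∈ gens h f ∧ {t | ψ t ≤ 1 / 2} ∈ gens h f := by
  rcases hψ with rfl | rfl <;> simp [gens]

end objects

theorem free_core (hL : Loc) (hP : Pre) {T : Type} [TopologicalSpace T]
    [SecondCountableTopology T] [MeasurableSpace T] [BorelSpace T] (ν : Measure T)
    [IsProbabilityMeasure ν] [ν.OuterRegular] (Φ : Set (T → ℝ)) (hm : ∀ φ ∈ Φ, Measurable φ)
    (h1 : ∀ φ ∈ Φ, (fun t => 1 - φ t) ∈ Φ) {ε : ℝ≥0∞} (hε : ε ≠ 0)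
    (gen : ∀ H, IsClosed H → ν Hᶜ ≤ ε →
      ∃ φ ∈ Φ, ν ({t | φ t ≤ 0} ∩ acc ν (H ∩ {t | 3 / 4 ≤ φ t})) ≠ 0) :
    ∃ (Γ : Set II) (ψ : II → T → ℝ), Unb Γ ∧ (∀ i, ψ i ∈ Φ) ∧
      ∀ j ∈ Γ, ∀ F G : Finset II, (∀ i ∈ F, i ∈ Γ ∧ i < j) → (∀ i ∈ G, i ∈ Γ ∧ j < i) →
        ∃ P, MeasurableSet P ∧ ν P ≠ 0 ∧ (∀ i ∈ F, ∀ t ∈ P, 3 / 4 ≤ ψ i t) ∧
          ∀ i ∈ G, ∀ t ∈ P, ψ i t ≤ 1 / 2 := by
  classical
  let D := {d : Set T × (T → ℝ) // IsClosed d.1 ∧ d.2 ∈ Φ ∧
    ν ({t | d.2 t ≤ 0} ∩ acc ν (d.1 ∩ {t | 3 / 4 ≤ d.2 t})) ≠ 0}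
  obtain ⟨φ₀, a1, a2⟩ := gen univ isClosed_univ (by simp)
  obtain ⟨d, hd⟩ := rec_choice (I := OO) (⟨(univ, φ₀), isClosed_univ, a1, a2⟩ : D)
    (fun x g d => ∀ Q ∈ Ob (fun z => gens (g z).1.1 (g z).1.2) x,
      RelOpen Q d.1.1 ∧ RelOpen (acc ν Q) d.1.1) fun x g => by
      have hc := Ob.card (G := fun z => gens (g z).1.1 (g z).1.2) (x := x)
        fun z => gens_countable _ _
      obtain ⟨H, k1, k2, k3⟩ := cap hL ν (ι := Ob (fun z => gens (g z).1.1 (g z).1.2) x × Bool)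
        (by
          rw [Cardinal.mk_prod, Cardinal.lift_id, Cardinal.lift_id]
          exact (mul_le_mul' hc (Cardinal.mk_le_aleph0.trans Cardinal.aleph0_lt_aleph_one.le)).trans
            (Cardinal.mul_eq_self Cardinal.aleph0_lt_aleph_one.le).le)
        (fun p => if p.2 then p.1.1 else acc ν p.1.1) (fun p => by
          split_ifs
          exacts [Ob.meas (fun z => gens_meas (g z).2.1 (hm _ (g z).2.2.1)) p.1.2,
            isClosed_acc.measurableSet]) hε
      obtain ⟨φ, b1, b2⟩ := gen H k1 k2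
      exact ⟨⟨(H, φ), k1, b1, b2⟩, fun Q hQ => ⟨k3 (⟨Q, hQ⟩, true), k3 (⟨Q, hQ⟩, false)⟩⟩
  set H : OO → Set T := fun x => (d x).1.1 with hH
  set φ : OO → T → ℝ := fun x => (d x).1.2 with hφ
  set G : OO → Set (Set T) := fun z => gens (H z) (φ z) with hG
  have hcl : ∀ x, IsClosed (H x) := fun x => (d x).2.1
  have hΦ : ∀ x, φ x ∈ Φ := fun x => (d x).2.2.1
  have hGm : ∀ z, ∀ a ∈ G z, MeasurableSet a := fun z => gens_meas (hcl z) (hm _ (hΦ z))
  have hR : ∀ x, ∀ Q ∈ Ob G x, RelOpen Q (H x) ∧ RelOpen (acc ν Q) (H x) := fun x Q hQ =>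
    hd x Q (Ob.congr (fun z hz => by simp only [if_pos hz]; rfl) hQ)
  choose! ρ hρ hstep using fun x (hx : Good x) =>
    core_step (ν := ν) hcl hGm hR hx (hm _ (hΦ x)) (d x).2.2.2
  obtain ⟨r, hr⟩ := core_fodor ρ hρ
  obtain ⟨x, hx, hlt⟩ := seq_II (fun x : OO => Good x ∧ ρ x ≤ r ∧ r < x) (fun c d => c < d)
    fun C hC _ => by
      obtain ⟨b, hb⟩ := core_bound' hC
      obtain ⟨x, k1, k2, k3, k4⟩ := hr b
      exact ⟨x, ⟨k1, k2, k3⟩, fun c hc => (hb c hc).trans k4⟩
  choose ψ δ Z s1 s2 s3 s4 s5 s6 s7 s8 using fun i => hstep (x i) (hx i).1 r (hx i).2.2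
  obtain ⟨Γ, hΓ, hpos⟩ := hP T ν Z s4 s5
  refine ⟨Γ, ψ, hΓ, fun i => ?_, fun j hj F G' hF hG' => ?_⟩
  · rcases s1 i with h | h <;> rw [h]
    exacts [hΦ _, h1 _ (hΦ _)]
  have hobF : ∀ F : Finset II, (∀ i ∈ F, i < j) → ∀ y, x j < y →
      H (δ j) ∩ ⋂ i ∈ F, {t | 3 / 4 ≤ ψ i t} ∈ Ob G y := by
    intro F hF y hy
    induction F using Finset.induction_on with
    | empty => simpa using Ob.basic ((s3 j).trans_lt hy) (mem_insert _ _)
    | insert a F ha ih =>
      rw [Finset.set_biInter_insert, inter_left_comm]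
      exact Ob.inter (Ob.basic ((hlt _ _ (hF a (Finset.mem_insert_self _ _))).trans hy)
        (gens_psi (s1 a)).1) (ih fun i hi => hF i (Finset.mem_insert_of_mem hi))
  set P₀ := H (δ j) ∩ ⋂ i ∈ F, {t | 3 / 4 ≤ ψ i t} with hP₀
  have key : ∀ G' : Finset II, (∀ i ∈ G', j < i) →
      (∀ y, x j < y → (∀ i ∈ G', x i < y) → P₀ ∩ ⋂ i ∈ G', {t | ψ i t ≤ 1 / 2} ∈ Ob G y) ∧
      ν ((P₀ ∩ ⋂ i ∈ G', Z i) \ acc ν (P₀ ∩ ⋂ i ∈ G', {t | ψ i t ≤ 1 / 2})) = 0 := by
    intro G'
    induction G' using Finset.induction_on_max with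
    | empty =>
      intro _
      exact ⟨fun y hy _ => by simpa using hobF F (fun i hi => (hF i hi).2) y hy,
        by simpa using null_diff_acc⟩
    | insert a G' ha ih =>
      intro hj'
      obtain ⟨i1, i2⟩ := ih fun i hi => hj' i (Finset.mem_insert_of_mem hi)
      have hja := hlt _ _ (hj' a (Finset.mem_insert_self _ _))
      have e : P₀ ∩ ⋂ i ∈ insert a G', {t | ψ i t ≤ 1 / 2} =
          (P₀ ∩ ⋂ i ∈ G', {t | ψ i t ≤ 1 / 2}) ∩ {t | ψ a t ≤ 1 / 2} := by
        rw [Finset.set_biInter_insert, inter_comm {t | ψ a t ≤ 1 / 2}, inter_assoc P₀]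
      rw [e]
      refine ⟨fun y hy hy' => Ob.inter (i1 y hy fun i hi => hy' i (Finset.mem_insert_of_mem hi))
        (Ob.basic (hy' a (Finset.mem_insert_self _ _)) (gens_psi (s1 a)).2), ?_⟩
      have i3 := core_local (ν := ν) (P := P₀ ∩ ⋂ i ∈ G', {t | ψ i t ≤ 1 / 2}) (Z := Z a)
        (B := {t | ψ a t ≤ 1 / 2}) fun u hu => s8 a _ ⟨Ob.inter
          (i1 _ hja fun i hi => hlt _ _ (ha i hi)) (Ob.basic hja (by simp [hG, gens, hu])),
          δ j, (hx a).2.1.trans (s2 j), (s3 j).trans_lt hja, fun t ht => ht.1.1.1⟩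
      refine measure_mono_null (fun t ht => ?_) (measure_union_null i2 i3)
      have t1 := ht.1.2
      rw [Finset.set_biInter_insert] at t1
      by_cases h : t ∈ acc ν (P₀ ∩ ⋂ i ∈ G', {t | ψ i t ≤ 1 / 2})
      · exact Or.inr ⟨⟨h, t1.1⟩, ht.2⟩
      · exact Or.inl ⟨⟨ht.1.1, t1.2⟩, h⟩
  obtain ⟨k1, k2⟩ := key G' fun i hi => (hG' i hi).2
  obtain ⟨y, hy⟩ := core_bound mk_II.le x
  refine ⟨_, Ob.meas hGm (k1 y (hy j) fun i _ => hy i), ?_,
    fun i hi t ht => mem_iInter₂.1 ht.1.2 i hi, fun i hi t ht => mem_iInter₂.1 ht.2 i hi⟩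
  have k3 := hpos (insert j (F ∪ G')) fun i hi => by
    rcases Finset.mem_insert.1 hi with rfl | hi
    · exact hj
    · exact (Finset.mem_union.1 hi).elim (fun h => (hF i h).1) fun h => (hG' i h).1
  intro h0
  refine k3 (measure_mono_null (fun t ht => ?_) k2)
  have ht' := mem_iInter₂.1 ht
  refine ⟨⟨⟨s6 j (ht' j (Finset.mem_insert_self _ _)), mem_iInter₂.2 fun i hi => s7 i t
    (ht' i (by simp [hi]))⟩, mem_iInter₂.2 fun i hi => ht' i (by simp [hi])⟩,
    fun h => ne_zero_of_mem_acc h h0⟩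

end Pool.Agent.P.MP_5a7e2f_gt.Ad
end

-- part Pool.Agent.P.MP_5a7e2f_gt.AdGen
section

set_option autoImplicit false
set_option linter.unusedSectionVars false

open Set Filter Topology MeasureTheory TopologicalSpace
open scoped ENNReal Cardinal

namespace Pool.Agent.P.MP_5a7e2f_gt.Ad

theorem gen_null_diff {S : Type} [TopologicalSpace S] [CompactSpace S] [T2Space S]
    [MeasurableSpace S] [BorelSpace S] (μ : Measure S) [IsProbabilityMeasure μ] [μ.Regular]
    {Q : Set S} (hQ : MeasurableSet Q) : μ (Q \ acc μ Q) = 0 := by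
  rw [(hQ.diff isClosed_acc.measurableSet).measure_eq_iSup_isCompact]
  simp only [ENNReal.iSup_eq_zero]
  intro K hK hc
  refine hc.measure_zero_of_nhdsWithin fun t ht => ?_
  have h1 := (hK ht).2
  simp only [acc, mem_ofPred_eq, not_forall, not_not] at h1
  obtain ⟨u, hu, htu, h0⟩ := h1
  exact ⟨K ∩ u, inter_mem_nhdsWithin _ (hu.mem_nhds htu),
    measure_mono_null (fun s hs => mem_inter hs.2 (hK hs.1).1) h0⟩

theorem gen_inner {T : Type} [TopologicalSpace T] [RegularSpace T] [SecondCountableTopology T]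
    [MeasurableSpace T] [BorelSpace T] (ν : Measure T) [IsFiniteMeasure ν] {O : Set T}
    (hO : IsOpen O) {ε : ℝ≥0∞} (hε : ε ≠ 0) :
    ∃ t : Set (Set T), t.Finite ∧ t ⊆ countableBasis T ∧ (⋃ b ∈ t, closure b) ⊆ O ∧
      ν (O \ ⋃ b ∈ t, closure b) < ε := by
  have hc : {b | b ∈ countableBasis T ∧ closure b ⊆ O}.Countable :=
    (countable_countableBasis T).mono fun b hb => hb.1
  rcases Set.eq_empty_or_nonempty {b | b ∈ countableBasis T ∧ closure b ⊆ O} with h0 | h0
  · refine ⟨∅, finite_empty, empty_subset _, by simp, ?_⟩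
    have h1 : O = ∅ := by
      by_contra h1
      obtain ⟨x, hx⟩ := nonempty_iff_ne_empty.2 h1
      obtain ⟨v, h2, -, h3⟩ := (isBasis_countableBasis T).exists_closure_subset (hO.mem_nhds hx)
      exact (h0 ▸ show v ∈ {b | b ∈ countableBasis T ∧ closure b ⊆ O} from ⟨h2, h3⟩ : v ∈ (∅ : Set _))
    simpa [h1] using pos_iff_ne_zero.2 hε
  obtain ⟨b, hb⟩ := hc.exists_eq_range h0
  have h1 : ∀ n, b n ∈ countableBasis T ∧ closure (b n) ⊆ O := fun n =>
    (hb ▸ mem_range_self n : b n ∈ {b | b ∈ countableBasis T ∧ closure b ⊆ O})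
  have h2 : Tendsto (fun n => ν (O \ ⋃ i ∈ Iic n, closure (b i))) atTop
      (𝓝 (ν (⋂ n, O \ ⋃ i ∈ Iic n, closure (b i)))) := by
    refine tendsto_measure_iInter_atTop (fun n => ?_) (fun n n' hn => ?_) ⟨0, measure_ne_top _ _⟩
    · exact (hO.measurableSet.diff (MeasurableSet.biUnion (to_countable _)
        fun i _ => isClosed_closure.measurableSet)).nullMeasurableSet
    · exact sdiff_subset_sdiff_right (biUnion_subset_biUnion_left (Iic_subset_Iic.2 hn))
  have h3 : (⋂ n, O \ ⋃ i ∈ Iic n, closure (b i)) = ∅ := by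
    refine eq_empty_of_forall_notMem fun x hx => ?_
    rw [mem_iInter] at hx
    obtain ⟨v, h4, h5, h6⟩ :=
      (isBasis_countableBasis T).exists_closure_subset (hO.mem_nhds (hx 0).1)
    obtain ⟨n, rfl⟩ : v ∈ range b := hb ▸ ⟨h4, h6⟩
    exact (hx n).2 (mem_biUnion (mem_Iic.2 le_rfl) (subset_closure h5))
  rw [h3, measure_empty] at h2
  obtain ⟨n, hn⟩ := (h2.eventually_lt_const (pos_iff_ne_zero.2 hε)).exists
  refine ⟨b '' Iic n, (finite_Iic n).image b, ?_, ?_, ?_⟩
  · rintro _ ⟨i, -, rfl⟩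
    exact (h1 i).1
  · rw [biUnion_image]
    exact iUnion₂_subset fun i _ => (h1 i).2
  · rwa [biUnion_image]

theorem gen_of_not_ML {S : Type} [TopologicalSpace S] [CompactSpace S] [T2Space S]
    [MeasurableSpace S] [BorelSpace S] (μ : Measure S) [IsProbabilityMeasure μ] [μ.Regular]
    (g : ℕ → C(S, ℝ)) (hg : CType μ g) (h : ¬ ML μ) :
    ∃ ε : ℝ≥0∞, ε ≠ 0 ∧ ∀ H, IsClosed H → μ.map (pr g) Hᶜ ≤ ε → ∃ φ ∈ Phi μ g,
      μ.map (pr g) ({t | φ t ≤ 0} ∩ acc (μ.map (pr g)) (H ∩ {t | 3 / 4 ≤ φ t})) ≠ 0 := by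
  by_contra hcon
  push Not at hcon
  have hpc := continuous_pr g
  have hpm : Measurable (pr g) := hpc.measurable
  choose H hH hHc hH0 using fun m : ℕ =>
    hcon ((m : ℝ≥0∞) + 1)⁻¹ (ENNReal.inv_ne_zero.2 (by simp))
  have hle : ∀ A : Set (ℕ → ℝ), μ (pr g ⁻¹' A) ≤ μ.map (pr g) A := fun A =>
    Measure.le_map_apply hpm.aemeasurable A
  refine h (conclusion_of_family μ (𝓖 := range fun x : ℕ × {t : Set (Set (ℕ → ℝ)) |
      t.Finite ∧ t ⊆ countableBasis (ℕ → ℝ)} =>
      acc μ (pr g ⁻¹' H x.1) ∩ pr g ⁻¹' ⋃ b ∈ x.2.1, closure b) ?_ ?_ ?_)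
  · have := (countable_ofPred_finite_subset (countable_countableBasis (ℕ → ℝ))).to_subtype
    exact countable_range _
  · rintro _ ⟨x, rfl⟩
    exact isClosed_acc.inter ((x.2.2.1.isClosed_biUnion fun _ _ => isClosed_closure).preimage hpc)
  intro U hU δ hδ
  have hε : ENNReal.ofReal (δ / 3) ≠ 0 := by simpa using hδ
  obtain ⟨C, hCU, hC, hCμ⟩ := hU.measurableSet.exists_isCompact_sdiff_lt (measure_ne_top μ U) hε
  obtain ⟨f, hf0, hf1, -⟩ := exists_continuous_zero_one_of_isClosed hC.isClosed hU.isClosed_compl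
    (disjoint_compl_right_iff_subset.2 hCU)
  obtain ⟨φ, hφm, hφ⟩ := hg f
  obtain ⟨m, hm⟩ := ENNReal.exists_inv_nat_lt hε
  have hm' : μ.map (pr g) (H m)ᶜ < ENNReal.ofReal (δ / 3) :=
    (hHc m).trans_lt (lt_of_le_of_lt (ENNReal.inv_le_inv.2 le_self_add) hm)
  set Z := acc (μ.map (pr g)) (H m ∩ {t | 3 / 4 ≤ φ t}) with hZ
  have hZc : IsClosed Z := isClosed_acc
  obtain ⟨t, ht, htb, htO, htν⟩ := gen_inner (μ.map (pr g)) hZc.isOpen_compl hε
  refine ⟨_, ⟨(m, ⟨t, ht, htb⟩), rfl⟩, fun s hs => ?_, ?_⟩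
  · by_contra hsU
    refine hs.1 ({s | 3 / 4 < f s} ∩ pr g ⁻¹' Zᶜ)
      ((isOpen_lt continuous_const f.continuous).inter (hZc.isOpen_compl.preimage hpc))
      ⟨?_, htO hs.2⟩ ?_
    · rw [mem_ofPred_eq, hf1 hsU]
      norm_num
    · refine le_antisymm (le_trans (measure_mono_ae ?_)
        ((hle ((H m ∩ {t | 3 / 4 ≤ φ t}) \ Z)).trans null_diff_acc.le)) zero_le
      filter_upwards [hφ] with x hx hx'
      exact ⟨⟨hx'.2, by rw [mem_ofPred_eq, ← hx]; exact le_of_lt hx'.1.1⟩, hx'.1.2⟩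
  · have h1 : μ (C ∩ pr g ⁻¹' Z) = 0 := by
      refine le_antisymm (le_trans (measure_mono_ae ?_)
        ((hle ({t | φ t ≤ 0} ∩ Z)).trans (hH0 m φ ⟨hφm, f, hφ⟩).le)) zero_le
      filter_upwards [hφ] with x hx hx'
      exact ⟨by rw [mem_ofPred_eq, ← hx]; exact le_of_eq (hf0 hx'.1), hx'.2⟩
    have h2 := gen_null_diff μ ((hH m).preimage hpc).measurableSet
    have h3 : U \ (acc μ (pr g ⁻¹' H m) ∩ pr g ⁻¹' ⋃ b ∈ t, closure b) ⊆
        (U \ C ∪ pr g ⁻¹' (Zᶜ \ ⋃ b ∈ t, closure b) ∪ pr g ⁻¹' (H m)ᶜ) ∪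
          (C ∩ pr g ⁻¹' Z ∪ pr g ⁻¹' H m \ acc μ (pr g ⁻¹' H m)) := by
      intro x hx
      have := hx.2
      simp only [mem_union, Set.mem_sdiff, mem_inter_iff, mem_preimage, mem_compl_iff] at this ⊢
      have := hx.1
      tauto
    have h4 : μ (U \ (acc μ (pr g ⁻¹' H m) ∩ pr g ⁻¹' ⋃ b ∈ t, closure b)) <
        ENNReal.ofReal δ := by
      refine (measure_mono h3).trans_lt ((measure_union_le _ _).trans_lt ?_)
      rw [measure_union_null h1 h2, add_zero]
      refine (measure_union_le _ _).trans_lt ?_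
      have e : ENNReal.ofReal δ =
          ENNReal.ofReal (δ / 3) + ENNReal.ofReal (δ / 3) + ENNReal.ofReal (δ / 3) := by
        rw [← ENNReal.ofReal_add (by linarith) (by linarith),
          ← ENNReal.ofReal_add (by linarith) (by linarith)]
        congr 1
        ring
      rw [e]
      exact ENNReal.add_lt_add ((measure_union_le _ _).trans_lt
        (ENNReal.add_lt_add hCμ ((hle _).trans_lt htν))) ((hle _).trans_lt hm')
    exact ENNReal.toReal_lt_of_lt_ofReal h4

end Pool.Agent.P.MP_5a7e2f_gt.Ad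
end

-- part Pool.Agent.P.MP_5a7e2f_gt.AdTK
section

set_option autoImplicit false
set_option linter.unusedSectionVars false

open Set Filter Topology MeasureTheory TopologicalSpace
open scoped ENNReal Cardinal

namespace Pool.Agent.P.MP_5a7e2f_gt.Ad

theorem tk_compact (c : II → DD) : CompactSpace (KK c) :=
  isCompact_iff_compactSpace.1 (isClosed_KK c).isCompact

/-- clopen subsets of the subspace come from the cube -/
theorem tk_clopen_preimage (c : II → DD) {b : Set (KK c)} (hb : IsClopen b) :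
    ∃ d : Set YY, IsClopen d ∧ Subtype.val ⁻¹' d = b := by
  have := tk_compact c
  refine clopen_induction (fun b : Set (KK c) => ∃ d : Set YY, IsClopen d ∧ Subtype.val ⁻¹' d = b)
    ⟨∅, isClopen_empty, rfl⟩ ?_ ?_ ?_ b hb
  · rintro _ ⟨d, hd, rfl⟩
    exact ⟨dᶜ, hd.compl, rfl⟩
  · rintro _ _ ⟨d, hd, rfl⟩ ⟨d', hd', rfl⟩
    exact ⟨d ∪ d', hd.union hd', rfl⟩
  · intro x y hxy
    obtain ⟨d, h1, h2, h3⟩ := exists_isClopen_of_totally_separated (Subtype.val_injective.ne hxy)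
    exact ⟨Subtype.val ⁻¹' d, h1.preimage continuous_subtype_val, ⟨d, h1, rfl⟩, h2, h3⟩

theorem tk_fa (c : II → DD) [MeasurableSpace (KK c)] [BorelSpace (KK c)]
    (σ : ProbabilityMeasure (KK c)) :
    FA c fun d => (σ : Measure (KK c)).real (Subtype.val ⁻¹' d) where
  nonneg := fun _ _ => measureReal_nonneg
  total := by simp
  add := fun d d' _ hd' h => by
    rw [preimage_union]
    exact measureReal_union (h.preimage _)
      (hd'.preimage continuous_subtype_val).isOpen.measurableSet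
  null := fun d _ h => by
    have : (Subtype.val ⁻¹' d : Set (KK c)) = ∅ :=
      eq_empty_of_forall_notMem fun y hy => disjoint_left.1 h hy y.2
    rw [this, measureReal_empty]

theorem tight_KK (c : II → DD) [MeasurableSpace (KK c)] [BorelSpace (KK c)] : Tight (KK c) := by
  classical
  have := tk_compact c
  intro A x hx
  rw [closure_subtype] at hx
  obtain ⟨B, hB, h⟩ := tight (c := c) (ι := A)
    (fun i d => (i.1.1 : Measure (KK c)).real (Subtype.val ⁻¹' d))
    (fun d => (x.1 : Measure (KK c)).real (Subtype.val ⁻¹' d)) (fun i => tk_fa c i.1.1)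
    (tk_fa c x.1) fun s hs ε hε => by
      obtain ⟨σ, ⟨τ, hτ, rfl⟩, h⟩ := approx_of_mem_closure hx
        (s.image fun d => (Subtype.val ⁻¹' d : Set (KK c))) (by
          intro b hb
          obtain ⟨d, hd, rfl⟩ := Finset.mem_image.1 hb
          exact (hs d hd).preimage continuous_subtype_val) hε
      exact ⟨⟨τ, hτ⟩, fun d hd => h _ (Finset.mem_image_of_mem _ hd)⟩
  refine ⟨Subtype.val '' B, ?_, hB.image _, ?_⟩
  · rintro _ ⟨i, -, rfl⟩
    exact i.2
  · rw [closure_subtype]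
    refine mem_closure_of_approx fun s hs ε hε => ?_
    choose! g hg using fun b : Set (KK c) => tk_clopen_preimage c (b := b)
    obtain ⟨i, hi, h1⟩ := h (s.image g) (by
      intro d hd
      obtain ⟨b, hb, rfl⟩ := Finset.mem_image.1 hd
      exact (hg b (hs b hb)).1) ε hε
    refine ⟨i.1.1, ⟨i.1, ⟨i, hi, rfl⟩, rfl⟩, fun b hb => ?_⟩
    have h2 := h1 _ (Finset.mem_image_of_mem _ hb)
    simp only [(hg b (hs b hb)).2] at h2
    exact h2

end Pool.Agent.P.MP_5a7e2f_gt.Ad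
end

-- part Pool.Agent.P.MP_5a7e2f_gt.AdCapt
section

set_option autoImplicit false
set_option linter.unusedSectionVars false

open Set Filter Topology MeasureTheory TopologicalSpace
open scoped ENNReal Cardinal

namespace Pool.Agent.P.MP_5a7e2f_gt.Ad

section profinite

variable {X : Type} [TopologicalSpace X] [CompactSpace X] [T2Space X] [TotallyDisconnectedSpace X]

theorem capt_between {K U : Set X} (hK : IsCompact K) (hU : IsOpen U) (h : K ⊆ U) :
    ∃ b, IsClopen b ∧ K ⊆ b ∧ b ⊆ U := by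
  refine hK.induction_on (p := fun K => ∃ b, IsClopen b ∧ K ⊆ b ∧ b ⊆ U)
    ⟨∅, isClopen_empty, Subset.rfl, empty_subset _⟩ ?_ ?_ ?_
  · rintro s t hst ⟨b, h1, h2, h3⟩
    exact ⟨b, h1, hst.trans h2, h3⟩
  · rintro s t ⟨b, h1, h2, h3⟩ ⟨b', k1, k2, k3⟩
    exact ⟨b ∪ b', h1.union k1, union_subset_union h2 k2, union_subset h3 k3⟩
  · intro x hx
    obtain ⟨b, h1, h2, h3⟩ := compact_exists_isClopen_in_isOpen hU (h hx)
    exact ⟨b, mem_nhdsWithin_of_mem_nhds (h1.isOpen.mem_nhds h2), b, h1, Subset.rfl, h3⟩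

variable [MeasurableSpace X] [BorelSpace X]

theorem capt_shadow {T : Type} [MeasurableSpace T] (ν : Measure T) [IsProbabilityMeasure ν]
    (L : T → X) (hL : ∀ b, IsClopen b → MeasurableSet (L ⁻¹' b)) (μ : Measure X)
    [IsProbabilityMeasure μ] [μ.Regular] (key : ∀ b, IsClopen b → μ b = ν (L ⁻¹' b))
    {K : Set X} (hK : IsCompact K) : ∃ H, MeasurableSet H ∧ μ K ≤ ν H ∧
      ∀ u, IsClopen u → Disjoint K u → ν (H ∩ L ⁻¹' u) = 0 := by
  have h1 : ∀ n : ℕ, ∃ b, IsClopen b ∧ K ⊆ b ∧ μ (b \ K) ≤ 2⁻¹ ^ n := fun n => by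
    obtain ⟨U, u1, u2, -, u3⟩ := hK.measurableSet.exists_isOpen_sdiff_lt (μ := μ)
      (measure_ne_top _ _) (ε := 2⁻¹ ^ n) (ENNReal.pow_pos (by simp) _).ne'
    obtain ⟨b, b1, b2, b3⟩ := capt_between hK u2 u1
    exact ⟨b, b1, b2, (measure_mono (sdiff_subset_sdiff_left b3)).trans u3.le⟩
  choose b b1 b2 b3 using h1
  refine ⟨⋂ n, L ⁻¹' b n, MeasurableSet.iInter fun n => hL _ (b1 n), ?_, fun u hu hd => ?_⟩
  · rw [measure_iInter_eq_iInf_measure_iInter_le (fun n => (hL _ (b1 n)).nullMeasurableSet)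
      ⟨0, measure_ne_top _ _⟩]
    refine le_iInf fun n => ?_
    have hb : IsClopen (⋂ j ≤ n, b j) := (finite_le_nat n).isClopen_biInter fun j _ => b1 j
    rw [← preimage_iInter₂, ← key _ hb]
    exact measure_mono (subset_iInter₂ fun j _ => b2 j)
  · refine le_antisymm (ge_of_tendsto' (ENNReal.tendsto_pow_atTop_nhds_zero_of_lt_one
      (by norm_num : (2⁻¹ : ℝ≥0∞) < 1)) fun n => ?_) zero_le
    refine le_trans ?_ (b3 n)
    refine le_trans ?_ (measure_mono (show b n ∩ u ⊆ b n \ K from fun x hx =>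
      ⟨hx.1, fun h => disjoint_left.1 hd h hx.2⟩))
    rw [key _ ((b1 n).inter hu)]
    exact measure_mono fun t ht => ⟨mem_iInter.1 ht.1 n, ht.2⟩

end profinite

theorem capt_clopen (c : II → DD) (P : Set (KK c) → Prop) (h0 : P ∅) (hc : ∀ a, P a → P aᶜ)
    (hu : ∀ a b, P a → P b → P (a ∪ b)) (h : ∀ d, IsClopen d → P (Subtype.val ⁻¹' d)) :
    ∀ b, IsClopen b → P b := by
  have : CompactSpace (KK c) := isCompact_iff_compactSpace.1 (isClosed_KK c).isCompact
  refine clopen_induction P h0 hc hu fun x y hxy => ?_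
  obtain ⟨a, h1, h2, h3⟩ := exists_isClopen_of_totally_separated
    (show x.1 ≠ y.1 from fun e => hxy (Subtype.ext e))
  exact ⟨Subtype.val ⁻¹' a, h1.preimage continuous_subtype_val, h a h1, h2, h3⟩

theorem capt_of_Q1 (h : Q1) (c : II → DD) : Capt c := by
  classical
  have : CompactSpace (KK c) := isCompact_iff_compactSpace.1 (isClosed_KK c).isCompact
  let _ : MeasurableSpace (KK c) := borel _
  have : BorelSpace (KK c) := ⟨rfl⟩
  let L : TT → KK c := fun t => ⟨emb c (t, none), emb_mem (adm_none t)⟩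
  have hL : ∀ b, IsClopen b → MeasurableSet (L ⁻¹' b) :=
    capt_clopen c (fun b => MeasurableSet (L ⁻¹' b)) MeasurableSet.empty (fun a h => h.compl)
      (fun a b ha hb => ha.union hb) fun d hd => measurableSet_ell hd
  obtain ⟨μ, hμ, hr, key⟩ := exists_lift_measure lam L hL
  obtain ⟨A, a1, -, a3⟩ := h (KK c) (tight_KK c) μ hμ hr
  have hK : ∀ (i : ℕ) (t : Finset (Set (KK c))), t ⊆ A i → IsCompact (⋃₀ (t : Set (Set (KK c)))) :=
    fun i t ht => t.finite_toSet.isCompact_sUnion fun K hK => a1 i K (ht hK)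
  have hc : {t : Finset (Set (KK c)) | ∃ i, t ⊆ A i}.Countable := by
    refine (countable_iUnion fun i => (A i).powerset.countable_toSet).mono ?_
    rintro t ⟨i, hi⟩
    exact mem_iUnion.2 ⟨i, by simpa using hi⟩
  obtain ⟨e, he⟩ := hc.exists_eq_range ⟨∅, 0, Finset.empty_subset _⟩
  have he' : ∀ n, IsCompact (⋃₀ (e n : Set (Set (KK c)))) := fun n => by
    obtain ⟨i, hi⟩ : e n ∈ {t : Finset (Set (KK c)) | ∃ i, t ⊆ A i} := he ▸ mem_range_self n
    exact hK i _ hi
  choose H h1 h2 h3 using fun n => capt_shadow lam L hL μ key (he' n)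
  refine ⟨H, h1, fun γ => ?_⟩
  let u : Set (KK c) := Subtype.val ⁻¹' uu γ
  have hu : IsClopen u := (isClopen_uu γ).preimage continuous_subtype_val
  obtain ⟨i, i1, i2⟩ := a3 {u, uᶜ} (by
    rintro v (rfl | rfl)
    exacts [hu.isOpen, hu.compl.isOpen]) (by simp) 4⁻¹ (by simp)
  obtain ⟨n, hn⟩ : (A i).filter (· ⊆ uᶜ) ∈ range e := he ▸ ⟨i, Finset.filter_subset _ _⟩
  refine ⟨n, lt_of_lt_of_le ?_ (h2 n), h3 n u hu ?_⟩
  · by_contra hcon
    have hsub : (univ : Set (KK c)) ⊆ (univ \ ⋃₀ (A i : Set (Set (KK c)))) ∪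
        (u ∪ ⋃₀ (e n : Set (Set (KK c)))) := by
      intro x _
      by_cases hx : x ∈ ⋃₀ (A i : Set (Set (KK c)))
      · obtain ⟨K, k1, k2⟩ := hx
        obtain ⟨v, rfl | rfl, k3⟩ := i1 K k1
        · exact Or.inr (Or.inl (k3 k2))
        · exact Or.inr (Or.inr ⟨K, by rw [hn]; exact Finset.mem_filter.2 ⟨k1, k3⟩, k2⟩)
      · exact Or.inl ⟨trivial, hx⟩
    have m1 : μ u ≤ 2⁻¹ ^ 3 := by
      rw [key u hu]
      exact (measure_mono (ell_uu_subset γ)).trans ((c γ).lam_tail 0)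
    have m2 := (measure_mono (μ := μ) hsub).trans ((measure_union_le _ _).trans
      (add_le_add i2.le ((measure_union_le _ _).trans (add_le_add m1 (not_lt.1 hcon)))))
    rw [measure_univ, ← ENNReal.toReal_le_toReal (by finiteness) (by finiteness),
      ENNReal.toReal_add (by finiteness) (by finiteness),
      ENNReal.toReal_add (by finiteness) (by finiteness)] at m2
    norm_num at m2
  · rw [hn, disjoint_sUnion_left]
    intro K hK
    exact subset_compl_iff_disjoint_right.1 (Finset.mem_filter.1 hK).2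

end Pool.Agent.P.MP_5a7e2f_gt.Ad
end

-- part Pool.Agent.P.MP_5a7e2f_gt.AdLoc
section

set_option autoImplicit false
set_option linter.unusedSectionVars false

open Set Filter Topology MeasureTheory TopologicalSpace
open scoped ENNReal Cardinal

namespace Pool.Agent.P.MP_5a7e2f_gt.Ad

theorem loc_exists_h : ∃ h : II → ℕ → ℕ, ∀ g b k, b < g → ee g b ≤ k → h g k ≠ h b k := by
  obtain ⟨h, hh⟩ := rec_choice (I := II) (fun _ : ℕ => (0 : ℕ))
    (fun g p d => ∀ b k, b < g → ee g b ≤ k → d k ≠ p b k) (fun g p => by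
      have : ∀ k, ∃ n : ℕ, n ∉ (fun b => p b k) '' {b | b < g ∧ ee g b ≤ k} :=
        fun k => ((finite_ee g k).image _).exists_notMem
      choose d hd using this
      exact ⟨d, fun b k h1 h2 h3 => hd k ⟨b, ⟨h1, h2⟩, h3.symm⟩⟩)
  exact ⟨h, fun g b k h1 h2 => by simpa [h1] using hh g b k h1 h2⟩

/-- the disjointified independent sets -/
def loc_DD (v : ℕ → ℕ) : DD where
  c k := GG k (v k) \ ⋃ i ∈ Finset.range k, GG i (v i)
  clopen k := (isClopen_GG _ _).diff (isClopen_biUnion_finset fun i _ => isClopen_GG _ _)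
  disj i j hij := by
    have key : ∀ i j : ℕ, i < j → Disjoint (GG i (v i) \ ⋃ l ∈ Finset.range i, GG l (v l))
        (GG j (v j) \ ⋃ l ∈ Finset.range j, GG l (v l)) := fun i j h =>
      disjoint_left.2 fun t h1 h2 => h2.2 (mem_iUnion₂.2 ⟨i, Finset.mem_range.2 h, h1.1⟩)
    rcases lt_or_gt_of_ne hij with h | h
    · exact key i j h
    · exact (key j i h).symm
  small k := (measure_mono sdiff_subset).trans (lam_GG _ _).le

theorem loc_bound (v : II → ℕ → ℕ) (hv : ∀ g b k, b < g → ee g b ≤ k → v g k ≠ v b k)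
    {H : Set TT} {g : II} (h0 : lam (H ∩ ell (fun b => loc_DD (v b)) (uu g)) = 0) (k : ℕ) :
    lam (H ∩ GG k (v g k)) ≤ 2⁻¹ * 2⁻¹ ^ (k + 4) := by
  have := (countable_Iio g).to_subtype
  have hsub : H ∩ GG k (v g k) ⊆ (H ∩ ell (fun b => loc_DD (v b)) (uu g)) ∪
      ((⋃ i ∈ Finset.range k, GG k (v g k) ∩ GG i (v g i)) ∪
        ⋃ b : Iio g, ⋃ j : ℕ, GG k (v g k) ∩ GG (j + ee g b) (v b (j + ee g b))) := by
    intro t ht
    by_cases h1 : t ∈ ⋃ i ∈ Finset.range k, GG i (v g i)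
    · obtain ⟨i, hi, h2⟩ := mem_iUnion₂.1 h1
      exact Or.inr (Or.inl (mem_iUnion₂.2 ⟨i, hi, ht.2, h2⟩))
    · by_cases h2 : t ∈ avoid (fun b => loc_DD (v b)) g
      · obtain ⟨b, hb⟩ := mem_iUnion.1 h2
        obtain ⟨j, hj⟩ := mem_iUnion.1 hb
        exact Or.inr (Or.inr (mem_iUnion.2 ⟨b, mem_iUnion.2 ⟨j, ht.2, hj.1⟩⟩))
      · exact Or.inl ⟨ht.1, subset_ell_uu (c := fun b => loc_DD (v b)) g k ⟨⟨ht.2, h1⟩, h2⟩⟩
  have hA : lam (⋃ i ∈ Finset.range k, GG k (v g k) ∩ GG i (v g i)) ≤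
      2⁻¹ ^ (k + 4) * 2⁻¹ ^ 3 := by
    refine (measure_biUnion_finset_le _ _).trans ?_
    rw [← geo 3, ← ENNReal.tsum_mul_left]
    refine le_trans (Finset.sum_le_sum fun i hi => ?_) (ENNReal.sum_le_tsum (Finset.range k))
    refine (lam_GG_inter fun h => ?_).le
    have := Finset.mem_range.1 hi
    have h2 := congrArg Prod.fst h
    simp only at h2
    omega
  have hB : lam (⋃ b : Iio g, ⋃ j : ℕ, GG k (v g k) ∩ GG (j + ee g b) (v b (j + ee g b))) ≤
      2⁻¹ ^ (k + 4) * 2⁻¹ ^ 2 := by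
    refine (measure_iUnion_le _).trans ?_
    have h1 : ∀ b : Iio g,
        lam (⋃ j : ℕ, GG k (v g k) ∩ GG (j + ee g b) (v b (j + ee g b))) ≤
          2⁻¹ ^ (k + 4) * 2⁻¹ ^ (ee g b + 3) := by
      intro b
      refine (measure_iUnion_le _).trans ?_
      rw [← geo (ee g b + 3), ← ENNReal.tsum_mul_left]
      refine ENNReal.tsum_le_tsum fun j => (lam_GG_inter fun h => ?_).le
      have h2 := congrArg Prod.fst h
      have h3 := congrArg Prod.snd h
      simp only at h2 h3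
      rw [← h2] at h3
      exact hv g b k b.2 (by omega) h3
    refine (ENNReal.tsum_le_tsum h1).trans ?_
    rw [ENNReal.tsum_mul_left, ← geo 2]
    gcongr
    exact ENNReal.tsum_comp_le_tsum_of_injective (f := fun β : Iio g => ee g β)
      (fun a b h => Subtype.ext (ee_inj g a.2 b.2 h)) fun m => (2⁻¹ : ℝ≥0∞) ^ (m + 3)
  refine (measure_mono hsub).trans ((measure_union_le _ _).trans ?_)
  rw [h0, zero_add]
  refine (measure_union_le _ _).trans ((add_le_add hA hB).trans ?_)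
  rw [← mul_add, mul_comm]
  gcongr
  calc (2⁻¹ ^ 3 + 2⁻¹ ^ 2 : ℝ≥0∞) ≤ 2⁻¹ ^ 2 + 2⁻¹ ^ 2 :=
        add_le_add (pow_le_pow_of_le_one (by simp) (by simp) (by norm_num)) le_rfl
    _ = 2⁻¹ := by
        rw [pow_two, ← mul_add, ENNReal.inv_two_add_inv_two, mul_one]

theorem loc_of_capt (h : ∀ c, Capt c) : Loc := by
  classical
  intro f
  obtain ⟨a, ha⟩ := loc_exists_h
  let v : II → ℕ → ℕ := fun g k => Nat.pair (f g k) (a g k)
  have hv : ∀ g b k, b < g → ee g b ≤ k → v g k ≠ v b k := fun g b k h1 h2 h3 =>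
    ha g b k h1 h2 (Nat.pair_eq_pair.1 h3).2
  obtain ⟨H, hH, hc⟩ := h fun b => loc_DD (v b)
  have hφ : ∀ n, ∃ φ : ℕ → Finset ℕ, Slalom φ ∧ (2⁻¹ < lam (H n) →
      ∀ k w, lam (H n ∩ GG k w) ≤ 2⁻¹ * 2⁻¹ ^ (k + 4) → w ∈ φ k) := by
    intro n
    by_cases h1 : 2⁻¹ < lam (H n)
    · obtain ⟨φ, h2, h3⟩ := slalom_of (hH n) h1
      exact ⟨φ, h2, fun _ => h3⟩
    · exact ⟨fun _ => ∅, by simp [Slalom], fun h2 => absurd h2 h1⟩
  choose φ h1 h2 using hφ
  obtain ⟨ψ, h3, h4⟩ := slalom_merge φ h1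
  refine ⟨fun k => (ψ k).image fun w => (Nat.unpair w).1,
    ne_top_of_le_ne_top h3 (ENNReal.tsum_le_tsum fun k => ?_), fun g => ?_⟩
  · have h7 : ((ψ k).image fun w => (Nat.unpair w).1).card ≤ (ψ k).card := Finset.card_image_le
    gcongr
  · obtain ⟨n, h5, h6⟩ := hc g
    refine (h4 n).mono fun k hk => Finset.mem_image.2 ⟨v g k, hk ?_, by simp [v]⟩
    exact h2 n h5 k _ (loc_bound v hv h6 k)

end Pool.Agent.P.MP_5a7e2f_gt.Ad
end

-- part Pool.Agent.P.MP_5a7e2f_gt.AdMain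
section

set_option autoImplicit false
set_option linter.unusedSectionVars false

open Set Filter Topology MeasureTheory TopologicalSpace
open scoped ENNReal Cardinal

namespace Pool.Agent.P.MP_5a7e2f_gt.Ad

theorem Q1_of_addN (h : AddN) : Q1 := by
  intro S _ _ _ _ _ ht μ hμ hr
  have hL := loc_of_addN h
  have hP := pre_of_covP (covP_of hL h)
  have hF : ¬ FreeP μ := fun hf => not_tight_of_free μ hf ht
  obtain ⟨g, hg⟩ := ctype_of_not_free hP μ hF
  by_contra hn
  obtain ⟨ε, hε, gen⟩ := gen_of_not_ML μ g hg hn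
  have hπ : Measurable (pr g) := (continuous_pr g).measurable
  have : IsProbabilityMeasure (μ.map (pr g)) := Measure.isProbabilityMeasure_map hπ.aemeasurable
  obtain ⟨Γ, ψ, h1, h2, h3⟩ := free_core hL hP (μ.map (pr g)) (Phi μ g) (fun φ hφ => hφ.1)
    (fun φ ⟨k1, f, k2⟩ => ⟨measurable_const.sub k1, 1 - f, k2.mono fun s hs => by
      simp only [ContinuousMap.sub_apply, ContinuousMap.one_apply] at hs ⊢
      rw [hs]⟩) hε gen
  choose f hf using fun i => (h2 i).2
  refine hF ⟨Γ, f, 1 / 2, 3 / 4, h1, by norm_num, fun j hj F G hF hG => ?_⟩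
  obtain ⟨P, p1, p2, p3, p4⟩ := h3 j hj F G hF hG
  have hi : ∀ i, IntegrableOn (fun s => f i s) (pr g ⁻¹' P) μ := fun i =>
    ((BoundedContinuousFunction.mkOfCompact (f i)).integrable μ).integrableOn
  have hc : ∀ a : ℝ, a * μ.real (pr g ⁻¹' P) = ∫ _ in pr g ⁻¹' P, a ∂μ := fun a => by
    simp [mul_comm]
  refine ⟨pr g ⁻¹' P, hπ p1, by rwa [Measure.map_apply hπ p1] at p2, fun i hi' => ?_,
    fun i hi' => ?_⟩
  · rw [hc]
    refine setIntegral_mono_on_ae (integrableOn_const (measure_ne_top _ _)) (hi i) (hπ p1) ?_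
    filter_upwards [hf i] with s hs hs'
    rw [hs]
    exact p3 i hi' _ hs'
  · rw [hc]
    refine setIntegral_mono_on_ae (hi i) (integrableOn_const (measure_ne_top _ _)) (hπ p1) ?_
    filter_upwards [hf i] with s hs hs'
    rw [hs]
    exact p4 i hi' _ hs'

theorem Q1_iff : Q1 ↔ AddN :=
  ⟨fun h => addN_of_loc (loc_of_capt (capt_of_Q1 h)), Q1_of_addN⟩

end Pool.Agent.P.MP_5a7e2f_gt.Ad
end
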